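import Pool.Agent.T2h8.RM.Stm

/-!
Auxiliary lemmas for the tasks Ffull, Fm, Fj, cov: polynomials with coefficients in `L0`, and
equivariance in matrix form.
-/

set_option autoImplicit false

open MvPolynomial

namespace Pool.Agent.T2h8.RM.AuxF

variable (K : Type) [Field K] (n m : ℕ)

/-- the polynomials with coefficients in `L0` -/
noncomputable def CiR : Subring (MvPolynomial (Fin n) (LL K n m)) where
  carrier := {P | ∀ α, coeff α P ∈ L0 K n m}
  mul_mem' := by
    classical
    intro a b ha hb α
    rw [coeff_mul]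
    exact sum_mem fun x _ => mul_mem (ha _) (hb _)
  add_mem' := by
    intro a b ha hb α
    rw [coeff_add]
    exact add_mem (ha α) (hb α)
  neg_mem' := by
    intro a ha α
    rw [coeff_neg]
    exact neg_mem (ha α)
  one_mem' := by
    classical
    intro α
    rw [coeff_one]
    split_ifs
    · exact one_mem _
    · exact zero_mem _
  zero_mem' := by
    intro α
    rw [coeff_zero]
    exact zero_mem _

variable {K n m}

theorem mem_CiR {P : MvPolynomial (Fin n) (LL K n m)} :
    P ∈ CiR K n m ↔ ∀ α, coeff α P ∈ L0 K n m := Iff.rfl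

theorem C_mem {a : LL K n m} (ha : a ∈ L0 K n m) : C a ∈ CiR K n m := by
  classical
  intro α
  rw [coeff_C]
  split_ifs
  · exact ha
  · exact zero_mem _

theorem X_mem (i : Fin n) : (X i : MvPolynomial (Fin n) (LL K n m)) ∈ CiR K n m := by
  classical
  intro α
  rw [coeff_X]
  split_ifs
  · exact one_mem _
  · exact zero_mem _

theorem pderiv_mem {P : MvPolynomial (Fin n) (LL K n m)} (hP : P ∈ CiR K n m) (i : Fin n) :
    pderiv i P ∈ CiR K n m := by
  intro α
  rw [coeff_pderiv]
  refine mul_mem (hP _) (add_mem ?_ (one_mem _))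
  exact natCast_mem _ _

theorem det_mem {M : Matrix (Fin n) (Fin n) (MvPolynomial (Fin n) (LL K n m))}
    (hM : ∀ i j, M i j ∈ CiR K n m) : M.det ∈ CiR K n m := by
  rw [Matrix.det_apply]
  refine sum_mem fun σ _ => ?_
  rw [Units.smul_def]
  exact zsmul_mem (prod_mem fun i _ => hM _ _) _

/-- `g` as a matrix of constant polynomials -/
noncomputable def GG (g : GL (Fin n) K) : Matrix (Fin n) (Fin n) (MvPolynomial (Fin n) (LL K n m)) :=
  g.1.map (fun a => C (algebraMap K (LL K n m) a))

theorem GG_mul (g h : GL (Fin n) K) :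
    GG (m := m) g * GG h = GG (g * h) := by
  have : (g * h).1 = g.1 * h.1 := rfl
  unfold GG
  rw [this]
  have h1 := Matrix.map_mul (L := g.1) (M := h.1)
    (f := (C : LL K n m →+* MvPolynomial (Fin n) (LL K n m)).comp (algebraMap K (LL K n m)))
  exact h1.symm

theorem GG_one : GG (m := m) (1 : GL (Fin n) K) = 1 := by
  have h1 := Matrix.map_one (n := Fin n)
    ((C : LL K n m →+* MvPolynomial (Fin n) (LL K n m)).comp (algebraMap K (LL K n m)))
    (map_zero _) (map_one _)
  exact h1

theorem GG_inv_mul (g : GL (Fin n) K) : GG (m := m) g⁻¹ * GG g = 1 := by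
  rw [GG_mul, inv_mul_cancel, GG_one]

theorem GG_mul_inv (g : GL (Fin n) K) : GG (m := m) g * GG g⁻¹ = 1 := by
  rw [GG_mul, mul_inv_cancel, GG_one]

theorem GG_det (g : GL (Fin n) K) :
    (GG (m := m) g).det = C (algebraMap K (LL K n m) g.1.det) := by
  have h1 := RingHom.map_det
    ((C : LL K n m →+* MvPolynomial (Fin n) (LL K n m)).comp (algebraMap K (LL K n m))) g.1
  exact h1.symm

theorem Th_C (g : GL (Fin n) K) (a : LL K n m) : Th g (C a) = C (sg g a) := by
  show sbs _ (map _ (C a)) = _
  rw [map_C]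
  exact (sbs (g.1.map (algebraMap K (LL K n m)))).commutes (sg g a)

/-- the equivariance of `A.map C` -/
theorem AC_map {A : Matrix (Fin n) (Fin n) (LL K n m)} (hA : EqM A)
    (g : GL (Fin n) K) :
    (A.map C).map (Th g) = GG (m := m) g * A.map C * GG g⁻¹ := by
  have h1 : (A.map C).map (Th g) = (A.map (sg g)).map C := by
    ext1 i j
    simp only [Matrix.map_apply]
    exact Th_C g _
  rw [h1, hA.2 g]
  have h2 : ∀ M N : Matrix (Fin n) (Fin n) (LL K n m),
      (M * N).map (C : LL K n m →+* MvPolynomial (Fin n) (LL K n m)) = M.map C * N.map C :=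
    fun M N => Matrix.map_mul
  rw [h2, h2]
  rfl

theorem Th_smul (g : GL (Fin n) K) (a : LL K n m)
    (P : MvPolynomial (Fin n) (LL K n m)) : Th g (a • P) = sg g a • Th g P := by
  rw [smul_eq_C_mul, map_mul, Th_C, smul_eq_C_mul]

instance [CharZero K] : CharZero (LL K n m) :=
  charZero_of_injective_algebraMap (algebraMap K (LL K n m)).injective

end Pool.Agent.T2h8.RM.AuxF
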