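import Mathlib

/-! Definitions for MP_82c165_ag: rationality of the moduli space of self maps of `P^(n-1)` of
degree `d = m + 1`. Everything below is over a field `K` of characteristic zero. -/

set_option autoImplicit false

open MvPolynomial

namespace Pool.Agent.T2h8.RM

/-- the monomials of degree `d` in `n` variables -/
abbrev Mon (n d : ℕ) := {α : Fin n →₀ ℕ // α.degree = d}

instance instFiniteMon (n d : ℕ) : Finite (Mon n d) := by
  have h : ∀ α : Mon n d, ∀ i, (α.1 i) ≤ d := by
    intro α i
    refine le_trans ?_ (le_of_eq α.2)
    rw [Finsupp.degree_eq_sum]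
    exact Finset.single_le_sum (f := fun j => α.1 j) (fun _ _ => Nat.zero_le _) (Finset.mem_univ i)
  have : Function.Injective (fun α : Mon n d => fun i : Fin n => (⟨α.1 i, Nat.lt_succ_of_le (h α i)⟩ : Fin (d + 1))) := by
    intro α β hab
    apply Subtype.ext
    ext i
    have := congrFun hab i
    simpa using this
  exact Finite.of_injective _ this

noncomputable instance instFintypeMon (n d : ℕ) : Fintype (Mon n d) := Fintype.ofFinite _

/-- the indices of the coefficients of an `n`-tuple of forms of degree `d` in `n` variables -/
abbrev Idx (n d : ℕ) := Fin n × Mon n d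

section general

variable {A : Type*} [CommRing A] {n d : ℕ}

/-- the `n`-tuple of forms of degree `d` with the coefficients `c` -/
noncomputable def form (c : Idx n d → A) (i : Fin n) : MvPolynomial (Fin n) A :=
  ∑ α : Mon n d, monomial α.1 (c (i, α))

/-- the substitution `P(x) ↦ P(g x)` -/
noncomputable def sbs (g : Matrix (Fin n) (Fin n) A) :
    MvPolynomial (Fin n) A →ₐ[A] MvPolynomial (Fin n) A :=
  aeval fun i => ∑ j, C (g i j) * X j

/-- the divergence -/
noncomputable def divg (u : Fin n → MvPolynomial (Fin n) A) : MvPolynomial (Fin n) A :=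
  ∑ i, pderiv i (u i)

/-- the Jacobian matrix -/
noncomputable def jac (u : Fin n → MvPolynomial (Fin n) A) :
    Matrix (Fin n) (Fin n) (MvPolynomial (Fin n) A) :=
  Matrix.of fun i j => pderiv j (u i)

/-- the divergence free part of an `n`-tuple of forms of degree `m + 1` -/
noncomputable def tf (K : Type*) [Field K] [Algebra K A] (m : ℕ)
    (u : Fin n → MvPolynomial (Fin n) A) (i : Fin n) : MvPolynomial (Fin n) A :=
  u i - C (algebraMap K A ((m + n : K)⁻¹)) * divg u * X i

/-- The coefficients of `g ∘ f ∘ g⁻¹` where `f` is the tuple with the coefficients `c`. -/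
noncomputable def act {K : Type*} [Field K] [Algebra K A] (g : GL (Fin n) K) (c : Idx n d → A) :
    Idx n d → A := fun p =>
  coeff p.2.1 (∑ j, C (algebraMap K A (g.1 p.1 j)) *
    sbs ((g⁻¹).1.map (algebraMap K A)) (form c j))

end general

/-- the ring of polynomials in the coefficients of an `n`-tuple of forms of degree `m + 1` -/
abbrev SS (K : Type*) [Field K] (n m : ℕ) := MvPolynomial (Idx n (m + 1)) K

/-- the field of rational functions in the coefficients of an `n`-tuple of forms of degree
`m + 1` -/
abbrev LL (K : Type*) [Field K] (n m : ℕ) := FractionRing (SS K n m)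

section action

variable {K : Type*} [Field K] {n m : ℕ}

/-- the substitution `P ↦ P(act g c)` in the ring of polynomials in the coefficients `c` -/
noncomputable def sub (g : GL (Fin n) K) : SS K n m →ₐ[K] SS K n m :=
  aeval (act g X)

/-- The extension of an injective endomorphism of a domain to its field of fractions. -/
noncomputable def extF {K R : Type*} [Field K] [CommRing R] [IsDomain R] [Algebra K R]
    (f : R →ₐ[K] R) (hf : Function.Injective f) : FractionRing R →ₐ[K] FractionRing R :=
  IsFractionRing.liftAlgHom (g := (Algebra.algHom K R (FractionRing R)).comp f)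
    ((IsFractionRing.injective R (FractionRing R)).comp hf)

open Classical in
/-- The action `F ↦ F(act g c)` on the field of rational functions in the coefficients. (`sub g`
is injective.) -/
noncomputable def sg (g : GL (Fin n) K) : LL K n m →ₐ[K] LL K n m :=
  if h : Function.Injective (sub (m := m) g) then extF (sub g) h else AlgHom.id K _

/-- `h(x) ↦ (σ_g h)(g x)` -/
noncomputable def Th (g : GL (Fin n) K) :
    MvPolynomial (Fin n) (LL K n m) →+* MvPolynomial (Fin n) (LL K n m) :=
  (sbs (g.1.map (algebraMap K (LL K n m)))).toRingHom.comp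
    (MvPolynomial.map (sg (m := m) g).toRingHom)

variable (K n m)

/-- the general `n`-tuple of forms of degree `m + 1`, over the ring of polynomials -/
noncomputable def genS : Fin n → MvPolynomial (Fin n) (SS K n m) := form X

/-- the general `n`-tuple of forms of degree `m + 1`, over the field of rational functions -/
noncomputable def gen : Fin n → MvPolynomial (Fin n) (LL K n m) :=
  form (fun p => algebraMap (SS K n m) (LL K n m) (X p))

/-- its divergence, a form of degree `m` -/
noncomputable def Fh : MvPolynomial (Fin n) (LL K n m) := divg (gen K n m)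

/-- its divergence free part -/
noncomputable def f0 : Fin n → MvPolynomial (Fin n) (LL K n m) := tf K m (gen K n m)

/-- the Jacobian matrix of the divergence free part -/
noncomputable def JJ : Matrix (Fin n) (Fin n) (MvPolynomial (Fin n) (LL K n m)) :=
  jac (f0 K n m)

/-- the field generated by the coefficients of the divergence free part -/
noncomputable def L0 : IntermediateField K (LL K n m) :=
  IntermediateField.adjoin K {a | ∃ i α, a = coeff α (f0 K n m i)}

/-- the invariant rational functions -/
noncomputable def E : IntermediateField K (LL K n m) where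
  carrier := {F | ∀ g : GL (Fin n) K, sg g F = F}
  mul_mem' := by intro a b ha hb g; rw [map_mul, ha, hb]
  add_mem' := by intro a b ha hb g; rw [map_add, ha, hb]
  algebraMap_mem' := by intro c g; rw [AlgHom.commutes]
  inv_mem' := by intro a ha g; rw [map_inv₀, ha]

variable {K n m}

/-- An intermediate field `F` of `L / K` is rational: it is isomorphic over `K` to a field
`K(x_1, …, x_r)` of rational functions. -/
def IsRational {K L : Type*} [Field K] [Field L] [Algebra K L] (F : IntermediateField K L) : Prop :=
  ∃ r : ℕ, Nonempty (F ≃ₐ[K] FractionRing (MvPolynomial (Fin r) K))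

/-- the coefficients of the tuple `x ↦ B (x_1^(m+1), …, x_n^(m+1))` -/
noncomputable def pt (m : ℕ) (B : Matrix (Fin n) (Fin n) K) : Idx n (m + 1) → K := fun p =>
  ∑ j, if p.2.1 = Finsupp.single j (m + 1) then B p.1 j else 0

/-- the exponent `(m, …, m)` -/
noncomputable def allm (n m : ℕ) : Fin n →₀ ℕ := Finsupp.equivFunOnFinite.symm fun _ => m

/-- the products of the components of `u` with the forms of degree `n m - (m + 1)` -/
noncomputable def idl {L : Type*} [Field L] (m : ℕ) (u : Fin n → MvPolynomial (Fin n) L) :
    Submodule L (MvPolynomial (Fin n) L) :=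
  Submodule.span L {q | ∃ i h, h.IsHomogeneous (n * m - (m + 1)) ∧ q = h * u i}

/-- `A` is an equivariant matrix with entries in `L0` -/
def EqM (A : Matrix (Fin n) (Fin n) (LL K n m)) : Prop :=
  (∀ i j, A i j ∈ L0 K n m) ∧
  ∀ g : GL (Fin n) K, A.map (sg g) =
    g.1.map (algebraMap K (LL K n m)) * A * (g⁻¹).1.map (algebraMap K (LL K n m))

/-- `P` is an equivariant form of degree `j`, of weight `c`, with coefficients in `L0` -/
def EqF (j : ℕ) (c : ℤ) (P : MvPolynomial (Fin n) (LL K n m)) : Prop :=
  P.IsHomogeneous j ∧ (∀ α, coeff α P ∈ L0 K n m) ∧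
  ∀ g : GL (Fin n) K, Th g P = C (algebraMap K (LL K n m) (g.1.det ^ c)) * P

/-- `M` is a frame: an invertible matrix over `L0` on which `g` acts by multiplication, the
column `j` being multiplied with `det g ^ a j` as well. -/
def Frame (a : Fin n → ℤ) (M : Matrix (Fin n) (Fin n) (LL K n m)) : Prop :=
  M.det ≠ 0 ∧ (∀ i j, M i j ∈ L0 K n m) ∧
  ∀ g : GL (Fin n) K, ∀ i j, sg g (M i j) =
    algebraMap K (LL K n m) (g.1.det ^ a j) * ∑ k, algebraMap K (LL K n m) (g.1 i k) * M k j

/-- coefficient of `∏_{j ≠ c} y_j` in `tr ((B diag y)^(n-1))` -/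
noncomputable def hh {A : Type*} [CommRing A] (B : Matrix (Fin n) (Fin n) A) (c : Fin n) : A :=
  coeff (allm n 1 - Finsupp.single c 1)
    (Matrix.trace ((B.map C * Matrix.diagonal (fun j => (X j : MvPolynomial (Fin n) A))) ^ (n - 1)))

/-- `Σ_l B_{kl} h_l B_{lk}` -/
noncomputable def aa {A : Type*} [CommRing A] (B : Matrix (Fin n) (Fin n) A) (k : Fin n) : A :=
  ∑ l, B k l * hh B l * B l k

end action

end Pool.Agent.T2h8.RM
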