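import Mathlib
import Pool.Agent.T2h8.RM.Defs

/-!
# MP_82c165_ag: the moduli space of self maps of `P^(n-1)` of degree `m + 1` is rational if
`n ≥ 4`, `m ≥ 3` and `gcd (n, m) = 1`

Notation. `S = SS K n m = K[coefficients]`, `L = LL K n m` its field of fractions, `gen` the general
tuple of forms, `f0` its divergence free part, `Fh` its divergence, `JJ` the Jacobian matrix of
`f0`, `L0` the field generated by the coefficients of `f0`, `E` the field of invariants,
`Th g h = (σ_g h)(g x)`.

Plan. (1) For the general `f0` the quotient `L[x]/(f0_1, …, f0_n)` has socle in degree `n m`, spanned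
by `det JJ`; let `lam` be the functional on forms of degree `n m` which kills the ideal and with
`lam (det JJ) = 1`; it is canonical, hence equivariant. (2) `A1 = lam (tr (JJ^(n-1)) JJ)` and
`A2 = lam (tr (A1 JJ)^(n-1) JJ)` are equivariant matrices; at the points `x ↦ B (x_j^(m+1))_j` they
are `B diag (hh B)` and `B diag (∏_{k ≠ b} aa B k)` up to constants, so they generate all matrices.
(3) So the equivariant forms of a given degree and weight span all forms if there is one; there is
one in degree `m` (weight 0) and one in degree `n (m - 1)` (weight `-1`, a Jacobian); Bezout gives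
two consecutive degrees, hence an equivariant covector, hence a frame. (4) So `L0 = E0(x_ij)`,
`E = E0(t_α)` with `E0 = E ∩ L0`, `x` the `n^2` entries of the frame, `t` the coefficients of `Fh`
in the frame, and the number of the `t` is at least `n^2`; as `L0` is rational so is `E`.
-/

set_option autoImplicit false

open MvPolynomial

namespace Pool.Agent.T2h8.RM

/-! ## A. The action -/

/-- `sub g` is injective. Proof: for `c : Idx → K`, `eval c (sub g P) = eval (act g c) P` (induction on
`P`; `act g c` is linear in `c`, its coefficients are those of `act g X`). `form (act g c) i =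
∑ j, C (g i j) * sbs g⁻¹ (form c j)` (both sides are homogeneous of degree `m + 1` with the same
coefficients, the coefficient of `form c i` at `α : Mon` is `c (i, α)`), and `sbs g (sbs g⁻¹ P) = P`,
so `act g (act g⁻¹ c) = c`. If `sub g P = 0` then `P` vanishes at all points, so `P = 0`
(`MvPolynomial.funext`, `K` is infinite). -/
def S_inj : Prop := ∀ (K : Type) [Field K] [CharZero K] (n m : ℕ) (g : GL (Fin n) K),
  Function.Injective (sub (m := m) g)

/-- (needs `S_inj`) `sg g` extends `sub g`, and `Th g (gen i) = ∑ j, C (g i j) * gen j`.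
Proof of the second: `map (sg g) (gen i)` has the coefficients `algebraMap (act g X (i, α))`, hence is
`∑ j, C (g i j) * sbs g⁻¹ (gen j)` (homogeneous of degree `m+1`, same coefficients); apply `sbs g`. -/
def S_gen : Prop := ∀ (K : Type) [Field K] [CharZero K] (n m : ℕ) (g : GL (Fin n) K),
  (∀ P : SS K n m, sg g (algebraMap (SS K n m) (LL K n m) P) = algebraMap _ _ (sub g P)) ∧
  ∀ i, Th g (gen K n m i) = ∑ j, C (algebraMap K (LL K n m) (g.1 i j)) * gen K n m j

/-- chain rule: `∂_l (Th g P) = ∑_i g_il Th g (∂_i P)`, and `Th g (C a)`, `Th g (X i)`. No need of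
other statements. Proof: derivative of a composition with a linear substitution (induction on the
polynomial: `C`, `+`, `* X i`); `pderiv` commutes with `map`. -/
def S_chain : Prop := ∀ (K : Type) [Field K] [CharZero K] (n m : ℕ) (g : GL (Fin n) K),
  (∀ (P : MvPolynomial (Fin n) (LL K n m)) (l : Fin n),
    pderiv l (Th g P) = ∑ i, C (algebraMap K (LL K n m) (g.1 i l)) * Th g (pderiv i P)) ∧
  (∀ a : LL K n m, Th g (C a) = C (sg g a)) ∧
  (∀ i, Th g (X i : MvPolynomial (Fin n) (LL K n m)) =
    ∑ j, C (algebraMap K (LL K n m) (g.1 i j)) * X j) ∧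
  ∀ (P : MvPolynomial (Fin n) (LL K n m)) (d : ℕ), P.IsHomogeneous d → (Th g P).IsHomogeneous d

/-- (needs `S_gen`, `S_chain`) The divergence `Fh` is invariant, `f0` is equivariant and divergence
free, its Jacobian matrix is equivariant, `L0` is stable. Proof: `∂_l (Th g (gen i)) = ∑_k g_ik ∂_l
gen_k = ∑_j g_jl Th g (∂_j gen_i)`, i.e. `Th(Jac gen) g = g Jac gen`, so `Th(Jac gen) = g Jac gen g⁻¹`,
take traces; `Th g (X i)` by `S_chain`; then the same for `f0`. Euler: `∑_i X_i ∂_i Fh = m Fh`, so
`divg (Fh x) = (m + n) Fh`. `L0` stable: the coefficients of `map (sg g) (f0 i)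
= ∑_j g_ij (f0 j)(g⁻¹ x)` are in `L0`. -/
def S_f0 : Prop := ∀ (K : Type) [Field K] [CharZero K] (n m : ℕ), 1 ≤ n →
  (∀ i, (f0 K n m i).IsHomogeneous (m + 1)) ∧ (Fh K n m).IsHomogeneous m ∧
  divg (f0 K n m) = 0 ∧
  ∀ g : GL (Fin n) K,
    (∀ i, Th g (f0 K n m i) = ∑ j, C (algebraMap K (LL K n m) (g.1 i j)) * f0 K n m j) ∧
    Th g (Fh K n m) = Fh K n m ∧
    (JJ K n m).map (Th g) =
      g.1.map (fun a => C (algebraMap K (LL K n m) a)) * JJ K n m *
        (g⁻¹).1.map (fun a => C (algebraMap K (LL K n m) a)) ∧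
    (∀ a ∈ L0 K n m, sg g a ∈ L0 K n m)

/-! ## B. Specialisation -/

/-- Specialisation of linear independence, for tuples of polynomials whose coefficients are
polynomials in parameters. Proof: all coefficients in question are in a finite set `κ` of pairs
(index `b`, monomial). The `K`-matrix `V(p) : κ × r` of the coefficients has independent columns, so
there is a `K`-matrix `W` with `W V(p) = 1`; `det (W V)` is a polynomial in the parameters with value
`1` at `p`, so it is nonzero in the field of fractions, hence the columns of `V` are independent. -/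
def S_spec : Prop := ∀ (K : Type) [Field K] (ι : Type) (n r q : ℕ)
  (P : Fin r → Fin q → MvPolynomial (Fin n) (MvPolynomial ι K)) (p : ι → K),
  LinearIndependent K (fun a => fun b => map (eval p) (P a b)) →
  LinearIndependent (FractionRing (MvPolynomial ι K))
    (fun a => fun b => map (algebraMap (MvPolynomial ι K) (FractionRing (MvPolynomial ι K))) (P a b))

/-- Two matrices of polynomials which generate the matrix algebra at one point generate it over the
field of fractions. Proof: at `p` some `n^2` words in the two matrices are a basis of `M_n(K)`; the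
determinant of the `n^2 × n^2` matrix of the entries of these words is a polynomial which is nonzero at
`p`, so these words are a basis of `M_n` over the field of fractions. -/
def S_genL : Prop := ∀ (K : Type) [Field K] (ι : Type) (n : ℕ)
  (P Q : Matrix (Fin n) (Fin n) (MvPolynomial ι K)) (p : ι → K),
  Algebra.adjoin K {P.map (eval p), Q.map (eval p)} = ⊤ →
  Algebra.adjoin (FractionRing (MvPolynomial ι K))
    {P.map (algebraMap _ (FractionRing (MvPolynomial ι K))),
      Q.map (algebraMap _ (FractionRing (MvPolynomial ι K)))} = ⊤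

/-- The special tuples. (`pt m B` are the coefficients of `x ↦ B (x_j^(m+1))_j`.) -/
def S_pt : Prop := ∀ (K : Type) [Field K] [CharZero K] (n m : ℕ) (B : Matrix (Fin n) (Fin n) K),
  (∀ i, form (pt m B) i = ∑ j, C (B i j) * X j ^ (m + 1)) ∧
  (∀ i j, jac (form (pt m B)) i j = C ((m + 1 : K) * B i j) * X j ^ m) ∧
  (jac (form (pt m B))).det = monomial (allm n m) ((m + 1 : K) ^ n * B.det) ∧
  ((∀ i, B i i = 0) → ∀ i, map (eval (pt m B)) (tf K m (genS K n m) i) = form (pt m B) i) ∧
  (∀ i, map (algebraMap (SS K n m) (LL K n m)) (tf K m (genS K n m) i) = f0 K n m i)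

/-- Syzygies of `f_i = ∑_j B_ij x_j^(m+1)`, `B` invertible, are the Koszul ones. Proof: replacing `h`
by `B^T h` (and `k` by `B^T k B`) we may take `B = 1`. Then look at each monomial `x^γ` of degree
`e + m + 1`: with `c_i` the coefficient of `x^γ / x_i^(m+1)` in `h_i`, for `i` in the set `T` of the
`i` with `γ_i ≥ m+1`, we have `∑_{i ∈ T} c_i = 0`, so the vector `c` is a combination of the
differences `e_i - e_j`, `i, j ∈ T`, each of which comes from the Koszul syzygy with coefficient
`x^γ / (x_i x_j)^(m+1)` (for instance fix `i0 ∈ T` and use the pairs `(i, i0)`). -/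
def S_syz : Prop := ∀ (K : Type) [Field K] [CharZero K] (n m e : ℕ)
  (B : Matrix (Fin n) (Fin n) K), B.det ≠ 0 →
  ∀ h : Fin n → MvPolynomial (Fin n) K, (∀ i, (h i).IsHomogeneous e) →
  ∑ i, h i * form (pt m B) i = 0 →
  ∃ k : Fin n → Fin n → MvPolynomial (Fin n) K, (∀ i j, k i j = - k j i) ∧
    (∀ i j, (k i j).IsHomogeneous (e - (m + 1))) ∧ ∀ i, h i = ∑ j, k i j * form (pt m B) j

/-- Forms of degree `n m` modulo the ideal of `f_i = ∑_j B_ij x_j^(m+1)`. Proof: a monomial of degree
`n m` other than `∏ x_j^m` is divisible by some `x_j^(m+1) = ∑_i (B⁻¹)_ji f_i`; and no monomial of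
`h f_i` is `∏ x_j^m`. -/
def S_dec : Prop := ∀ (K : Type) [Field K] [CharZero K] (n m : ℕ), 2 ≤ n → 1 ≤ m →
  ∀ B : Matrix (Fin n) (Fin n) K, B.det ≠ 0 →
  (∀ q : MvPolynomial (Fin n) K, q.IsHomogeneous (n * m) →
    ∃ h : Fin n → MvPolynomial (Fin n) K, (∀ i, (h i).IsHomogeneous (n * m - (m + 1))) ∧
      q = ∑ i, h i * form (pt m B) i + monomial (allm n m) (coeff (allm n m) q)) ∧
  ∀ (h : MvPolynomial (Fin n) K) (i : Fin n), coeff (allm n m) (h * form (pt m B) i) = 0

/-! ## C. The socle functional -/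

/-- (needs `S_spec`, `S_pt`, `S_syz`, `S_dec`) The ideal of `f0` does not contain all forms of degree
`n m`. Proof: let `B` be invertible with zero diagonal (a cyclic permutation matrix), `f_B` the tuple,
`e = n m - (m+1)`, `R_e` the forms of degree `e`, `N = #Mon n (n m)`. Over `K` the map `μ_B : (R_e)^n →
R_{nm}`, `h ↦ ∑ h_i f_B,i` has rank `N - 1` (`S_dec`), and its kernel, of dimension
`r = n dim R_e - (N - 1)`, has a basis `h^(a) = ∑_j k^(a)_ij f_B,j` with antisymmetric `k^(a)` (`S_syz`).
By `S_spec` the tuples `∑_j k^(a)_ij f0_j` are linearly independent over `L`, and they are in the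
kernel of `μ : h ↦ ∑ h_i f0_i`. So the rank of `μ` over `L` is at most `n dim R_e - r = N - 1`. Its
range is `idl m f0`. -/
def S_rank : Prop := ∀ (K : Type) [Field K] [CharZero K] (n m : ℕ), 3 ≤ n → 3 ≤ m →
  Module.Finite (LL K n m) (idl m (f0 K n m)) ∧
  Module.finrank (LL K n m) (idl m (f0 K n m)) + 1 ≤ Fintype.card (Mon n (n * m))

/-- `lam` is the socle functional -/
def IsLam {K : Type} [Field K] {n m : ℕ}
    (lam : MvPolynomial (Fin n) (LL K n m) →ₗ[LL K n m] LL K n m) : Prop :=
  (∀ q, q.IsHomogeneous (n * m) → q - C (lam q) * (JJ K n m).det ∈ idl m (f0 K n m)) ∧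
  (∀ q ∈ idl m (f0 K n m), lam q = 0) ∧ lam (JJ K n m).det = 1 ∧
  (∀ q, q.IsHomogeneous (n * m) → (∀ α, coeff α q ∈ L0 K n m) → lam q ∈ L0 K n m)

/-- specialisation of the socle functional at the tuple of `B` -/
def SpLam {K : Type} [Field K] {n m : ℕ}
    (lam : MvPolynomial (Fin n) (LL K n m) →ₗ[LL K n m] LL K n m)
    (B : Matrix (Fin n) (Fin n) K) : Prop :=
  ∃ (lam' : MvPolynomial (Fin n) (SS K n m) →ₗ[SS K n m] SS K n m) (Δ : SS K n m) (c : K),
    eval (pt m B) Δ ≠ 0 ∧ c ≠ 0 ∧ ∀ q : MvPolynomial (Fin n) (SS K n m), q.IsHomogeneous (n * m) →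
      algebraMap (SS K n m) (LL K n m) (lam' q) =
        algebraMap (SS K n m) (LL K n m) Δ * lam (map (algebraMap (SS K n m) (LL K n m)) q) ∧
      eval (pt m B) (lam' q) = c * coeff (allm n m) (map (eval (pt m B)) q)

/-- (needs `S_rank`, `S_spec`, `S_pt`, `S_dec`) The socle functional exists. Proof: for `B` invertible
with zero diagonal choose forms `h_a` and indices `i_a`, `a < N - 1`, such that the `h_a f_{B,i_a}` are a
basis of the span of all `h f_{B,i}` (of dimension `N - 1` by `S_dec`); with `det Jac f_B` (a nonzero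
multiple of `∏ x_j^m`, `S_pt`) they are a basis of the forms of degree `n m` over `K`. By `S_spec` the
`h_a f0_{i_a}` and `det JJ` are linearly independent over `L`, so a basis of the forms of degree `n m`
over `L`, and by `S_rank` the first `N - 1` are a basis of `idl m f0`. `lam` = the last coordinate
(extended by zero on the other homogeneous components, `homogeneousComponent`). `lam q ∈ L0` by
Cramer's rule, as all vectors involved have coefficients in `L0`. `SpLam` for a given `B`: do the same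
for this `B`; let `M` be the matrix over `S` of the coefficients of the `h_a (tf genS)_{i_a}` and of
`det Jac (tf genS)`, `Δ = det M`, `lam' q` = the determinant of `M` with the last column replaced by the
coefficients of `q`; `c = Δ(pt B) / ((m+1)^n det B)`. (`lam` is characterised by the first three
properties in `IsLam`, so it does not depend on `B`.) -/
def S_lam : Prop := ∀ (K : Type) [Field K] [CharZero K] (n m : ℕ), 3 ≤ n → 3 ≤ m →
  ∃ lam : MvPolynomial (Fin n) (LL K n m) →ₗ[LL K n m] LL K n m, IsLam lam ∧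
    ∀ B : Matrix (Fin n) (Fin n) K, (∀ i, B i i = 0) → B.det ≠ 0 → SpLam lam B

/-- (needs `S_f0`, `S_chain`) The socle functional is equivariant. Proof: write `q = w + C c * det JJ`
with `w` in the ideal, `c = lam q`. `Th g` maps the ideal to itself (`S_f0`; a form `h f0_i` goes to
`Th g h * ∑ g_ij f0_j`), and `Th g (det JJ) = det JJ`, so `Th g q = w' + C (sg g c) * det JJ`. -/
def S_lamE : Prop := ∀ (K : Type) [Field K] [CharZero K] (n m : ℕ), 3 ≤ n → 3 ≤ m →
  ∀ lam : MvPolynomial (Fin n) (LL K n m) →ₗ[LL K n m] LL K n m, IsLam lam →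
  ∀ (g : GL (Fin n) K) (q : MvPolynomial (Fin n) (LL K n m)), q.IsHomogeneous (n * m) →
    lam (Th g q) = sg g (lam q)

/-! ## D. Equivariant matrices -/

/-- `lam (tr (JJ^(n-1)) JJ)` -/
noncomputable def A1 {K : Type} [Field K] {n m : ℕ}
    (lam : MvPolynomial (Fin n) (LL K n m) →ₗ[LL K n m] LL K n m) :
    Matrix (Fin n) (Fin n) (LL K n m) :=
  Matrix.of fun a b => lam (Matrix.trace (JJ K n m ^ (n - 1)) * JJ K n m a b)

/-- `lam (tr (A1 JJ)^(n-1) JJ)` -/
noncomputable def A2 {K : Type} [Field K] {n m : ℕ}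
    (lam : MvPolynomial (Fin n) (LL K n m) →ₗ[LL K n m] LL K n m) :
    Matrix (Fin n) (Fin n) (LL K n m) :=
  Matrix.of fun a b => lam (Matrix.trace ((A1 lam).map C * JJ K n m) ^ (n - 1) * JJ K n m a b)

/-- (needs `S_f0`, `S_chain`, `S_lamE`) `A1` and `A2` are equivariant. Proof: the entries of `JJ` are
forms of degree `m` with coefficients in `L0`; `Th g (tr (JJ^(n-1))) = tr (JJ^(n-1))`, and
`∑ g_ac lam(..) (g⁻¹)_db` by linearity of `lam` over `L`. -/
def S_AE : Prop := ∀ (K : Type) [Field K] [CharZero K] (n m : ℕ), 3 ≤ n → 3 ≤ m →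
  ∀ lam : MvPolynomial (Fin n) (LL K n m) →ₗ[LL K n m] LL K n m, IsLam lam →
    EqM (A1 lam) ∧ EqM (A2 lam)

/-- (needs `S_pt`) The specialisation of `A1`, `A2` at the tuple of `B`. Proof: let `JS = jac (tf genS)`
over `S`, `P a b = lam' (tr (JS^(n-1)) * JS a b)`, `δ = Δ`, `Q a b = lam' (tr (P JS)^(n-1) * JS a b)`,
`ε = Δ^n`. At `pt m B`: `Jac f_B = (m+1) B diag (x_j^m)`, i.e. the image of `(m+1) B diag (y)` under
`y_j ↦ x_j^m` (`MvPolynomial.expand m`), and the coefficient of `∏ x_j^m` is the coefficient of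
`∏ y_j` before this substitution. `tr ((B diag y)^(n-1)) B_ab y_b` has the coefficient `B_ab hh B b`.
`tr (P JS)` becomes `const * ∑_k (aa B k) y_k`, and the coefficient of `∏_{k ≠ b} y_k` in the
`(n-1)`-st power of this is `const * (n-1)! ∏_{k ≠ b} aa B k`. -/
def S_AS : Prop := ∀ (K : Type) [Field K] [CharZero K] (n m : ℕ), 3 ≤ n → 3 ≤ m →
  ∀ lam : MvPolynomial (Fin n) (LL K n m) →ₗ[LL K n m] LL K n m,
  ∀ B : Matrix (Fin n) (Fin n) K, (∀ i, B i i = 0) → B.det ≠ 0 → SpLam lam B →
  ∃ (P Q : Matrix (Fin n) (Fin n) (SS K n m)) (δ ε : SS K n m) (c c' : K),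
    δ ≠ 0 ∧ ε ≠ 0 ∧ c ≠ 0 ∧ c' ≠ 0 ∧
    P.map (algebraMap (SS K n m) (LL K n m)) = algebraMap (SS K n m) (LL K n m) δ • A1 lam ∧
    Q.map (algebraMap (SS K n m) (LL K n m)) = algebraMap (SS K n m) (LL K n m) ε • A2 lam ∧
    P.map (eval (pt m B)) = c • (B * Matrix.diagonal (hh B)) ∧
    Q.map (eval (pt m B)) =
      c' • (B * Matrix.diagonal (fun b => ∏ k ∈ Finset.univ.erase b, aa B k))

/-- The number `hh B c` as a sum over cycles. Proof: `tr ((B Y)^k) = ∑_{s : Fin k → Fin n} ∏_i
B_{s i, s (i+1)} y_{s (i+1)}` (cyclically), and the monomial is `∏_{j ≠ c} y_j` iff `s` is a bijection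
to the complement of `c`, i.e. injective (`k = n - 1`) and avoiding `c`. -/
def S_cyc : Prop := ∀ (A : Type) [CommRing A] (n : ℕ), 2 ≤ n →
  ∀ (B : Matrix (Fin n) (Fin n) A) (c : Fin n),
  hh B c = ∑ s : Fin (n - 1) → Fin n, if Function.Injective s ∧ ∀ i, s i ≠ c then
    ∏ i, B (s i) (s (finRotate (n - 1) i)) else 0

/-- (needs `S_cyc`) For each pair `c ≠ c'` there is `B` with zero diagonal and
`aa B c * hh B c ≠ aa B c' * hh B c'`. Proof: number the elements as `1, …, n` with `c = 1`, `c' = 2`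
and let `B` be the `0-1`-matrix with the ones at the places `(1,2), (1,3), (2,3), (3,2), (2,4), (3,4),
(4,5), (5,6), …, (n-1,n), (n,1)`. The only `1` in row `n` is in column `1`, so there is no cycle
through `n` which avoids `1`: `hh B 1 = 0`. All terms in `hh`, `aa` are nonnegative (cast from `ℕ`),
`hh B 2 > 0` from the cycle `1 3 4 … n`, `hh B 3 > 0` from the cycle `1 2 4 … n`, and
`aa B 2 ≥ B_23 (hh B 3) B_32 > 0`. So the product is `0` for `1` and is nonzero for `2`. -/
def S_exB : Prop := ∀ (K : Type) [Field K] [CharZero K] (n : ℕ), 4 ≤ n → ∀ c c' : Fin n, c ≠ c' →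
  ∃ B : Matrix (Fin n) (Fin n) K, (∀ i, B i i = 0) ∧ aa B c * hh B c ≠ aa B c' * hh B c'

/-- (needs `S_cyc`, `S_exB`) A good matrix exists. Proof: all conditions are of the form: a polynomial
in the `B_ij`, `i ≠ j`, is nonzero; each of these polynomials is nonzero at some point: `det B` at a
cyclic permutation matrix; `hh B c`, `aa B c` at the matrix with all off-diagonal entries `1` (sums of
natural numbers, some positive); the differences by `S_exB`. So their product is a nonzero polynomial,
and `K` is infinite. (`hh`, `aa`, `det` commute with ring homomorphisms.) -/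
def S_goodB : Prop := ∀ (K : Type) [Field K] [CharZero K] (n : ℕ), 4 ≤ n →
  ∃ B : Matrix (Fin n) (Fin n) K, (∀ i, B i i = 0) ∧ B.det ≠ 0 ∧ (∀ i j, i ≠ j → B i j ≠ 0) ∧
    (∀ c, hh B c ≠ 0) ∧ (∀ c, aa B c ≠ 0) ∧ Function.Injective (fun c => aa B c * hh B c)

/-- Proof: `X = c B diag u` is invertible, `X⁻¹ ∈ K[X]`, so `X⁻¹ Y = (c'/c) diag (v/u)` is in the
algebra, it has distinct entries, so all `E_ii` are in it (Lagrange), and `E_ii X E_jj = c B_ij u_j
E_ij`. -/
def S_genK : Prop := ∀ (K : Type) [Field K] (n : ℕ) (B : Matrix (Fin n) (Fin n) K)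
  (u v : Fin n → K) (c c' : K), B.det ≠ 0 → (∀ i j, i ≠ j → B i j ≠ 0) → (∀ i, u i ≠ 0) →
  c ≠ 0 → c' ≠ 0 → Function.Injective (fun i => v i / u i) →
  Algebra.adjoin K {c • (B * Matrix.diagonal u), c' • (B * Matrix.diagonal v)} = ⊤

/-- the equivariant matrices span all matrices -/
def SpanAt (K : Type) [Field K] (n m : ℕ) : Prop :=
  Submodule.span (LL K n m) {A : Matrix (Fin n) (Fin n) (LL K n m) | EqM A} = ⊤

/-- (needs `S_lam`, `S_AE`, `S_AS`, `S_goodB`, `S_genK`, `S_genL`) The equivariant matrices span all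
matrices over `L`. Proof: the set of the equivariant matrices is closed under products and contains
`1`, so its span is a subalgebra; it contains `A1`, `A2`, hence their nonzero multiples `P`, `Q` over
`L`, which generate everything by `S_genL` and `S_genK` with `u = hh B`, `v b = ∏_{k ≠ b} aa B k`. -/
def S_span : Prop := ∀ (K : Type) [Field K] [CharZero K] (n m : ℕ), 4 ≤ n → 3 ≤ m →
  SpanAt K n m

/-! ## E. Equivariant forms and the frame -/

/-- A space of polynomials which is closed under the operators `x_k ∂_i` and contains a nonzero form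
of degree `j` contains all forms of degree `j` (characteristic zero). Proof: fix the variable `x_0`.
Among the monomials `α` of `P` take one with `∑_{i ≠ 0} α_i` maximal and apply
`∏_{i ≠ 0} (x_0 ∂_i)^{α_i}`; all other monomials of `P` are killed (such a monomial would have exponents
`≥ α_i` for all `i ≠ 0`, hence equal ones), and we get a nonzero multiple of `x_0^j`. From `x_0^j` the
operators `(x_i ∂_0)^{β_i}` give all monomials. -/
def S_full : Prop := ∀ (L : Type) [Field L] [CharZero L] (n j : ℕ), 1 ≤ n →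
  ∀ (V : Submodule L (MvPolynomial (Fin n) L)) (P : MvPolynomial (Fin n) L), P.IsHomogeneous j →
  P ≠ 0 → P ∈ V → (∀ i k, ∀ Q ∈ V, X k * pderiv i Q ∈ V) →
  ∀ Q : MvPolynomial (Fin n) L, Q.IsHomogeneous j → Q ∈ V

/-- (needs `S_full`, `S_chain`) Proof: let `V` be the span. If `Q` is equivariant and `A` is
an equivariant matrix then `∑_{i,k} A_ik X_k ∂_i Q` is equivariant of the same degree and weight
(chain rule); as the equivariant matrices span all matrices, `V` is closed under `X_k ∂_i`. -/
def S_Ffull : Prop := ∀ (K : Type) [Field K] [CharZero K] (n m : ℕ), 3 ≤ n → 3 ≤ m → SpanAt K n m →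
  ∀ (j : ℕ) (c : ℤ) (P : MvPolynomial (Fin n) (LL K n m)), EqF j c P → P ≠ 0 →
  ∀ Q : MvPolynomial (Fin n) (LL K n m), Q.IsHomogeneous j →
    Q ∈ Submodule.span (LL K n m) {Q : MvPolynomial (Fin n) (LL K n m) | EqF j c Q}

/-- (needs `S_f0`, `S_lam`) A nonzero invariant form of degree `m`. Proof: `tr (A JJ)` for an
equivariant `A`; if it were zero for all these `A` then `JJ = 0`, but `lam (det JJ) = 1`. -/
def S_Fm : Prop := ∀ (K : Type) [Field K] [CharZero K] (n m : ℕ), 3 ≤ n → 3 ≤ m → SpanAt K n m →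
  ∃ P : MvPolynomial (Fin n) (LL K n m), EqF m 0 P ∧ P ≠ 0

/-- (needs `S_Fm`, `S_Ffull`, `S_chain`) A nonzero equivariant form of degree `n (m-1)` and weight `-1`.
Proof: `det (∂_j Ψ_i)` for invariant forms `Ψ_1, …, Ψ_n` of degree `m`: by the chain rule
`jac Ψ = Th(jac Ψ) * g`. It is nonzero for some choice: it is multilinear in `Ψ`, the invariant forms
span all forms of degree `m`, and for `Ψ_i = x_i^m` it is nonzero. -/
def S_Fj : Prop := ∀ (K : Type) [Field K] [CharZero K] (n m : ℕ), 3 ≤ n → 3 ≤ m → SpanAt K n m →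
  ∃ P : MvPolynomial (Fin n) (LL K n m), EqF (n * (m - 1)) (-1) P ∧ P ≠ 0

/-- Bezout: `gcd (m, n (m-1)) = 1`. -/
def S_bez : Prop := ∀ n m : ℕ, 3 ≤ n → 3 ≤ m → Nat.Coprime n m →
  ∃ u v : ℕ, u * m + 1 = v * (n * (m - 1))

/-- (needs `S_bez`, `S_Fm`, `S_Fj`, `S_Ffull`, `S_chain`) An equivariant covector. Proof: let
`j = u m`, `P^u` (weight 0) and `Q = (P')^v` of degree `j + 1`, weight `-v`, from `S_Fm`, `S_Fj`. By
`S_Ffull` there is a basis `Ψ_a` of the forms of degree `j` consisting of equivariant forms of weight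
`0`. Write `∂_i Q = ∑_a c_ai Ψ_a`; some `c_ai ≠ 0`; put `ℓ_i = c_ai` for this `a`. `c_ai ∈ L0`
(Cramer). By the chain rule `∑_i g_il Th g (∂_i Q) = det^(-v) ∂_l Q`, and comparing coefficients
`∑_i g_il sg g (c_ai) = det^(-v) c_al`. Take the integer `a = v`; `1 + n v = m (v n - u)`. -/
def S_cov : Prop := ∀ (K : Type) [Field K] [CharZero K] (n m : ℕ), 3 ≤ n → 3 ≤ m →
  Nat.Coprime n m → SpanAt K n m → ∃ a : ℤ, (m : ℤ) ∣ 1 + n * a ∧ ∃ ℓ : Fin n → LL K n m, ℓ ≠ 0 ∧
    (∀ i, ℓ i ∈ L0 K n m) ∧ ∀ (g : GL (Fin n) K) (l : Fin n),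
      sg g (ℓ l) = algebraMap K (LL K n m) (g.1.det ^ (-a)) *
        ∑ i, ℓ i * algebraMap K (LL K n m) ((g⁻¹).1 i l)

/-- (needs `S_cov`) A frame. Proof: the rows `ℓ A`, `A` an equivariant matrix, span `L^n`;
choose `n` of them which are linearly independent and let `Λ` be the matrix with these rows, so
`sg g Λ = det^(-a) Λ g⁻¹`; take `M = Λ⁻¹`. -/
def S_frame : Prop := ∀ (K : Type) [Field K] [CharZero K] (n m : ℕ), 3 ≤ n → 3 ≤ m →
  Nat.Coprime n m → SpanAt K n m → ∃ a : ℤ, (m : ℤ) ∣ 1 + n * a ∧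
    ∃ M : Matrix (Fin n) (Fin n) (LL K n m), Frame (fun _ => a) M

/-- (needs `S_f0`, `S_chain`, `S_lam`) From a frame with equal weights `a`, `1 + n a = m s`: an element
of weight `m`. Proof: `D = det M` has weight `m s`. Let `φ_i(x) = ∑_j (M⁻¹)_ij (f0 j)(M x)`; as
`(map (sg g) (f0 j)) (x) = ∑_k g_jk (f0 k)(g⁻¹ x)`, all coefficients of `φ_i` have weight `a m`;
`f0 ≠ 0`, so there is a coefficient `e ≠ 0`. `s` and `a` are coprime: `α s + β a = 1`; take
`θ = D^α e^β`. -/
def S_theta : Prop := ∀ (K : Type) [Field K] [CharZero K] (n m : ℕ), 3 ≤ n → 3 ≤ m →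
  ∀ (a : ℤ) (M : Matrix (Fin n) (Fin n) (LL K n m)), (m : ℤ) ∣ 1 + n * a → Frame (fun _ => a) M →
  ∃ θ : LL K n m, θ ≠ 0 ∧ θ ∈ L0 K n m ∧
    ∀ g : GL (Fin n) K, sg g θ = algebraMap K (LL K n m) (g.1.det ^ m) * θ

/-- (needs `S_frame`, `S_theta`) A frame whose determinant has weight `m`. Proof: multiply the first
column of `M` by `θ^(1-s)`, `1 + n a = m s`. -/
def S_frame2 : Prop := ∀ (K : Type) [Field K] [CharZero K] (n m : ℕ), 3 ≤ n → 3 ≤ m →
  Nat.Coprime n m → SpanAt K n m → ∃ (a : Fin n → ℤ) (M : Matrix (Fin n) (Fin n) (LL K n m)), Frame a M ∧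
    1 + ∑ i, a i = m ∧ ∀ i j, (m : ℤ) ∣ a i - a j

/-! ## F. The fields -/

/-- (needs `S_f0`, `S_chain`) `L0` is generated by the invariants in it and the entries of the frame.
Proof: `φ_i(x) = ∑_j (M⁻¹)_ij (f0 j)(M x)`; the coefficient of `x^α`, `|α| = m + 1`, in `φ_i` has
weight `-a_i + ∑_j α_j a_j ≡ m a_i ≡ 0 (mod m)`, and `D = det M` has weight `1 + ∑ a_i = m`, so this
coefficient times a power of `D` is in `L0 ∩ E`. And `f0_i(x) = ∑_j M_ij φ_j(M⁻¹ x)`. -/
def S_gen0 : Prop := ∀ (K : Type) [Field K] [CharZero K] (n m : ℕ), 3 ≤ n → 3 ≤ m →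
  ∀ (a : Fin n → ℤ) (M : Matrix (Fin n) (Fin n) (LL K n m)), Frame a M → 1 + ∑ i, a i = m →
  (∀ i j, (m : ℤ) ∣ a i - a j) →
  L0 K n m ≤ IntermediateField.adjoin K ({z | z ∈ L0 K n m ∧ z ∈ E K n m} ∪ {z | ∃ i j, z = M i j})

/-- (needs `S_f0`, `S_chain`) The invariants from the divergence. Proof: `ψ(x) = Fh(M x)`, its
coefficients are linear combinations of those of `Fh` with coefficients in `L0`, and conversely by
`M⁻¹` (the matrices `W`, `W'`, up to powers of `D`); the coefficient of `x^α` in `ψ` has weight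
`∑_j α_j a_j ≡ 0 (mod m)`; `t α` = this coefficient times the right power of `D = det M`. -/
def S_t : Prop := ∀ (K : Type) [Field K] [CharZero K] (n m : ℕ), 3 ≤ n → 3 ≤ m →
  ∀ (a : Fin n → ℤ) (M : Matrix (Fin n) (Fin n) (LL K n m)), Frame a M → 1 + ∑ i, a i = m →
  (∀ i j, (m : ℤ) ∣ a i - a j) →
  ∃ (t : Mon n m → LL K n m) (W W' : Matrix (Mon n m) (Mon n m) (LL K n m)),
    (∀ α, t α ∈ E K n m) ∧ (∀ α β, W α β ∈ L0 K n m ∧ W' α β ∈ L0 K n m) ∧ W * W' = 1 ∧
    ∀ α, t α = ∑ β, W α β * coeff β.1 (Fh K n m)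

/-- `L0` is purely transcendental over `K`, and the coefficients of `Fh` are algebraically independent
over `L0` and generate `L` over it. Proof: linear algebra in the space `V` of the linear forms in the
coefficients. Let `U0` be the span of the coefficients of `f0` and `U1` the span of the coefficients
`w_α` of `Fh`. `V = U0 + U1` as `gen_i = f0_i + (m+n)⁻¹ Fh x_i`. If `∑ c_α w_α ∈ U0`, evaluate at the
tuple `x^β x` (coefficients of `(x^β x_i)_i`, `|β| = m`), at which the elements of `U0` vanish and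
`w_α` is `(m+n) [α = β]`: `c_β = 0`. So with a basis `u` of `U0` the family `u, w` is a basis of `V`;
the polynomial ring on a basis of `V` is `S`. -/
def S_dec0 : Prop := ∀ (K : Type) [Field K] [CharZero K] (n m : ℕ), 1 ≤ n →
  (∃ (r : ℕ) (u : Fin r → LL K n m), AlgebraicIndependent K u ∧
    L0 K n m = IntermediateField.adjoin K (Set.range u)) ∧
  AlgebraicIndependent (L0 K n m) (fun α : Mon n m => coeff α.1 (Fh K n m)) ∧
  IntermediateField.adjoin (L0 K n m) (Set.range (fun α : Mon n m => coeff α.1 (Fh K n m))) = ⊤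

/-- Invertible linear substitution of algebraically independent generators. -/
def S_subst : Prop := ∀ (F L : Type) [Field F] [Field L] [Algebra F L] (τ : Type) [Fintype τ]
  [DecidableEq τ] (w t : τ → L) (W W' : Matrix τ τ F), W * W' = 1 → AlgebraicIndependent F w →
  IntermediateField.adjoin F (Set.range w) = ⊤ →
  (∀ i, t i = ∑ j, algebraMap F L (W i j) * w j) →
  AlgebraicIndependent F t ∧ IntermediateField.adjoin F (Set.range t) = ⊤

/-- (needs `S_f0`) The entries of the frame are algebraically independent over `E0 = L0 ∩ E`. Proof: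
let `P` be a polynomial over `E0` with `P (M) = 0`. Apply `sg g`: `P (g M diag (det g^{a_j})) = 0` for
all `g ∈ GL_n(K)`. `K` is infinite, so this holds for all `g ∈ GL_n(Ω)`, `Ω` an algebraic closure of
`L` (the left side is a polynomial in the `g_ij` divided by a power of `det g`). For `h ∈ GL_n(Ω)`
choose `δ` with `δ^m = det h / det M` and put `g = h diag (δ^{-a_j}) M⁻¹`: `det g = δ` as
`1 + ∑ a = m`, and `g M diag (det g^{a_j}) = h`. So `P` vanishes on `GL_n(Ω)`, `P = 0`. -/
def S_x : Prop := ∀ (K : Type) [Field K] [CharZero K] (n m : ℕ), 3 ≤ n → 3 ≤ m →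
  ∀ (a : Fin n → ℤ) (M : Matrix (Fin n) (Fin n) (LL K n m)), Frame a M → 1 + ∑ i, a i = m →
  AlgebraicIndependent (L0 K n m ⊓ E K n m : IntermediateField K (LL K n m))
    (fun p : Fin n × Fin n => M p.1 p.2)

/-- Fixed field of a field of rational functions whose variables are fixed. Proof: let `F = P(t)/Q(t)`
be fixed by `Γ`, with `P`, `Q` coprime polynomials over `L0` and some coefficient of `Q` equal to `1`.
For `γ ∈ Γ` we get `P^γ Q = P Q^γ`, so `Q ∣ Q^γ`, and the degrees are equal, so `Q^γ = c Q` with a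
constant, `c = 1` by the normalised coefficient. So `Q^γ = Q` and `P^γ = P`. -/
def S_fix : Prop := ∀ (K L : Type) [Field K] [Field L] [Algebra K L] (L0 E : IntermediateField K L)
  (Γ : Set (L →ₐ[K] L)) (τ : Type) [Finite τ] (t : τ → L),
  (∀ z, z ∈ E ↔ ∀ γ ∈ Γ, γ z = z) → (∀ γ ∈ Γ, ∀ z ∈ L0, γ z ∈ L0) → (∀ i, t i ∈ E) →
  AlgebraicIndependent L0 t → IntermediateField.adjoin L0 (Set.range t) = ⊤ →
  E ≤ IntermediateField.adjoin K ({z | z ∈ L0 ∧ z ∈ E} ∪ Set.range t)

/-- The last step. Proof: let `E0 = L0 ⊓ E`. Choose an injection `κ → τ` and let `A` be its image,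
`t_A`, `t_A'` the two parts of `t`. The fields `E0(t_A)` and `E0(x) = L0` are isomorphic over `E0`
(`t_A ↔ x`); transport `u`: there are `u' : Fin r → E0(t_A)`, algebraically independent over `K` with
`K(u') = E0(t_A)`. The `t_A'` are algebraically independent over `E0(t_A)`. So `u', t_A'` are
algebraically independent over `K` and generate `E`. -/
def S_fin : Prop := ∀ (K L : Type) [Field K] [Field L] [Algebra K L] (L0 E : IntermediateField K L)
  (κ τ : Type) [Fintype κ] [Fintype τ] (x : κ → L) (t : τ → L) (r : ℕ) (u : Fin r → L),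
  (∀ i, x i ∈ L0) → AlgebraicIndependent (L0 ⊓ E : IntermediateField K L) x →
  L0 ≤ IntermediateField.adjoin K ({z | z ∈ L0 ∧ z ∈ E} ∪ Set.range x) →
  (∀ i, t i ∈ E) → AlgebraicIndependent L0 t →
  E ≤ IntermediateField.adjoin K ({z | z ∈ L0 ∧ z ∈ E} ∪ Set.range t) →
  Fintype.card κ ≤ Fintype.card τ → AlgebraicIndependent K u →
  L0 = IntermediateField.adjoin K (Set.range u) → IsRational E

/-- The number of monomials of degree `m` is at least `n^2`. Proof: it is `(n+m-1 choose m)`, which is
at least `(n+2 choose 3)` for `m ≥ 3` (or: an injection), and `n (n+1) (n+2) ≥ 6 n^2`. -/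
def S_card : Prop := ∀ n m : ℕ, 3 ≤ n → 3 ≤ m → n * n ≤ Fintype.card (Mon n m)

/-- the theorem, for all `n ≥ 3` for which the equivariant matrices span -/
def S_main : Prop := ∀ (K : Type) [Field K] [CharZero K] (n m : ℕ), 3 ≤ n → 3 ≤ m →
  Nat.Coprime n m → SpanAt K n m → IsRational (E K n m)

end Pool.Agent.T2h8.RM
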