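import Mathlib
import Pool.Agent.T2h8.RM.Stm

set_option autoImplicit false

open MvPolynomial

namespace Pool.Agent.T2h8.RM

theorem t_main (h_f0 : S_f0) (h_frame2 : S_frame2) (h_gen0 : S_gen0) (h_t : S_t) (h_dec0 : S_dec0)
    (h_subst : S_subst) (h_x : S_x) (h_fix : S_fix) (h_fin : S_fin) (h_card : S_card) : S_main := by
  classical
  intro K _ _ n m hn hm hcop hsp
  obtain ⟨a, M, hM, ha, haa⟩ := h_frame2 K n m hn hm hcop hsp
  obtain ⟨⟨r, u, hu, huL⟩, hFalg, hFgen⟩ := h_dec0 K n m (by omega)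
  obtain ⟨t, W, W', htE, hWL, hWW, htW⟩ := h_t K n m hn hm a M hM ha haa
  have hx := h_x K n m hn hm a M hM ha
  have hgen := h_gen0 K n m hn hm a M hM ha haa
  have hf0 := h_f0 K n m (by omega)
  -- substitution
  let W1 : Matrix (Mon n m) (Mon n m) (L0 K n m) := Matrix.of fun α β => ⟨W α β, (hWL α β).1⟩
  let W1' : Matrix (Mon n m) (Mon n m) (L0 K n m) := Matrix.of fun α β => ⟨W' α β, (hWL α β).2⟩
  have hW1 : W1 * W1' = 1 := by
    ext α β
    have := congrFun (congrFun hWW α) β
    rw [Matrix.mul_apply] at this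
    rw [Matrix.mul_apply]
    push_cast
    simp only [W1, W1', Matrix.of_apply]
    rw [this, Matrix.one_apply, Matrix.one_apply]
    split_ifs <;> simp
  obtain ⟨htalg, htgen⟩ := h_subst (L0 K n m) (LL K n m) (Mon n m)
    (fun α : Mon n m => coeff α.1 (Fh K n m)) t W1 W1' hW1 hFalg hFgen (by
      intro α
      rw [htW α]
      rfl)
  have hE : E K n m ≤ IntermediateField.adjoin K
      ({z | z ∈ L0 K n m ∧ z ∈ E K n m} ∪ Set.range t) := by
    apply h_fix K (LL K n m) (L0 K n m) (E K n m) (Set.range fun g : GL (Fin n) K => sg g)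
      (Mon n m) t
    · intro z
      constructor
      · rintro hz _ ⟨g, rfl⟩
        exact hz g
      · intro hz g
        exact hz _ ⟨g, rfl⟩
    · rintro _ ⟨g, rfl⟩ z hz
      exact (hf0.2.2.2 g).2.2.2 z hz
    · exact htE
    · exact htalg
    · exact htgen
  refine h_fin K (LL K n m) (L0 K n m) (E K n m) (Fin n × Fin n) (Mon n m)
    (fun p => M p.1 p.2) t r u (fun p => hM.2.1 p.1 p.2) hx ?_ htE htalg hE ?_ hu huL
  · refine le_trans hgen ?_
    apply IntermediateField.adjoin.mono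
    apply Set.union_subset_union_right
    rintro z ⟨i, j, rfl⟩
    exact ⟨(i, j), rfl⟩
  · rw [Fintype.card_prod, Fintype.card_fin]
    exact h_card n m hn hm

end Pool.Agent.T2h8.RM
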