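import Mathlib
import Pool.Agent.T2h8.RM.Stm

/-! Lemmas on linear substitutions (helper6), for the tasks `f0` and `t`. -/

set_option autoImplicit false

open MvPolynomial

namespace Pool.Agent.T2h8.RM.SbsL_

variable {A : Type*} [CommRing A] {n : ℕ}

lemma sbs_C (g : Matrix (Fin n) (Fin n) A) (a : A) : sbs g (C a) = C a := by
  simp [sbs]

lemma sbs_X (g : Matrix (Fin n) (Fin n) A) (i : Fin n) :
    sbs g (X i) = ∑ j, C (g i j) * X j := by
  simp [sbs]

/-- `sbs g (sbs h P) = sbs (h g) P` -/
lemma sbs_sbs (g h : Matrix (Fin n) (Fin n) A) (P : MvPolynomial (Fin n) A) :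
    sbs g (sbs h P) = sbs (h * g) P := by
  have : (sbs g).comp (sbs h) = sbs (h * g) := by
    apply MvPolynomial.algHom_ext
    intro i
    rw [AlgHom.comp_apply, sbs_X, sbs_X, map_sum]
    simp_rw [map_mul, sbs_C, sbs_X, Finset.mul_sum]
    rw [Finset.sum_comm]
    refine Finset.sum_congr rfl fun k _ => ?_
    rw [Matrix.mul_apply, map_sum, Finset.sum_mul]
    refine Finset.sum_congr rfl fun j _ => ?_
    rw [map_mul, mul_assoc]
  exact DFunLike.congr_fun this P

lemma sbs_one (P : MvPolynomial (Fin n) A) : sbs (1 : Matrix (Fin n) (Fin n) A) P = P := by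
  have : sbs (1 : Matrix (Fin n) (Fin n) A) = AlgHom.id A _ := by
    apply MvPolynomial.algHom_ext
    intro i
    rw [sbs_X, AlgHom.id_apply]
    simp [Matrix.one_apply, Finset.sum_ite_eq, ite_mul, zero_mul]
  rw [this]; rfl

lemma sbs_map {B : Type*} [CommRing B] (f : A →+* B) (g : Matrix (Fin n) (Fin n) A)
    (P : MvPolynomial (Fin n) A) : sbs (g.map f) (map f P) = map f (sbs g P) := by
  have : ((sbs (g.map f)).toRingHom.comp (map f)) = (map f).comp (sbs g).toRingHom := by
    apply MvPolynomial.ringHom_ext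
    · intro a
      simp [sbs_C]
    · intro i
      simp [sbs_X]
  exact DFunLike.congr_fun this P

lemma sbs_homog (g : Matrix (Fin n) (Fin n) A) {P : MvPolynomial (Fin n) A} {d : ℕ}
    (h : P.IsHomogeneous d) : (sbs g P).IsHomogeneous d := by
  have := h.aeval (fun i => ∑ j, C (g i j) * X j) (n := 1) (fun i => by
    apply IsHomogeneous.sum
    intro j _
    exact isHomogeneous_C_mul_X _ _)
  simpa [sbs] using this

/-- diagonal substitution -/
lemma sbs_diag (d : Fin n → A) (P : MvPolynomial (Fin n) A) (α : Fin n →₀ ℕ) :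
    coeff α (sbs (Matrix.diagonal d) P) = (∏ j, d j ^ α j) * coeff α P := by
  induction P using MvPolynomial.induction_on'' generalizing α with
  | C a =>
    rw [sbs_C, coeff_C]
    split_ifs with h
    · subst h; simp
    · simp
  | monomial_add α' a P hα ha hP h2 => 
    rw [map_add, coeff_add, coeff_add, hP, mul_add, h2]
  | mul_X P i hP =>
    have hX : sbs (Matrix.diagonal d) (X i) = C (d i) * X i := by
      rw [sbs_X]
      rw [Finset.sum_eq_single i]
      · rw [Matrix.diagonal_apply_eq]
      · intro j _ hj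
        rw [Matrix.diagonal_apply_ne _ hj.symm]; simp
      · simp
    rw [map_mul, hX, coeff_mul_X', mul_left_comm, coeff_C_mul, coeff_mul_X']
    by_cases h : i ∈ α.support
    · rw [if_pos h, if_pos h, hP]
      have : ∏ j, d j ^ α j = (∏ j, d j ^ (α - Finsupp.single i 1 : Fin n →₀ ℕ) j) * d i := by
        rw [← Finset.mul_prod_erase _ _ (Finset.mem_univ i), ← Finset.mul_prod_erase _
          (fun j => d j ^ (α - Finsupp.single i 1 : Fin n →₀ ℕ) j) (Finset.mem_univ i)]
        have h1 : α i = (α - Finsupp.single i 1 : Fin n →₀ ℕ) i + 1 := by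
          have := Finsupp.mem_support_iff.1 h
          simp [Finsupp.tsub_apply]; omega
        rw [h1, pow_succ]
        have : ∀ j ∈ Finset.univ.erase i, d j ^ α j = d j ^ (α - Finsupp.single i 1 : Fin n →₀ ℕ) j := by
          intro j hj
          have hj' : j ≠ i := Finset.ne_of_mem_erase hj
          simp [Finsupp.tsub_apply, Finsupp.single_apply, hj'.symm]
        rw [Finset.prod_congr rfl this]
        ring
      rw [this]; ring
    · rw [if_neg h, if_neg h]; simp

/-- a polynomial whose coefficients are in a subfield comes from the subfield -/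
lemma exists_map {K L : Type*} [Field K] [Field L] [Algebra K L] (F : IntermediateField K L)
    (P : MvPolynomial (Fin n) L) (h : ∀ α, coeff α P ∈ F) :
    ∃ P' : MvPolynomial (Fin n) F, P = map (algebraMap F L) P' := by
  have : P ∈ Set.range (map (algebraMap F L)) := by
    rw [mem_range_map_iff_coeffs_subset]
    intro a ha
    rw [Finset.mem_coe, mem_coeffs_iff] at ha
    obtain ⟨α, _, rfl⟩ := ha
    exact ⟨⟨_, h α⟩, rfl⟩
  obtain ⟨P', hP'⟩ := this
  exact ⟨P', hP'.symm⟩

lemma exists_mapM {K L : Type*} [Field K] [Field L] [Algebra K L] (F : IntermediateField K L)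
    (M : Matrix (Fin n) (Fin n) L) (h : ∀ i j, M i j ∈ F) :
    ∃ M' : Matrix (Fin n) (Fin n) F, M = M'.map (algebraMap F L) := by
  refine ⟨Matrix.of fun i j => ⟨M i j, h i j⟩, ?_⟩
  ext i j
  rfl

/-- a substitution with entries in a subfield preserves the polynomials over the subfield -/
lemma sbs_coeff_mem {K L : Type*} [Field K] [Field L] [Algebra K L] (F : IntermediateField K L)
    (M : Matrix (Fin n) (Fin n) L) (hM : ∀ i j, M i j ∈ F)
    (P : MvPolynomial (Fin n) L) (h : ∀ α, coeff α P ∈ F) (α : Fin n →₀ ℕ) :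
    coeff α (sbs M P) ∈ F := by
  obtain ⟨P', rfl⟩ := exists_map F P h
  obtain ⟨M', rfl⟩ := exists_mapM F M hM
  rw [sbs_map, coeff_map]
  exact (coeff α (sbs M' P')).2

end Pool.Agent.T2h8.RM.SbsL_
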