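import Pool.Agent.T2h8.RM.AuxF

/-! Task Ffull: the equivariant forms span all forms. -/

set_option autoImplicit false

open MvPolynomial

namespace Pool.Agent.T2h8.RM.Ffull_

open Pool.Agent.T2h8.RM Pool.Agent.T2h8.RM.AuxF

variable {K : Type} [Field K] {n m : ℕ}

/-- `∑ A_ik X_k ∂_i Q` -/
noncomputable def Phi (Q : MvPolynomial (Fin n) (LL K n m))
    (A : Matrix (Fin n) (Fin n) (LL K n m)) : MvPolynomial (Fin n) (LL K n m) :=
  (fun i => pderiv i Q) ⬝ᵥ (A.map C).mulVec X

theorem Phi_eq (Q : MvPolynomial (Fin n) (LL K n m)) (A : Matrix (Fin n) (Fin n) (LL K n m)) :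
    Phi Q A = ∑ i, ∑ k, A i k • (X k * pderiv i Q) := by
  unfold Phi dotProduct Matrix.mulVec dotProduct
  refine Finset.sum_congr rfl fun i _ => ?_
  rw [Finset.mul_sum]
  refine Finset.sum_congr rfl fun k _ => ?_
  show pderiv i Q * (C (A i k) * X k) = A i k • (X k * pderiv i Q)
  rw [smul_eq_C_mul]
  ring

/-- `Phi Q` as a linear map -/
noncomputable def PhiL (Q : MvPolynomial (Fin n) (LL K n m)) :
    Matrix (Fin n) (Fin n) (LL K n m) →ₗ[LL K n m] MvPolynomial (Fin n) (LL K n m) where
  toFun := Phi Q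
  map_add' := by
    intro A B
    simp only [Phi_eq, Matrix.add_apply, add_smul, Finset.sum_add_distrib]
  map_smul' := by
    intro c A
    simp only [Phi_eq, Matrix.smul_apply, smul_eq_mul, mul_smul, Finset.smul_sum, RingHom.id_apply]

theorem Phi_single [DecidableEq (Fin n)] (Q : MvPolynomial (Fin n) (LL K n m)) (i k : Fin n) :
    Phi Q (Matrix.single i k 1) = X k * pderiv i Q := by
  rw [Phi_eq, Finset.sum_eq_single i, Finset.sum_eq_single k]
  · simp
  · intro k' _ hk'
    rw [Matrix.single_apply_of_ne]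
    · simp
    · simp [hk'.symm]
  · simp
  · intro i' _ hi'
    refine Finset.sum_eq_zero fun k' _ => ?_
    rw [Matrix.single_apply_of_ne]
    · simp
    · simp [hi'.symm]
  · simp

theorem Phi_hom {Q : MvPolynomial (Fin n) (LL K n m)} {j : ℕ} (hQ : Q.IsHomogeneous j)
    (A : Matrix (Fin n) (Fin n) (LL K n m)) : (Phi Q A).IsHomogeneous j := by
  rw [Phi_eq]
  refine IsHomogeneous.sum _ _ _ fun i _ => IsHomogeneous.sum _ _ _ fun k _ => ?_
  rw [smul_eq_C_mul]
  rcases Nat.eq_zero_or_pos j with hj | hj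
  · subst hj
    have h1 : Q = C (coeff 0 Q) := by
      rw [← totalDegree_eq_zero_iff_eq_C]
      exact Nat.le_zero.mp hQ.totalDegree_le
    rw [h1, pderiv_C, mul_zero, mul_zero]
    exact isHomogeneous_zero _ _ _
  · have h2 : (X k * pderiv i Q : MvPolynomial (Fin n) (LL K n m)).IsHomogeneous (1 + (j - 1)) :=
      (isHomogeneous_X _ k).mul hQ.pderiv
    have h3 := (isHomogeneous_C (Fin n) (A i k)).mul h2
    have h4 : 0 + (1 + (j - 1)) = j := by omega
    rwa [h4] at h3

theorem Phi_EqF [CharZero K] (h_chain : S_chain) {Q : MvPolynomial (Fin n) (LL K n m)} {j : ℕ}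
    {c : ℤ} (hQ : EqF j c Q) {A : Matrix (Fin n) (Fin n) (LL K n m)} (hA : EqM A) :
    EqF j c (Phi Q A) := by
  refine ⟨Phi_hom hQ.1 A, ?_, fun g => ?_⟩
  · rw [← mem_CiR]
    unfold Phi dotProduct Matrix.mulVec dotProduct
    refine sum_mem fun i _ => mul_mem (pderiv_mem (mem_CiR.mpr hQ.2.1) i)
      (sum_mem fun k _ => mul_mem ?_ (X_mem k))
    exact C_mem (hA.1 i k)
  · obtain ⟨c1, -, c3, -⟩ := h_chain K n m g
    -- the chain rule in vector form
    have e1 : Matrix.vecMul (fun i => Th g (pderiv i Q)) (GG (m := m) g) =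
        fun l => C (algebraMap K (LL K n m) (g.1.det ^ c)) * pderiv l Q := by
      ext1 l
      have h1 := c1 Q l
      rw [hQ.2.2 g, pderiv_C_mul] at h1
      rw [h1]
      unfold Matrix.vecMul dotProduct
      refine Finset.sum_congr rfl fun i _ => ?_
      rw [mul_comm]
      rfl
    have e2 : (fun k => Th g (X k : MvPolynomial (Fin n) (LL K n m))) =
        (GG (m := m) g).mulVec X := by
      ext1 k
      rw [c3 k]
      rfl
    have e3 : Th g (Phi Q A) = (fun i => Th g (pderiv i Q)) ⬝ᵥ
        ((A.map C).map (Th g)).mulVec (fun k => Th g (X k)) := by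
      unfold Phi dotProduct Matrix.mulVec dotProduct
      simp only [map_sum, map_mul, Matrix.map_apply]
    rw [e3, AC_map hA, e2, Matrix.mulVec_mulVec, Matrix.mul_assoc, GG_inv_mul, Matrix.mul_one,
      ← Matrix.mulVec_mulVec, Matrix.dotProduct_mulVec, e1]
    unfold Phi dotProduct
    rw [Finset.mul_sum]
    refine Finset.sum_congr rfl fun i _ => ?_
    rw [mul_assoc]

end Ffull_

open Ffull_ AuxF in
theorem Ffull_.t_Ffull (h_full : S_full) (h_span : S_span) (h_chain : S_chain) : S_Ffull := by
  classical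
  intro K _ _ n m hn hm j c P hP hP0
  refine h_full (LL K n m) n j (by omega) _ P hP.1 hP0 (Submodule.subset_span hP) ?_
  intro i k Q hQ
  refine Submodule.span_induction (p := fun Q _ => X k * pderiv i Q ∈ Submodule.span (LL K n m)
    {Q : MvPolynomial (Fin n) (LL K n m) | EqF j c Q}) ?_ ?_ ?_ ?_ hQ
  · intro Q hQ
    have h1 : ∀ A : Matrix (Fin n) (Fin n) (LL K n m), PhiL Q A ∈ Submodule.span (LL K n m)
        {Q : MvPolynomial (Fin n) (LL K n m) | EqF j c Q} := by
      intro A
      have hA : A ∈ Submodule.span (LL K n m)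
          {A : Matrix (Fin n) (Fin n) (LL K n m) | EqM A} := by
        rw [h_span K n m hn hm]
        exact Submodule.mem_top
      refine Submodule.span_induction (p := fun A _ => PhiL Q A ∈ Submodule.span (LL K n m)
        {Q : MvPolynomial (Fin n) (LL K n m) | EqF j c Q}) ?_ ?_ ?_ ?_ hA
      · intro A hA
        exact Submodule.subset_span (Phi_EqF h_chain hQ hA)
      · rw [map_zero]
        exact Submodule.zero_mem _
      · intro x y _ _ hx hy
        rw [map_add]
        exact Submodule.add_mem _ hx hy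
      · intro a x _ hx
        rw [map_smul]
        exact Submodule.smul_mem _ _ hx
    have h2 := h1 (Matrix.single i k 1)
    have h3 : PhiL Q (Matrix.single i k 1) = X k * pderiv i Q := Phi_single Q i k
    rwa [h3] at h2
  · rw [map_zero, mul_zero]
    exact Submodule.zero_mem _
  · intro x y _ _ hx hy
    rw [map_add, mul_add]
    exact Submodule.add_mem _ hx hy
  · intro a x _ hx
    rw [Derivation.map_smul, mul_smul_comm]
    exact Submodule.smul_mem _ _ hx

end Pool.Agent.T2h8.RM
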