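import Pool.Agent.T2h8.RM.AuxF

/-! Task Fj: a nonzero equivariant form of degree `n (m - 1)` and weight `-1`. -/

set_option autoImplicit false

open MvPolynomial

namespace Pool.Agent.T2h8.RM.Fj_

open Pool.Agent.T2h8.RM Pool.Agent.T2h8.RM.AuxF

variable {K : Type} [Field K] {n m : ℕ}

theorem jac_det_hom (Ψ : Fin n → MvPolynomial (Fin n) (LL K n m)) (hΨ : ∀ i, (Ψ i).IsHomogeneous m) :
    (jac Ψ).det.IsHomogeneous (n * (m - 1)) := by
  rw [Matrix.det_apply]
  refine IsHomogeneous.sum _ _ _ fun σ _ => ?_
  have h1 : (∏ i, jac Ψ (σ i) i).IsHomogeneous (∑ _i : Fin n, (m - 1)) :=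
    IsHomogeneous.prod _ _ _ fun i _ => (hΨ (σ i)).pderiv
  have h2 : ∑ _i : Fin n, (m - 1) = n * (m - 1) := by simp
  rw [h2] at h1
  rcases Int.units_eq_one_or (Equiv.Perm.sign σ) with h | h
  · rw [h, one_smul]
    exact h1
  · rw [h, Units.neg_smul, one_smul]
    exact h1.neg

/-- the Jacobian determinant is linear in each component -/
noncomputable def JL (Ψ : Fin n → MvPolynomial (Fin n) (LL K n m)) (a : Fin n) :
    MvPolynomial (Fin n) (LL K n m) →ₗ[LL K n m] MvPolynomial (Fin n) (LL K n m) where
  toFun q := (jac (Function.update Ψ a q)).det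
  map_add' := by
    classical
    intro p q
    have h : ∀ r : MvPolynomial (Fin n) (LL K n m), jac (Function.update Ψ a r) =
        (jac Ψ).updateRow a (fun j => pderiv j r) := by
      intro r
      ext1 i j
      by_cases hi : i = a
      · subst hi
        simp [jac]
      · simp [jac, Function.update_of_ne hi, Matrix.updateRow_ne hi]
    simp only [h]
    rw [← Matrix.det_updateRow_add]
    congr 2
    ext1 j
    simp
  map_smul' := by
    classical
    intro c q
    have h : ∀ r : MvPolynomial (Fin n) (LL K n m), jac (Function.update Ψ a r) =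
        (jac Ψ).updateRow a (fun j => pderiv j r) := by
      intro r
      ext1 i j
      by_cases hi : i = a
      · subst hi
        simp [jac]
      · simp [jac, Function.update_of_ne hi, Matrix.updateRow_ne hi]
    simp only [h, RingHom.id_apply]
    rw [smul_eq_C_mul ((jac Ψ).updateRow a fun j => pderiv j q).det c, ← Matrix.det_updateRow_smul]
    congr 2
    ext1 j
    simp [smul_eq_C_mul]

theorem vanish (S : Set (MvPolynomial (Fin n) (LL K n m)))
    (h0 : ∀ Ψ : Fin n → MvPolynomial (Fin n) (LL K n m), (∀ i, Ψ i ∈ S) → (jac Ψ).det = 0) :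
    ∀ s : Finset (Fin n), ∀ Ψ : Fin n → MvPolynomial (Fin n) (LL K n m),
      (∀ i ∈ s, Ψ i ∈ Submodule.span (LL K n m) S) → (∀ i ∉ s, Ψ i ∈ S) → (jac Ψ).det = 0 := by
  classical
  intro s
  induction s using Finset.induction_on with
  | empty =>
    intro Ψ _ h2
    exact h0 Ψ fun i => h2 i (Finset.notMem_empty i)
  | insert a s ha ih =>
    intro Ψ h1 h2
    have h3 : JL Ψ a (Ψ a) = (jac Ψ).det := by
      show (jac (Function.update Ψ a (Ψ a))).det = _
      rw [Function.update_eq_self]
    rw [← h3]
    refine Submodule.span_induction (p := fun q _ => JL Ψ a q = 0) ?_ ?_ ?_ ?_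
      (h1 a (Finset.mem_insert_self a s))
    · intro q hq
      refine ih (Function.update Ψ a q) (fun i hi => ?_) (fun i hi => ?_)
      · have hne : i ≠ a := fun h => ha (h ▸ hi)
        rw [Function.update_of_ne hne]
        exact h1 i (Finset.mem_insert_of_mem hi)
      · by_cases hne : i = a
        · subst hne
          rw [Function.update_self]
          exact hq
        · rw [Function.update_of_ne hne]
          refine h2 i fun h => ?_
          rcases Finset.mem_insert.mp h with h | h
          · exact hne h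
          · exact hi h
    · exact map_zero _
    · intro x y _ _ hx hy
      rw [map_add, hx, hy, add_zero]
    · intro c x _ hx
      rw [map_smul, hx, smul_zero]

end Fj_

open Fj_ AuxF in
theorem Fj_.t_Fj (h_Fm : S_Fm) (h_Ffull : S_Ffull) (h_chain : S_chain) : S_Fj := by
  classical
  intro K _ _ n m hn hm
  obtain ⟨P0, hP0, hP0'⟩ := h_Fm K n m hn hm
  have hfull := h_Ffull K n m hn hm m 0 P0 hP0 hP0'
  have key : ∀ Ψ : Fin n → MvPolynomial (Fin n) (LL K n m), (∀ i, EqF m 0 (Ψ i)) →
      EqF (n * (m - 1)) (-1) (jac Ψ).det := by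
    intro Ψ hΨ
    refine ⟨jac_det_hom Ψ fun i => (hΨ i).1, ?_, fun g => ?_⟩
    · rw [← mem_CiR]
      exact det_mem fun i j => pderiv_mem (mem_CiR.mpr (hΨ i).2.1) j
    · have e1 : jac Ψ = (jac Ψ).map (Th g) * GG (m := m) g := by
        ext1 i l
        have h1 := (h_chain K n m g).1 (Ψ i) l
        rw [(hΨ i).2.2 g, zpow_zero, map_one, map_one, one_mul] at h1
        rw [Matrix.mul_apply]
        show pderiv l (Ψ i) = _
        rw [h1]
        refine Finset.sum_congr rfl fun k _ => ?_
        rw [mul_comm]
        rfl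
      have e2 : (jac Ψ).det = Th g (jac Ψ).det * C (algebraMap K (LL K n m) g.1.det) := by
        conv_lhs => rw [e1, Matrix.det_mul, GG_det]
        congr 1
        exact (RingHom.map_det (Th g) (jac Ψ)).symm
      have hdet : g.1.det ≠ 0 := by
        have := (Matrix.isUnit_iff_isUnit_det g.1).mp g.isUnit
        exact this.ne_zero
      rw [zpow_neg_one]
      conv_rhs => rw [e2]
      rw [mul_comm (Th g _), ← mul_assoc, ← C_mul, ← map_mul, inv_mul_cancel₀ hdet, map_one,
        map_one, one_mul]
  by_contra hcon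
  push Not at hcon
  have h0 := vanish {Q : MvPolynomial (Fin n) (LL K n m) | EqF m 0 Q}
    (fun Ψ hΨ => hcon _ (key Ψ hΨ)) Finset.univ (fun i => X i ^ m)
    (fun i _ => hfull (X i ^ m) (by
      have := (isHomogeneous_X (LL K n m) i).pow m
      rwa [one_mul] at this)) (fun i hi => absurd (Finset.mem_univ i) hi)
  have h1 : jac (fun i : Fin n => (X i ^ m : MvPolynomial (Fin n) (LL K n m))) =
      Matrix.diagonal fun i => (m : MvPolynomial (Fin n) (LL K n m)) * X i ^ (m - 1) := by
    ext1 i j
    show pderiv j (X i ^ m) = _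
    rw [pderiv_pow, pderiv_X, Matrix.diagonal_apply]
    by_cases hij : i = j
    · subst hij
      simp
    · rw [if_neg hij, Pi.single_eq_of_ne hij, mul_zero]
  rw [h1, Matrix.det_diagonal] at h0
  have h2 := Finset.prod_eq_zero_iff.mp h0
  obtain ⟨i, -, hi⟩ := h2
  rcases mul_eq_zero.mp hi with h | h
  · have hm0 : (m : MvPolynomial (Fin n) (LL K n m)) ≠ 0 := by
      have h3 : (m : MvPolynomial (Fin n) (LL K n m)) = C (m : LL K n m) := by simp
      rw [h3, Ne, C_eq_zero]
      have : (m : LL K n m) ≠ 0 := by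
        have : m ≠ 0 := by omega
        exact_mod_cast this
      exact this
    exact hm0 h
  · exact pow_ne_zero _ (X_ne_zero i) h

end Pool.Agent.T2h8.RM
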