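import Pool.Agent.T2h8.RM.AuxF

/-! Task Fm: a nonzero invariant form of degree `m`. -/

set_option autoImplicit false

open MvPolynomial

namespace Pool.Agent.T2h8.RM.Fm_

open Pool.Agent.T2h8.RM Pool.Agent.T2h8.RM.AuxF

variable {K : Type} [Field K] {n m : ℕ}

/-- `tr (A JJ)` -/
noncomputable def Tr (A : Matrix (Fin n) (Fin n) (LL K n m)) : MvPolynomial (Fin n) (LL K n m) :=
  Matrix.trace (A.map C * JJ K n m)

theorem Tr_eq (A : Matrix (Fin n) (Fin n) (LL K n m)) :
    Tr A = ∑ i, ∑ k, A i k • JJ K n m k i := by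
  unfold Tr Matrix.trace
  refine Finset.sum_congr rfl fun i _ => ?_
  rw [Matrix.diag_apply, Matrix.mul_apply]
  refine Finset.sum_congr rfl fun k _ => ?_
  rw [Matrix.map_apply, smul_eq_C_mul]

noncomputable def TrL :
    Matrix (Fin n) (Fin n) (LL K n m) →ₗ[LL K n m] MvPolynomial (Fin n) (LL K n m) where
  toFun := Tr
  map_add' := by
    intro A B
    simp only [Tr_eq, Matrix.add_apply, add_smul, Finset.sum_add_distrib]
  map_smul' := by
    intro c A
    simp only [Tr_eq, Matrix.smul_apply, smul_eq_mul, mul_smul, Finset.smul_sum, RingHom.id_apply]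

theorem Tr_single [DecidableEq (Fin n)] (i k : Fin n) :
    Tr (K := K) (m := m) (Matrix.single i k 1) = JJ K n m k i := by
  rw [Tr_eq, Finset.sum_eq_single i, Finset.sum_eq_single k]
  · simp
  · intro k' _ hk'
    rw [Matrix.single_apply_of_ne]
    · simp
    · simp [hk'.symm]
  · simp
  · intro i' _ hi'
    refine Finset.sum_eq_zero fun k' _ => ?_
    rw [Matrix.single_apply_of_ne]
    · simp
    · simp [hi'.symm]
  · simp

end Fm_

open Fm_ AuxF in
theorem Fm_.t_Fm (h_span : S_span) (h_f0 : S_f0) (h_lam : S_lam) : S_Fm := by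
  classical
  intro K _ _ n m hn hm
  obtain ⟨hh, -, -, hg⟩ := h_f0 K n m (by omega)
  have hJc : ∀ i j, JJ K n m i j ∈ CiR K n m := by
    intro i j
    refine pderiv_mem ?_ j
    intro α
    exact IntermediateField.subset_adjoin _ _ ⟨i, α, rfl⟩
  have key : ∀ A : Matrix (Fin n) (Fin n) (LL K n m), EqM A → EqF m 0 (Tr A) := by
    intro A hA
    refine ⟨?_, ?_, fun g => ?_⟩
    · rw [Tr_eq]
      refine IsHomogeneous.sum _ _ _ fun i _ => IsHomogeneous.sum _ _ _ fun k _ => ?_
      rw [smul_eq_C_mul]
      have h1 := (isHomogeneous_C (Fin n) (A i k)).mul ((hh k).pderiv (i := i))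
      have h2 : 0 + (m + 1 - 1) = m := by omega
      rw [h2] at h1
      exact h1
    · rw [← mem_CiR]
      unfold Tr Matrix.trace
      refine sum_mem fun i _ => ?_
      rw [Matrix.diag_apply, Matrix.mul_apply]
      refine sum_mem fun k _ => mul_mem ?_ (hJc k i)
      exact C_mem (hA.1 i k)
    · have e1 : Th g (Tr A) =
          Matrix.trace (((A.map C).map (Th g)) * ((JJ K n m).map (Th g))) := by
        unfold Tr
        rw [← Matrix.map_mul]
        unfold Matrix.trace
        rw [map_sum]
        rfl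
      have e2 : (JJ K n m).map (Th g) = GG (m := m) g * JJ K n m * GG g⁻¹ := (hg g).2.2.1
      rw [e1, AC_map hA, e2]
      have e3 : GG (m := m) g * A.map C * GG g⁻¹ * (GG g * JJ K n m * GG g⁻¹) =
          GG (m := m) g * (A.map C * JJ K n m) * GG g⁻¹ := by
        calc _ = GG (m := m) g * A.map C * (GG g⁻¹ * GG g) * JJ K n m * GG g⁻¹ := by
              simp only [Matrix.mul_assoc]
          _ = _ := by
              rw [GG_inv_mul, Matrix.mul_one]
              simp only [Matrix.mul_assoc]
      rw [e3, Matrix.trace_mul_comm, ← Matrix.mul_assoc, GG_inv_mul, Matrix.one_mul, zpow_zero,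
        map_one, map_one, one_mul]
      rfl
  by_contra hcon
  push Not at hcon
  have hz : ∀ A : Matrix (Fin n) (Fin n) (LL K n m), TrL A = 0 := by
    intro A
    have hA : A ∈ Submodule.span (LL K n m)
        {A : Matrix (Fin n) (Fin n) (LL K n m) | EqM A} := by
      rw [h_span K n m hn hm]
      exact Submodule.mem_top
    refine Submodule.span_induction (p := fun A _ => TrL A = 0) ?_ ?_ ?_ ?_ hA
    · intro A hA
      exact hcon _ (key A hA)
    · exact map_zero _
    · intro x y _ _ hx hy
      rw [map_add, hx, hy, add_zero]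
    · intro a x _ hx
      rw [map_smul, hx, smul_zero]
  have hJ : JJ K n m = 0 := by
    ext1 k i
    have h1 : Tr (K := K) (m := m) (Matrix.single i k 1) = 0 := hz _
    rw [Tr_single] at h1
    exact h1
  obtain ⟨lam, hlam, -⟩ := h_lam K n m hn hm
  have h1 := hlam.2.2.1
  have : Nonempty (Fin n) := ⟨⟨0, by omega⟩⟩
  rw [hJ, Matrix.det_zero, map_zero] at h1
  exact zero_ne_one h1

end Pool.Agent.T2h8.RM
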