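import Pool.Agent.T2h8.RM.Stm

/-! # card: the number of monomials -/

set_option autoImplicit false

namespace Pool.Agent.T2h8.RM.card_

open Pool.Agent.T2h8.RM

theorem t_card : S_card := by
  intro n m hn hm
  have h := Fintype.card_le_of_injective (fun p : Fin n × Fin n =>
    (⟨Finsupp.single p.1 (m - 1) + Finsupp.single p.2 1, by
      rw [map_add, Finsupp.degree_single, Finsupp.degree_single]
      omega⟩ : Mon n m)) ?_
  · simpa using h
  · rintro ⟨i, j⟩ ⟨i', j'⟩ h
    have h1 : (Finsupp.single i (m - 1) + Finsupp.single j 1 : Fin n →₀ ℕ) =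
        Finsupp.single i' (m - 1) + Finsupp.single j' 1 := congrArg Subtype.val h
    have h2 := DFunLike.congr_fun h1 i
    simp only [Finsupp.add_apply, Finsupp.single_apply] at h2
    have h3 : i' = i := by
      by_contra hne
      rw [if_neg hne] at h2
      simp only [if_true] at h2
      split_ifs at h2 <;> omega
    subst h3
    have h4 : (Finsupp.single j 1 : Fin n →₀ ℕ) = Finsupp.single j' 1 := add_left_cancel h1
    have h5 := (Finsupp.single_left_inj one_ne_zero).1 h4
    rw [h5]

end Pool.Agent.T2h8.RM.card_
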