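import Pool.Agent.T2h8.RM.Stm

/-!
# Task chain (helper49): the chain rule for `Th`
-/

set_option autoImplicit false

open MvPolynomial

namespace Pool.Agent.T2h8.RM

namespace Chain

variable {K : Type} [Field K] {n m : ℕ}

theorem Th_C (g : GL (Fin n) K) (a : LL K n m) : Th g (C a) = C (sg g a) := by
  show sbs (g.1.map (algebraMap K (LL K n m))) (MvPolynomial.map (sg (m := m) g).toRingHom (C a)) = _
  rw [map_C]
  unfold sbs
  rw [aeval_C]
  rfl

theorem Th_X (g : GL (Fin n) K) (i : Fin n) :
    Th g (X i : MvPolynomial (Fin n) (LL K n m)) =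
      ∑ j, C (algebraMap K (LL K n m) (g.1 i j)) * X j := by
  show sbs (g.1.map (algebraMap K (LL K n m))) (MvPolynomial.map (sg (m := m) g).toRingHom (X i)) = _
  rw [map_X]
  unfold sbs
  rw [aeval_X]
  rfl

theorem pderiv_Th_X (g : GL (Fin n) K) (k l : Fin n) :
    pderiv l (Th g (X k : MvPolynomial (Fin n) (LL K n m))) =
      C (algebraMap K (LL K n m) (g.1 k l)) := by
  rw [Th_X, map_sum]
  rw [Finset.sum_eq_single l]
  · rw [pderiv_C_mul, pderiv_X_self]
    simp
  · intro j _ hj
    rw [pderiv_C_mul, pderiv_X_of_ne hj]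
    simp
  · intro h
    exact absurd (Finset.mem_univ l) h

theorem chain_rule (g : GL (Fin n) K) (P : MvPolynomial (Fin n) (LL K n m)) (l : Fin n) :
    pderiv l (Th g P) = ∑ i, C (algebraMap K (LL K n m) (g.1 i l)) * Th g (pderiv i P) := by
  induction P using MvPolynomial.induction_on with
  | C a =>
    rw [Th_C, pderiv_C]
    symm
    refine Finset.sum_eq_zero fun i _ => ?_
    rw [pderiv_C, map_zero, mul_zero]
  | add P Q hP hQ =>
    rw [map_add, map_add, hP, hQ, ← Finset.sum_add_distrib]
    refine Finset.sum_congr rfl fun i _ => ?_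
    rw [map_add, map_add, mul_add]
  | mul_X P k hP =>
    rw [map_mul, pderiv_mul, hP, pderiv_Th_X, Finset.sum_mul]
    have h1 : ∀ i, C (algebraMap K (LL K n m) (g.1 i l)) * Th g (pderiv i (P * X k)) =
        C (algebraMap K (LL K n m) (g.1 i l)) * Th g (pderiv i P) * Th g (X k) +
        (if i = k then Th g P * C (algebraMap K (LL K n m) (g.1 k l)) else 0) := by
      intro i
      rw [pderiv_mul, map_add, map_mul, map_mul, mul_add, mul_assoc]
      congr 1
      by_cases h : i = k
      · subst h
        rw [pderiv_X_self, if_pos rfl, map_one, mul_one, mul_comm]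
      · rw [pderiv_X_of_ne (fun h' => h h'.symm), if_neg h, map_zero, mul_zero, mul_zero]
    rw [Finset.sum_congr rfl fun i _ => h1 i, Finset.sum_add_distrib]
    congr 1
    rw [Finset.sum_ite_eq' Finset.univ k, if_pos (Finset.mem_univ k)]

theorem homog (g : GL (Fin n) K) (P : MvPolynomial (Fin n) (LL K n m)) (d : ℕ)
    (hP : P.IsHomogeneous d) : (Th g P).IsHomogeneous d := by
  have h1 : (MvPolynomial.map (sg (m := m) g).toRingHom P).IsHomogeneous d := hP.map _
  have h2 := h1.aeval (R := LL K n m) (n := 1)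
    (fun i => ∑ j, C ((g.1.map (algebraMap K (LL K n m))) i j) * X j) (fun i => by
      refine IsHomogeneous.sum _ _ _ fun j _ => ?_
      have := (isHomogeneous_C (Fin n) ((g.1.map (algebraMap K (LL K n m))) i j)).mul
        (isHomogeneous_X (LL K n m) j)
      rwa [zero_add] at this)
  rw [one_mul] at h2
  exact h2

end Chain

theorem t_chain : S_chain := by
  intro K _ _ n m g
  exact ⟨Chain.chain_rule g, Chain.Th_C g, Chain.Th_X g, Chain.homog g⟩

end Pool.Agent.T2h8.RM
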