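import Pool.Agent.T2h8.RM.AuxF

/-! Task cov: an equivariant covector. -/

set_option autoImplicit false

open MvPolynomial

namespace Pool.Agent.T2h8.RM.cov_

open Pool.Agent.T2h8.RM Pool.Agent.T2h8.RM.AuxF

variable {K : Type} [Field K] {n m : ℕ}

/-- powers of equivariant forms -/
theorem EqF_pow [CharZero K] {j : ℕ} {c : ℤ} {P : MvPolynomial (Fin n) (LL K n m)} (hP : EqF j c P)
    (u : ℕ) : EqF (u * j) (u * c) (P ^ u) := by
  refine ⟨?_, ?_, fun g => ?_⟩
  · have := hP.1.pow u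
    rwa [mul_comm] at this
  · rw [← mem_CiR]
    exact pow_mem (mem_CiR.mpr hP.2.1) u
  · rw [map_pow, hP.2.2 g, mul_pow, ← C_pow, ← map_pow, ← zpow_natCast, ← zpow_mul, mul_comm c]

/-- coefficientwise application of an additive function -/
noncomputable def T (π : LL K n m → LL K n m) (x : MvPolynomial (Fin n) (LL K n m)) :
    MvPolynomial (Fin n) (LL K n m) :=
  ∑ α ∈ x.support, monomial α (π (coeff α x))

theorem coeff_T {π : LL K n m → LL K n m} (h0 : π 0 = 0) (x : MvPolynomial (Fin n) (LL K n m))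
    (α : Fin n →₀ ℕ) : coeff α (T π x) = π (coeff α x) := by
  classical
  unfold T
  rw [coeff_sum]
  simp only [coeff_monomial]
  rw [Finset.sum_ite_eq']
  split_ifs with h
  · rfl
  · rw [notMem_support_iff.mp h, h0]

/-- coordinate functionals of a linearly independent set -/
theorem exists_coord {F V : Type*} [Field F] [AddCommGroup V] [Module F V] (b : Set V)
    (hb : LinearIndependent F ((↑) : b → V)) (x : V) (hx : x ≠ 0) :
    ∃ φ : V →ₗ[F] F, (∀ Ψ ∈ b, φ Ψ = 0 ∨ φ Ψ = 1) ∧ φ x ≠ 0 := by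
  classical
  have hb' : LinearIndepOn F id b := hb
  let B := Module.Basis.extend hb'
  obtain ⟨a, ha⟩ : ∃ a, B.repr x a ≠ 0 := by
    by_contra hcon
    push Not at hcon
    apply hx
    have h1 : B.repr x = 0 := by
      ext a
      exact hcon a
    exact (LinearEquiv.map_eq_zero_iff _).mp h1
  refine ⟨B.coord a, fun Ψ hΨ => ?_, ha⟩
  have hmem : Ψ ∈ hb'.extend (Set.subset_univ b) := hb'.subset_extend _ hΨ
  have h1 : B ⟨Ψ, hmem⟩ = Ψ := Module.Basis.extend_apply_self _ _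
  have h2 : B.coord a Ψ = (Finsupp.single (⟨Ψ, hmem⟩ : hb'.extend (Set.subset_univ b))
      (1 : F)) a := by
    rw [B.coord_apply]
    conv_lhs => rw [← h1]
    rw [B.repr_self]
  rw [h2, Finsupp.single_apply]
  split_ifs
  · exact Or.inr rfl
  · exact Or.inl rfl

/-- coordinates in `L0` -/
theorem coord_mem (V0 b : Set (MvPolynomial (Fin n) (LL K n m))) (hb : b ⊆ V0)
    (hV0 : ∀ Ψ ∈ V0, Ψ ∈ CiR K n m) (φ : MvPolynomial (Fin n) (LL K n m) →ₗ[LL K n m] LL K n m)
    (hφ : ∀ Ψ ∈ b, φ Ψ = 0 ∨ φ Ψ = 1) {x : MvPolynomial (Fin n) (LL K n m)}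
    (hx : x ∈ Submodule.span (LL K n m) b) (hxc : x ∈ CiR K n m) : φ x ∈ L0 K n m := by
  obtain ⟨p, hp⟩ := (Algebra.linearMap (L0 K n m) (LL K n m)).exists_leftInverse_of_injective
    (LinearMap.ker_eq_bot.mpr (algebraMap (L0 K n m) (LL K n m)).injective)
  have hp1 : ∀ a : L0 K n m, p (a : LL K n m) = a := fun a => LinearMap.congr_fun hp a
  set π : LL K n m → LL K n m := fun a => ((p a : L0 K n m) : LL K n m) with hπ
  have hπ0 : π 0 = 0 := by
    show ((p 0 : L0 K n m) : LL K n m) = 0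
    rw [map_zero]
    rfl
  have hπa : ∀ a b, π (a + b) = π a + π b := by
    intro a b
    show ((p (a + b) : L0 K n m) : LL K n m) = _
    rw [map_add]
    rfl
  have hπm : ∀ a ∈ L0 K n m, ∀ c, π (a * c) = a * π c := by
    intro a ha c
    have h1 : a * c = (⟨a, ha⟩ : L0 K n m) • c := rfl
    show ((p (a * c) : L0 K n m) : LL K n m) = _
    rw [h1, map_smul]
    rfl
  have hπ1 : ∀ a ∈ L0 K n m, π a = a := by
    intro a ha
    show ((p a : L0 K n m) : LL K n m) = _
    rw [hp1 ⟨a, ha⟩]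
  have hTa : ∀ x y, T π (x + y) = T π x + T π y := by
    intro x y
    ext α
    rw [coeff_T hπ0, coeff_add, coeff_add, coeff_T hπ0, coeff_T hπ0, hπa]
  have hTs : ∀ c : LL K n m, ∀ Ψ ∈ V0, T π (c • Ψ) = π c • Ψ := by
    intro c Ψ hΨ
    ext α
    rw [coeff_T hπ0, coeff_smul, coeff_smul, smul_eq_mul, smul_eq_mul, mul_comm,
      hπm _ (hV0 Ψ hΨ α), mul_comm]
  have hT0 : T π (0 : MvPolynomial (Fin n) (LL K n m)) = 0 := by
    ext α
    rw [coeff_T hπ0, coeff_zero, hπ0]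
  have key : ∀ c : LL K n m, φ (T π (c • x)) = π (φ (c • x)) := by
    refine Submodule.span_induction (p := fun x _ => ∀ c : LL K n m,
      φ (T π (c • x)) = π (φ (c • x))) ?_ ?_ ?_ ?_ hx
    · intro Ψ hΨ c
      rw [hTs c Ψ (hb hΨ), map_smul, map_smul, smul_eq_mul, smul_eq_mul]
      rcases hφ Ψ hΨ with h | h
      · rw [h, mul_zero, mul_zero, hπ0]
      · rw [h, mul_one, mul_one]
    · intro c
      rw [smul_zero, hT0, map_zero, hπ0]
    · intro y z _ _ hy hz c
      rw [smul_add, hTa, map_add, map_add, hy, hz, hπa]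
    · intro a y _ hy c
      rw [smul_smul]
      exact hy _
  have h1 := key 1
  have h2 : T π x = x := by
    ext α
    rw [coeff_T hπ0]
    exact hπ1 _ (hxc α)
  rw [one_smul, h2] at h1
  rw [h1]
  exact (p (φ x)).2

/-- equivariance of coordinates -/
theorem coord_equiv (g : GL (Fin n) K) (b : Set (MvPolynomial (Fin n) (LL K n m)))
    (hb : ∀ Ψ ∈ b, Th g Ψ = Ψ) (φ : MvPolynomial (Fin n) (LL K n m) →ₗ[LL K n m] LL K n m)
    (hφ : ∀ Ψ ∈ b, φ Ψ = 0 ∨ φ Ψ = 1) {x : MvPolynomial (Fin n) (LL K n m)}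
    (hx : x ∈ Submodule.span (LL K n m) b) : φ (Th g x) = sg g (φ x) := by
  refine Submodule.span_induction (p := fun x _ => φ (Th g x) = sg g (φ x)) ?_ ?_ ?_ ?_ hx
  · intro Ψ hΨ
    rw [hb Ψ hΨ]
    rcases hφ Ψ hΨ with h | h
    · rw [h, map_zero]
    · rw [h, map_one]
  · rw [map_zero, map_zero, map_zero]
  · intro y z _ _ hy hz
    rw [map_add, map_add, map_add, map_add, hy, hz]
  · intro a y _ hy
    rw [Th_smul, map_smul, map_smul, hy, smul_eq_mul, smul_eq_mul, map_mul]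

end cov_

open cov_ AuxF in
theorem cov_.t_cov (h_bez : S_bez) (h_Fm : S_Fm) (h_Fj : S_Fj) (h_Ffull : S_Ffull)
    (h_chain : S_chain) : S_cov := by
  classical
  intro K _ _ n m hn hm hco
  obtain ⟨u, v, huv⟩ := h_bez n m hn hm hco
  obtain ⟨P, hP, hP0⟩ := h_Fm K n m hn hm
  obtain ⟨P', hP', hP'0⟩ := h_Fj K n m hn hm
  have hPu : EqF (u * m) 0 (P ^ u) := by
    have := EqF_pow hP u
    rwa [mul_zero] at this
  have hQ : EqF (u * m + 1) (-(v : ℤ)) (P' ^ v) := by
    have := EqF_pow hP' v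
    rw [← huv] at this
    rwa [mul_neg_one] at this
  set Q := P' ^ v with hQdef
  have hQ0 : Q ≠ 0 := pow_ne_zero _ hP'0
  set j := u * m with hj
  set V0 : Set (MvPolynomial (Fin n) (LL K n m)) := {Ψ | EqF j 0 Ψ} with hV0
  have hspan := h_Ffull K n m hn hm j 0 (P ^ u) hPu (pow_ne_zero _ hP0)
  have hd : ∀ i, pderiv i Q ∈ Submodule.span (LL K n m) V0 := by
    intro i
    refine hspan _ ?_
    have h1 := hQ.1.pderiv (i := i)
    rwa [Nat.add_sub_cancel] at h1
  have hdc : ∀ i, pderiv i Q ∈ CiR K n m := fun i => pderiv_mem (mem_CiR.mpr hQ.2.1) i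
  obtain ⟨i₀, hi₀⟩ : ∃ i, pderiv i Q ≠ 0 := by
    by_contra hcon
    push Not at hcon
    have h1 := hQ.1.sum_X_mul_pderiv
    simp only [hcon, mul_zero, Finset.sum_const_zero] at h1
    have h2 : ((j + 1 : ℕ) : LL K n m) ≠ 0 := by exact_mod_cast Nat.succ_ne_zero j
    have h3 : (j + 1) • Q = ((j + 1 : ℕ) : LL K n m) • Q := by
      rw [Nat.cast_smul_eq_nsmul]
    rw [h3] at h1
    rcases smul_eq_zero.mp h1.symm with h | h
    · exact h2 h
    · exact hQ0 h
  obtain ⟨b, hbV, hbs, hbl⟩ := exists_linearIndependent (LL K n m) V0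
  have hsp : ∀ x, x ∈ Submodule.span (LL K n m) V0 → x ∈ Submodule.span (LL K n m) b := by
    intro x hx
    rw [hbs]
    exact hx
  -- the coordinate functionals
  obtain ⟨φ, hφ, ha⟩ := exists_coord b hbl (pderiv i₀ Q) hi₀
  refine ⟨(v : ℤ), ?_, fun i => φ (pderiv i Q), ?_, ?_, ?_⟩
  · refine ⟨(v : ℤ) * n - u, ?_⟩
    have h1 : (u : ℤ) * m + 1 = v * (n * ((m : ℤ) - 1)) := by
      have h2 : ((m - 1 : ℕ) : ℤ) = (m : ℤ) - 1 := by
        have : 1 ≤ m := by omega
        push_cast [Nat.cast_sub this]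
        ring
      rw [← h2]
      exact_mod_cast huv
    linear_combination h1
  · intro h
    exact ha (congrFun h i₀)
  · intro i
    exact coord_mem V0 b hbV (fun Ψ hΨ => mem_CiR.mpr hΨ.2.1) φ hφ (hsp _ (hd i)) (hdc i)
  · intro g l
    have hTh : ∀ Ψ ∈ b, Th g Ψ = Ψ := by
      intro Ψ hΨ
      have h1 := (hbV hΨ).2.2 g
      rwa [zpow_zero, map_one, map_one, one_mul] at h1
    have h1 : ∀ i, sg g (φ (pderiv i Q)) = φ (Th g (pderiv i Q)) := fun i =>
      (coord_equiv g b hTh φ hφ (hsp _ (hd i))).symm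
    set Gm : Matrix (Fin n) (Fin n) (LL K n m) := g.1.map (algebraMap K (LL K n m)) with hGm
    set Gi : Matrix (Fin n) (Fin n) (LL K n m) := (g⁻¹).1.map (algebraMap K (LL K n m)) with hGi
    have hGG : Gm * Gi = 1 := by
      have h2 : g.1 * (g⁻¹).1 = 1 := by
        have : (g * g⁻¹).1 = (1 : GL (Fin n) K).1 := by rw [mul_inv_cancel]
        exact this
      rw [hGm, hGi, ← Matrix.map_mul, h2, Matrix.map_one _ (map_zero _) (map_one _)]
    have h3 : Matrix.vecMul (fun i => sg g (φ (pderiv i Q))) Gm =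
        fun k => algebraMap K (LL K n m) (g.1.det ^ (-(v : ℤ))) * φ (pderiv k Q) := by
      ext1 k
      have h4 := (h_chain K n m g).1 Q k
      rw [hQ.2.2 g, pderiv_C_mul, ← smul_eq_C_mul] at h4
      have h5 := congrArg φ h4
      rw [map_smul, map_sum] at h5
      rw [smul_eq_mul] at h5
      rw [h5]
      unfold Matrix.vecMul dotProduct
      refine Finset.sum_congr rfl fun i _ => ?_
      show sg g (φ (pderiv i Q)) * algebraMap K (LL K n m) (g.1 i k) = _
      rw [h1 i, ← smul_eq_C_mul, map_smul, smul_eq_mul, mul_comm]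
    have h6 : (fun i => sg g (φ (pderiv i Q))) = Matrix.vecMul
        (fun k => algebraMap K (LL K n m) (g.1.det ^ (-(v : ℤ))) * φ (pderiv k Q)) Gi := by
      rw [← h3, Matrix.vecMul_vecMul, hGG, Matrix.vecMul_one]
    have h7 := congrFun h6 l
    show sg g (φ (pderiv l Q)) = _
    rw [h7]
    unfold Matrix.vecMul dotProduct
    rw [Finset.mul_sum]
    refine Finset.sum_congr rfl fun i _ => ?_
    rw [mul_assoc]
    rfl

end Pool.Agent.T2h8.RM
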