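import Pool.Agent.T2h8.RM.Stm

set_option autoImplicit false

/-!
# Tasks dec and syz
-/

open MvPolynomial

namespace Pool.Agent.T2h8.RM

namespace Dec

variable {K : Type} [Field K] {n m : ℕ}

theorem form_pt (B : Matrix (Fin n) (Fin n) K) (i : Fin n) :
    form (pt m B) i = ∑ j, C (B i j) * X j ^ (m + 1) := by
  classical
  unfold form pt
  have h1 : ∀ α : Mon n (m + 1), monomial α.1
      (∑ j, if α.1 = Finsupp.single j (m + 1) then B i j else 0) =
      ∑ j, if α.1 = Finsupp.single j (m + 1) then C (B i j) * X j ^ (m + 1) else 0 := by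
    intro α
    rw [map_sum]
    refine Finset.sum_congr rfl fun j _ => ?_
    split_ifs with h
    · rw [h, X_pow_eq_monomial, C_mul_monomial, mul_one]
    · rw [map_zero]
  rw [Finset.sum_congr rfl (fun α _ => h1 α), Finset.sum_comm]
  refine Finset.sum_congr rfl fun j _ => ?_
  have hj : (Finsupp.single j (m + 1) : Fin n →₀ ℕ).degree = m + 1 := Finsupp.degree_single _ _
  rw [Finset.sum_eq_single (⟨Finsupp.single j (m + 1), hj⟩ : Mon n (m + 1))]
  · rw [if_pos rfl]
  · intro b _ hb
    rw [if_neg]
    intro h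
    exact hb (Subtype.ext h)
  · intro h
    exact absurd (Finset.mem_univ _) h

theorem pow_eq (B : Matrix (Fin n) (Fin n) K) (hB : B.det ≠ 0) (j : Fin n) :
    (X j ^ (m + 1) : MvPolynomial (Fin n) K) = ∑ i, C (B⁻¹ j i) * form (pt m B) i := by
  have h1 : B⁻¹ * B = 1 := Matrix.nonsing_inv_mul B (isUnit_iff_ne_zero.2 hB)
  simp only [form_pt, Finset.mul_sum]
  rw [Finset.sum_comm]
  have h2 : ∀ l : Fin n, ∑ i, C (B⁻¹ j i) * (C (B i l) * X l ^ (m + 1)) =
      C ((1 : Matrix (Fin n) (Fin n) K) j l) * (X l ^ (m + 1) : MvPolynomial (Fin n) K) := by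
    intro l
    rw [← h1, Matrix.mul_apply, map_sum, Finset.sum_mul]
    refine Finset.sum_congr rfl fun i _ => ?_
    rw [map_mul, mul_assoc]
  rw [Finset.sum_congr rfl (fun l _ => h2 l)]
  rw [Finset.sum_eq_single j]
  · rw [Matrix.one_apply_eq, map_one, one_mul]
  · intro b _ hb
    rw [Matrix.one_apply_ne hb.symm, map_zero, zero_mul]
  · intro h
    exact absurd (Finset.mem_univ _) h

theorem exists_big (α : Fin n →₀ ℕ) (h : α.degree = n * m) (hne : α ≠ allm n m) :
    ∃ j, m + 1 ≤ α j := by
  by_contra hcon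
  push Not at hcon
  apply hne
  have h1 : ∑ i, α i = ∑ _i : Fin n, m := by
    rw [← Finsupp.degree_eq_sum, h]
    simp
  have h2 : ∀ i ∈ (Finset.univ : Finset (Fin n)), α i ≤ m := fun i _ => Nat.lt_succ_iff.1 (hcon i)
  have h3 := (Finset.sum_eq_sum_iff_of_le h2).1 h1
  ext i
  rw [h3 i (Finset.mem_univ i)]
  rfl

theorem mono (α : Fin n →₀ ℕ) (hα : α.degree = n * m) (c : K) :
    ∃ h : Fin n → MvPolynomial (Fin n) K, (∀ j, (h j).IsHomogeneous (n * m - (m + 1))) ∧
      monomial α c = ∑ j, h j * X j ^ (m + 1) +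
        monomial (allm n m) (coeff (allm n m) (monomial α c)) := by
  classical
  by_cases hne : α = allm n m
  · refine ⟨fun _ => 0, fun _ => isHomogeneous_zero _ _ _, ?_⟩
    rw [hne, coeff_monomial, if_pos rfl]
    simp
  · obtain ⟨j, hj⟩ := exists_big α hα hne
    refine ⟨fun i => if i = j then monomial (α - Finsupp.single j (m + 1)) c else 0, fun i => ?_, ?_⟩
    · dsimp only
      split_ifs with h
      · apply isHomogeneous_monomial
        have h1 : (α - Finsupp.single j (m + 1)) + Finsupp.single j (m + 1) = α :=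
          tsub_add_cancel_of_le (by
            rw [Finsupp.single_le_iff]
            exact hj)
        have h2 := congrArg Finsupp.degree h1
        rw [map_add, Finsupp.degree_single, hα] at h2
        omega
      · exact isHomogeneous_zero _ _ _
    · rw [coeff_monomial, if_neg hne, map_zero, add_zero, Finset.sum_eq_single j]
      · dsimp only
        rw [if_pos rfl, X_pow_eq_monomial, monomial_mul, mul_one,
          tsub_add_cancel_of_le (by rw [Finsupp.single_le_iff]; exact hj)]
      · intro b _ hb
        dsimp only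
        rw [if_neg hb, zero_mul]
      · intro h
        exact absurd (Finset.mem_univ _) h

theorem all (q : MvPolynomial (Fin n) K) (hq : q.IsHomogeneous (n * m)) :
    ∃ h : Fin n → MvPolynomial (Fin n) K, (∀ j, (h j).IsHomogeneous (n * m - (m + 1))) ∧
      q = ∑ j, h j * X j ^ (m + 1) + monomial (allm n m) (coeff (allm n m) q) := by
  classical
  have h0 : ∀ α ∈ q.support, α.degree = n * m := by
    intro α hα
    have := hq (mem_support_iff.1 hα)
    rwa [Finsupp.degree_eq_weight_one]
  choose! h h1 h2 using fun (α : Fin n →₀ ℕ) (hα : α ∈ q.support) => mono α (h0 α hα) (coeff α q)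
  refine ⟨fun j => ∑ α ∈ q.support, h α j, fun j => ?_, ?_⟩
  · exact IsHomogeneous.sum _ _ _ fun α hα => h1 α hα j
  · have h3 : q = ∑ α ∈ q.support, monomial α (coeff α q) := as_sum q
    have h4 : ∑ α ∈ q.support, monomial α (coeff α q) =
        ∑ α ∈ q.support, (∑ j, h α j * X j ^ (m + 1) +
          monomial (allm n m) (coeff (allm n m) (monomial α (coeff α q)))) :=
      Finset.sum_congr rfl fun α hα => h2 α hα
    have h5 : ∑ α ∈ q.support, monomial (allm n m) (coeff (allm n m) (monomial α (coeff α q))) =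
        monomial (allm n m) (coeff (allm n m) q) := by
      rw [← map_sum, ← coeff_sum, ← h3]
    calc q = ∑ α ∈ q.support, monomial α (coeff α q) := h3
      _ = _ := h4
      _ = _ := by
        rw [Finset.sum_add_distrib, h5, Finset.sum_comm]
        congr 1
        refine Finset.sum_congr rfl fun j _ => ?_
        rw [Finset.sum_mul]

end Dec

theorem t_dec : S_dec := by
  intro K _ _ n m _ _ B hB
  constructor
  · intro q hq
    obtain ⟨h, h1, h2⟩ := Dec.all q hq
    refine ⟨fun i => ∑ j, h j * C (B⁻¹ j i), fun i => ?_, ?_⟩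
    · refine IsHomogeneous.sum _ _ _ fun j _ => ?_
      have := (h1 j).mul (isHomogeneous_C (Fin n) (B⁻¹ j i))
      rwa [add_zero] at this
    · have h3 : ∑ i, (∑ j, h j * C (B⁻¹ j i)) * form (pt m B) i = ∑ j, h j * X j ^ (m + 1) := by
        simp only [Finset.sum_mul]
        rw [Finset.sum_comm]
        refine Finset.sum_congr rfl fun j _ => ?_
        rw [Dec.pow_eq B hB j, Finset.mul_sum]
        refine Finset.sum_congr rfl fun i _ => ?_
        rw [mul_assoc]
      rw [h3]
      exact h2
  · intro h i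
    rw [Dec.form_pt, Finset.mul_sum, coeff_sum]
    refine Finset.sum_eq_zero fun j _ => ?_
    rw [mul_left_comm, coeff_C_mul, X_pow_eq_monomial, coeff_mul_monomial', if_neg, mul_zero]
    rw [Finsupp.single_le_iff]
    intro h1
    have h2 : allm n m j = m := rfl
    omega

end Pool.Agent.T2h8.RM
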