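import Mathlib
import Pool.Agent.T2h8.RM.Stm
import Pool.Agent.T2h8.RM.SbsL

set_option autoImplicit false

open MvPolynomial

namespace Pool.Agent.T2h8.RM.f0_

open SbsL_

lemma form_homog {A : Type*} [CommRing A] {n d : ℕ} (c : Idx n d → A) (i : Fin n) :
    (form c i).IsHomogeneous d := by
  apply IsHomogeneous.sum
  intro α _
  exact isHomogeneous_monomial _ α.2

section

variable {K : Type} [Field K] {n m : ℕ}

/-- the matrix `g` with constant polynomials as entries -/
noncomputable def G (m : ℕ) (g : GL (Fin n) K) :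
    Matrix (Fin n) (Fin n) (MvPolynomial (Fin n) (LL K n m)) :=
  g.1.map (fun a => C (algebraMap K (LL K n m) a))

lemma G_mul_inv (g : GL (Fin n) K) : G m g * G m (g⁻¹) = 1 := by
  have h : G m g * G m (g⁻¹) = (g.1 * (g⁻¹).1).map (C.comp (algebraMap K (LL K n m))) := by
    rw [Matrix.map_mul]; rfl
  rw [h]
  have : g.1 * (g⁻¹).1 = 1 := by
    rw [← Units.val_mul, mul_inv_cancel]; rfl
  rw [this, Matrix.map_one _ (map_zero _) (map_one _)]

lemma G_inv_mul (g : GL (Fin n) K) : G m (g⁻¹) * G m g = 1 := by
  have := G_mul_inv (m := m) (g⁻¹)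
  rwa [inv_inv] at this

/-- If `u` is equivariant so is its Jacobian matrix. -/
lemma jac_eq (g : GL (Fin n) K)
    (hch : ∀ (P : MvPolynomial (Fin n) (LL K n m)) (l : Fin n),
      pderiv l (Th g P) = ∑ i, C (algebraMap K (LL K n m) (g.1 i l)) * Th g (pderiv i P))
    (u : Fin n → MvPolynomial (Fin n) (LL K n m))
    (hu : ∀ i, Th g (u i) = ∑ j, C (algebraMap K (LL K n m) (g.1 i j)) * u j) :
    (jac u).map (Th g) = G m g * jac u * G m (g⁻¹) := by
  have h1 : (jac u).map (Th g) * G m g = G m g * jac u := by
    ext1 i l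
    rw [Matrix.mul_apply, Matrix.mul_apply]
    have h := hch (u i) l
    rw [hu i, map_sum] at h
    simp only [Derivation.leibniz, smul_eq_mul, pderiv_C, mul_zero, add_zero] at h
    calc ∑ j, (jac u).map (Th g) i j * G m g j l
        = ∑ j, C (algebraMap K (LL K n m) (g.1 j l)) * Th g (pderiv j (u i)) := by
          refine Finset.sum_congr rfl fun j _ => ?_
          simp [jac, G, mul_comm]
      _ = ∑ j, G m g i j * jac u j l := by
          rw [← h]
          refine Finset.sum_congr rfl fun j _ => ?_
          simp [jac, G]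
  calc (jac u).map (Th g) = (jac u).map (Th g) * G m g * G m (g⁻¹) := by
        rw [mul_assoc, G_mul_inv, mul_one]
    _ = _ := by rw [h1]

lemma divg_eq_trace {A : Type*} [CommRing A] (u : Fin n → MvPolynomial (Fin n) A) :
    divg u = (jac u).trace := rfl

lemma divg_inv (g : GL (Fin n) K)
    (hch : ∀ (P : MvPolynomial (Fin n) (LL K n m)) (l : Fin n),
      pderiv l (Th g P) = ∑ i, C (algebraMap K (LL K n m) (g.1 i l)) * Th g (pderiv i P))
    (u : Fin n → MvPolynomial (Fin n) (LL K n m))
    (hu : ∀ i, Th g (u i) = ∑ j, C (algebraMap K (LL K n m) (g.1 i j)) * u j) :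
    Th g (divg u) = divg u := by
  rw [divg_eq_trace]
  have h1 : Th g (jac u).trace = ((jac u).map (Th g)).trace := by
    rw [Matrix.trace, Matrix.trace, map_sum]; rfl
  rw [h1, jac_eq g hch u hu, Matrix.trace_mul_comm, ← mul_assoc, G_inv_mul, one_mul]

end

theorem t_f0 (h_gen : S_gen) (h_chain : S_chain) : S_f0 := by
  intro K _ _ n m hn
  have hgen1 : ∀ i, (gen K n m i).IsHomogeneous (m + 1) := fun i => form_homog _ i
  have hFh : (Fh K n m).IsHomogeneous m := by
    apply IsHomogeneous.sum
    intro i _
    have := (hgen1 i).pderiv (i := i)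
    simpa using this
  have hf0 : ∀ i, (f0 K n m i).IsHomogeneous (m + 1) := by
    intro i
    apply IsHomogeneous.sub (hgen1 i)
    exact (hFh.C_mul _).mul (isHomogeneous_X _ _)
  have hmn : (m + n : K) ≠ 0 := by
    have : ((m + n : ℕ) : K) ≠ 0 := Nat.cast_ne_zero.2 (by omega)
    push_cast at this; exact this
  refine ⟨hf0, hFh, ?_, ?_⟩
  · -- the divergence
    have h1 : divg (f0 K n m) = divg (gen K n m) -
        ∑ i, C (algebraMap K (LL K n m) ((m + n : K)⁻¹)) *
          (X i * pderiv i (Fh K n m) + Fh K n m) := by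
      unfold divg
      rw [← Finset.sum_sub_distrib]
      refine Finset.sum_congr rfl fun i _ => ?_
      unfold f0 tf
      rw [map_sub]
      congr 1
      rw [mul_assoc, Derivation.leibniz, pderiv_C, smul_zero, add_zero, smul_eq_mul,
        Derivation.leibniz, pderiv_X_self]
      simp only [smul_eq_mul, mul_one]
      congr 1
      exact add_comm _ _
    rw [h1, ← Finset.mul_sum, Finset.sum_add_distrib, hFh.sum_X_mul_pderiv]
    have h2 : m • Fh K n m + ∑ _i : Fin n, Fh K n m =
        C (algebraMap K (LL K n m) (m + n : K)) * Fh K n m := by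
      rw [Finset.sum_const, Finset.card_univ, Fintype.card_fin, ← add_smul, nsmul_eq_mul]
      congr 1
      simp
    rw [h2, ← mul_assoc, ← map_mul, ← map_mul, inv_mul_cancel₀ hmn, map_one, map_one, one_mul]
    exact sub_self _
  · intro g
    obtain ⟨hch, hC, hX, hHom⟩ := h_chain K n m g
    obtain ⟨hsub, hgen⟩ := h_gen K n m g
    have hFhi : Th g (Fh K n m) = Fh K n m := divg_inv g hch _ hgen
    have hf0e : ∀ i, Th g (f0 K n m i) =
        ∑ j, C (algebraMap K (LL K n m) (g.1 i j)) * f0 K n m j := by
      intro i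
      have e1 : f0 K n m i = gen K n m i - C (algebraMap K (LL K n m) ((m + n : K)⁻¹)) *
        Fh K n m * X i := rfl
      have e2 : ∀ j, f0 K n m j = gen K n m j - C (algebraMap K (LL K n m) ((m + n : K)⁻¹)) *
        Fh K n m * X j := fun j => rfl
      rw [e1, map_sub, map_mul, map_mul, hgen, hC, hX, hFhi, AlgHom.commutes, Finset.mul_sum,
        ← Finset.sum_sub_distrib]
      refine Finset.sum_congr rfl fun j _ => ?_
      rw [e2]; ring
    refine ⟨hf0e, hFhi, jac_eq g hch _ hf0e, ?_⟩
    intro a ha
    have hle : L0 K n m ≤ (L0 K n m).comap (sg g) := by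
      unfold L0
      rw [IntermediateField.adjoin_le_iff]
      rintro _ ⟨i, α, rfl⟩
      show sg g (coeff α (f0 K n m i)) ∈ L0 K n m
      have h1 : sg g (coeff α (f0 K n m i)) =
          coeff α (map (sg (m := m) g).toRingHom (f0 K n m i)) := by
        rw [coeff_map]; rfl
      have h2 : map (sg (m := m) g).toRingHom (f0 K n m i) =
          sbs ((g⁻¹).1.map (algebraMap K (LL K n m))) (Th g (f0 K n m i)) := by
        show _ = sbs _ (sbs (g.1.map (algebraMap K (LL K n m))) _)
        rw [sbs_sbs, ← Matrix.map_mul]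
        have : g.1 * (g⁻¹).1 = 1 := by
          rw [← Units.val_mul, mul_inv_cancel]; rfl
        rw [this, Matrix.map_one _ (map_zero _) (map_one _), sbs_one]
      rw [h1, h2]
      apply sbs_coeff_mem
      · intro i j
        exact (L0 K n m).algebraMap_mem _
      · intro β
        rw [hf0e i, coeff_sum]
        refine sum_mem fun j _ => ?_
        rw [coeff_C_mul]
        refine mul_mem ((L0 K n m).algebraMap_mem _) ?_
        exact IntermediateField.subset_adjoin _ _ ⟨j, β, rfl⟩
    exact hle ha

end Pool.Agent.T2h8.RM.f0_
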