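import Pool.Agent.T2h8.RM.Stm

/-! Fixed field of a field of rational functions whose variables are fixed. -/

set_option autoImplicit false

open MvPolynomial

namespace Pool.Agent.T2h8.RM

namespace Fix

variable {K L : Type} [Field K] [Field L] [Algebra K L]

/-- restriction of an endomorphism to a stable subfield -/
def res (L0 : IntermediateField K L) (γ : L →ₐ[K] L) (h : ∀ z ∈ L0, γ z ∈ L0) : L0 →+* L0 where
  toFun x := ⟨γ x, h x x.2⟩
  map_one' := Subtype.ext (by simp)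
  map_zero' := Subtype.ext (by simp)
  map_add' x y := Subtype.ext (by simp)
  map_mul' x y := Subtype.ext (by simp)

theorem map_aeval (L0 : IntermediateField K L) (γ : L →ₐ[K] L) (h : ∀ z ∈ L0, γ z ∈ L0)
    {τ : Type} {t : τ → L} (ht : ∀ i, γ (t i) = t i) (P : MvPolynomial τ L0) :
    γ (aeval t P) = aeval t (map (res L0 γ h) P) := by
  induction P using MvPolynomial.induction_on with
  | C a =>
    rw [map_C, aeval_C, aeval_C]
    rfl
  | add p q hp hq => rw [map_add, map_add, map_add, map_add, hp, hq]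
  | mul_X p i hp => rw [map_mul, map_mul, map_mul, map_mul, hp, map_X, aeval_X, ht]

theorem aeval_mem (L0 : IntermediateField K L) (F : IntermediateField K L) {τ : Type} {t : τ → L}
    (ht : ∀ i, t i ∈ F) (P : MvPolynomial τ L0) (hP : ∀ α, ((coeff α P : L0) : L) ∈ F) :
    aeval t P ∈ F := by
  rw [aeval_def, eval₂_eq]
  refine F.sum_mem fun α _ => F.mul_mem (hP α) (F.prod_mem fun i _ => pow_mem (ht i) _)

end Fix

open Pool.Agent.T2h8.RM.Fix in
theorem t_fix : S_fix := by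
  intro K L _ _ _ L0 E Γ τ _ t hE hL0 ht hind hgen z hz
  classical
  have hz1 : z ∈ IntermediateField.adjoin L0 (Set.range t) := by rw [hgen]; trivial
  rw [IntermediateField.mem_adjoin_iff_div] at hz1
  obtain ⟨p, hp, q, hq, hzpq⟩ := hz1
  rw [Algebra.adjoin_range_eq_range_aeval] at hp hq
  obtain ⟨P, rfl⟩ := hp
  obtain ⟨Q, rfl⟩ := hq
  obtain ⟨F, hF⟩ : ∃ F : IntermediateField K L,
      F = IntermediateField.adjoin K ({z | z ∈ L0 ∧ z ∈ E} ∪ Set.range t) := ⟨_, rfl⟩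
  rw [← hF]
  by_cases hQ : aeval t Q = 0
  · rw [hzpq]
    change aeval t P / aeval t Q ∈ F
    rw [hQ, div_zero]
    exact F.zero_mem
  have hQ0 : Q ≠ 0 := fun h => hQ (by rw [h, map_zero])
  obtain ⟨P1, Q1, c, hrel, hP1, hQ1⟩ := UniqueFactorizationMonoid.exists_reduced_factors' P Q hQ0
  have hQ10 : Q1 ≠ 0 := fun h => hQ0 (by rw [← hQ1, h, mul_zero])
  have hc0 : c ≠ 0 := fun h => hQ0 (by rw [← hQ1, h, zero_mul])
  obtain ⟨α, hα⟩ := MvPolynomial.ne_zero_iff.1 hQ10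
  obtain ⟨a, ha⟩ : ∃ a, a = (coeff α Q1)⁻¹ := ⟨_, rfl⟩
  have ha0 : a ≠ 0 := by rw [ha]; exact inv_ne_zero hα
  have hu : IsUnit (C a : MvPolynomial τ L0) := (isUnit_iff_ne_zero.2 ha0).map C
  obtain ⟨P2, hP2⟩ : ∃ P2, P2 = C a * P1 := ⟨_, rfl⟩
  obtain ⟨Q2, hQ2⟩ : ∃ Q2, Q2 = C a * Q1 := ⟨_, rfl⟩
  have hrel2 : IsRelPrime Q2 P2 := by
    intro d h1 h2
    rw [hQ2] at h1
    rw [hP2] at h2
    exact hrel (hu.dvd_mul_left.1 h2) (hu.dvd_mul_left.1 h1)
  have hQ2c : coeff α Q2 = 1 := by rw [hQ2, coeff_C_mul, ha, inv_mul_cancel₀ hα]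
  have hinj : Function.Injective (aeval t : MvPolynomial τ L0 →ₐ[L0] L) := hind
  have hQ20 : Q2 ≠ 0 := fun h => by rw [h, coeff_zero] at hQ2c; exact zero_ne_one hQ2c
  have hQ2t : aeval t Q2 ≠ 0 := fun h => hQ20 (hinj (by rw [h, map_zero]))
  have hz2 : z = aeval t P2 / aeval t Q2 := by
    rw [hzpq]
    change aeval t P / aeval t Q = _
    have h1 : P * Q2 = P2 * Q := by
      rw [← hP1, ← hQ1, hP2, hQ2, mul_mul_mul_comm, mul_comm c, mul_mul_mul_comm]
    rw [div_eq_div_iff hQ hQ2t, ← map_mul, ← map_mul, h1]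
  have key : ∀ γ ∈ Γ, ∀ h : ∀ z ∈ L0, γ z ∈ L0, map (res L0 γ h) P2 = P2 ∧
      map (res L0 γ h) Q2 = Q2 := by
    intro γ hγ h
    have htt : ∀ i, γ (t i) = t i := fun i => (hE (t i)).1 (ht i) γ hγ
    have h1 := (hE z).1 hz γ hγ
    have hQ3t : aeval t (map (res L0 γ h) Q2) ≠ 0 := by
      rw [← map_aeval L0 γ h htt]
      exact fun h' => hQ2t ((map_eq_zero γ).1 h')
    rw [hz2, map_div₀, map_aeval L0 γ h htt, map_aeval L0 γ h htt, div_eq_div_iff hQ3t hQ2t,
      ← map_mul, ← map_mul] at h1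
    have h2 := hinj h1
    have h3 : Q2 ∣ map (res L0 γ h) Q2 := by
      refine hrel2.dvd_of_dvd_mul_left ?_
      rw [← h2]
      exact dvd_mul_left _ _
    obtain ⟨b, hb⟩ := h3
    have hne : map (res L0 γ h) Q2 ≠ 0 := fun h' => hQ3t (by rw [h', map_zero])
    have hb0 : b ≠ 0 := fun h' => hne (by rw [hb, h', mul_zero])
    have h4 : (map (res L0 γ h) Q2).totalDegree ≤ Q2.totalDegree := by
      refine Finset.sup_mono ?_
      exact support_map_subset _ _
    rw [hb, totalDegree_mul_of_isDomain hQ20 hb0] at h4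
    have h5 : b.totalDegree = 0 := by omega
    rw [totalDegree_eq_zero_iff_eq_C] at h5
    have h6 := congrArg (coeff α) hb
    rw [coeff_map, hQ2c, map_one, h5, mul_comm, coeff_C_mul, hQ2c, mul_one] at h6
    rw [h5, ← h6, map_one, mul_one] at hb
    refine ⟨?_, hb⟩
    rw [hb] at h2
    exact mul_right_cancel₀ hQ20 h2
  have hmem : ∀ R : MvPolynomial τ L0, (∀ γ ∈ Γ, ∀ h : ∀ z ∈ L0, γ z ∈ L0,
      map (res L0 γ h) R = R) → aeval t R ∈ F := by
    intro R hR
    refine aeval_mem L0 F (fun i => ?_) R fun β => ?_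
    · rw [hF]
      exact IntermediateField.subset_adjoin _ _ (Or.inr ⟨i, rfl⟩)
    · rw [hF]
      refine IntermediateField.subset_adjoin _ _ (Or.inl ⟨(coeff β R).2, ?_⟩)
      rw [hE]
      intro γ hγ
      have h1 := congrArg (coeff β) (hR γ hγ (hL0 γ hγ))
      rw [coeff_map] at h1
      exact congrArg Subtype.val h1
  rw [hz2]
  exact F.div_mem (hmem P2 fun γ hγ h => (key γ hγ h).1) (hmem Q2 fun γ hγ h => (key γ hγ h).2)

end Pool.Agent.T2h8.RM
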