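import Pool.Agent.T2h8.RM.Stm

set_option autoImplicit false

open MvPolynomial

namespace Pool.Agent.T2h8.RM.full_

variable {L : Type} [Field L] {n : ℕ}

theorem coeff_pder (i : Fin n) (P : MvPolynomial (Fin n) L) (β : Fin n →₀ ℕ) :
    coeff β (pderiv i P) = ((β i : L) + 1) * coeff (β + Finsupp.single i 1) P := by
  induction P using MvPolynomial.induction_on' with
  | monomial u a =>
    rw [pderiv_monomial, coeff_monomial, coeff_monomial]
    by_cases h : u = β + Finsupp.single i 1
    · subst h
      simp [mul_comm]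
    · rw [if_neg h, mul_zero]
      by_cases h2 : u - Finsupp.single i 1 = β
      · rw [if_pos h2]
        by_cases h3 : u i = 0
        · rw [h3]; simp
        · exfalso
          apply h
          rw [← h2]
          ext k
          by_cases hk : k = i
          · subst hk
            simp
            omega
          · simp [Finsupp.single_apply, Ne.symm hk]
      · rw [if_neg h2]
  | add p q hp hq =>
    rw [map_add, coeff_add, hp, hq, coeff_add, mul_add]

theorem deg_eq (α : Fin n →₀ ℕ) : α.degree = ∑ i, α i := Finsupp.degree_eq_sum α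

theorem eq_single {j : ℕ} {i0 : Fin n} {α : Fin n →₀ ℕ} (h : α.degree = j) (h0 : j ≤ α i0) :
    α = Finsupp.single i0 j := by
  rw [deg_eq, ← Finset.add_sum_erase _ _ (Finset.mem_univ i0)] at h
  have h1 : ∑ i ∈ Finset.univ.erase i0, α i = 0 := by omega
  have h2 : α i0 = j := by omega
  rw [Finset.sum_eq_zero_iff] at h1
  ext k
  by_cases hk : k = i0
  · subst hk; simp [h2]
  · rw [h1 k (Finset.mem_erase.2 ⟨hk, Finset.mem_univ _⟩)]
    simp [Finsupp.single_apply, Ne.symm hk]

theorem exists_pos {j : ℕ} {i0 : Fin n} {α : Fin n →₀ ℕ} (h : α.degree = j) (h0 : α i0 < j) :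
    ∃ i, i ≠ i0 ∧ 0 < α i := by
  by_contra hc
  push Not at hc
  rw [deg_eq, ← Finset.add_sum_erase _ _ (Finset.mem_univ i0)] at h
  have h1 : ∑ i ∈ Finset.univ.erase i0, α i = 0 := by
    apply Finset.sum_eq_zero
    intro i hi
    have := hc i (Finset.ne_of_mem_erase hi)
    omega
  omega

theorem deg_of_mem {j : ℕ} {P : MvPolynomial (Fin n) L} (hP : P.IsHomogeneous j)
    {α : Fin n →₀ ℕ} (h : coeff α P ≠ 0) : α.degree = j := by
  have := hP h
  rw [← this]
  exact congrFun (congrArg DFunLike.coe (Finsupp.degree_eq_weight_one (R := ℕ))) α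

variable [CharZero L]

theorem step1 {j : ℕ} (V : Submodule L (MvPolynomial (Fin n) L)) (i0 : Fin n)
    (hV : ∀ i k, ∀ Q ∈ V, X k * pderiv i Q ∈ V) (t : ℕ) :
    ∀ P : MvPolynomial (Fin n) L, P.IsHomogeneous j → P ≠ 0 → P ∈ V →
      (∀ β, coeff β P ≠ 0 → j ≤ β i0 + t) → X i0 ^ j ∈ V := by
  induction t with
  | zero =>
    intro P hP hP0 hPV hb
    have h1 : P = monomial (Finsupp.single i0 j) (coeff (Finsupp.single i0 j) P) := by
      ext β
      rw [coeff_monomial]
      by_cases hβ : coeff β P = 0
      · rw [hβ]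
        split_ifs with h
        · rw [h, hβ]
        · rfl
      · have h2 := eq_single (deg_of_mem hP hβ) (by simpa using hb β hβ)
        rw [if_pos h2.symm, h2]
    have hc : coeff (Finsupp.single i0 j) P ≠ 0 := by
      intro h
      rw [h, monomial_zero] at h1
      exact hP0 h1
    have h3 : (X i0 : MvPolynomial (Fin n) L) ^ j = (coeff (Finsupp.single i0 j) P)⁻¹ • P := by
      conv_rhs => rw [h1]
      rw [coeff_monomial, if_pos rfl, smul_monomial, smul_eq_mul, inv_mul_cancel₀ hc, X_pow_eq_monomial]
    rw [h3]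
    exact V.smul_mem _ hPV
  | succ t ih =>
    intro P hP hP0 hPV hb
    by_cases hex : ∃ α, coeff α P ≠ 0 ∧ ∃ i, i ≠ i0 ∧ 0 < α i
    · obtain ⟨α, hα, i, hi, hαi⟩ := hex
      apply ih (X i0 * pderiv i P)
      · have hj : 1 ≤ j := by
          rw [← deg_of_mem hP hα, deg_eq]
          exact le_trans hαi (Finset.single_le_sum (f := fun j => α j) (fun _ _ => Nat.zero_le _)
            (Finset.mem_univ i))
        have h1 : (pderiv i P).IsHomogeneous (j - 1) := hP.pderiv
        have h2 := (isHomogeneous_X L i0).mul h1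
        rwa [Nat.add_sub_cancel' hj] at h2
      · intro h0
        have h1 : coeff (Finsupp.single i0 1 + (α - Finsupp.single i 1)) (X i0 * pderiv i P) = 0 := by
          rw [h0, coeff_zero]
        rw [coeff_X_mul, coeff_pder] at h1
        have h2 : α - Finsupp.single i 1 + Finsupp.single i 1 = α := by
          apply tsub_add_cancel_of_le
          rw [Finsupp.single_le_iff]
          exact hαi
        rw [h2] at h1
        rcases mul_eq_zero.1 h1 with h | h
        · have : (((α - (Finsupp.single i 1 : Fin n →₀ ℕ)) i + 1 : ℕ) : L) = 0 := by push_cast; exact h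
          rw [Nat.cast_eq_zero] at this
          omega
        · exact hα h
      · exact hV _ _ _ hPV
      · intro β hβ
        rw [coeff_X_mul'] at hβ
        split_ifs at hβ with hs
        · rw [coeff_pder] at hβ
          have h2 := hb _ (right_ne_zero_of_mul hβ)
          have h3 : (β - (Finsupp.single i0 1 : Fin n →₀ ℕ) + (Finsupp.single i 1 : Fin n →₀ ℕ)) i0 = β i0 - 1 := by
            simp [Finsupp.single_apply, hi]
          rw [h3] at h2
          have h4 : β i0 ≠ 0 := Finsupp.mem_support_iff.1 hs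
          omega
        · exact absurd rfl hβ
    · apply ih P hP hP0 hPV
      intro β hβ
      by_contra hlt
      apply hex
      have hlt' : β i0 < j := by omega
      exact ⟨β, hβ, exists_pos (deg_of_mem hP hβ) hlt'⟩

theorem step2 {j : ℕ} (V : Submodule L (MvPolynomial (Fin n) L)) (i0 : Fin n)
    (hV : ∀ i k, ∀ Q ∈ V, X k * pderiv i Q ∈ V) (h0 : X i0 ^ j ∈ V) (t : ℕ) :
    ∀ α : Fin n →₀ ℕ, α.degree = j → α i0 + t = j → monomial α (1 : L) ∈ V := by
  induction t with
  | zero =>
    intro α hα ht
    have hj : j ≤ α i0 := by omega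
    rw [eq_single hα hj, ← X_pow_eq_monomial]
    exact h0
  | succ t ih =>
    intro α hα ht
    obtain ⟨i, hi, hpos⟩ := exists_pos (i0 := i0) hα (by omega : α i0 < j)
    have hle : Finsupp.single i 1 ≤ α := by
      rw [Finsupp.single_le_iff]; exact hpos
    have h1 : α - Finsupp.single i 1 + Finsupp.single i 1 = α := tsub_add_cancel_of_le hle
    have hdeg : (α - Finsupp.single i 1 + Finsupp.single i0 1).degree = j := by
      rw [map_add, Finsupp.degree_single]
      have h2 := congrArg Finsupp.degree h1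
      rw [map_add, Finsupp.degree_single] at h2
      omega
    have hv0 : (α - (Finsupp.single i 1 : Fin n →₀ ℕ) + (Finsupp.single i0 1 : Fin n →₀ ℕ)) i0 = α i0 + 1 := by
      simp [Finsupp.single_apply, hi]
    have h2 := ih _ hdeg (by rw [hv0]; omega)
    have h3 := hV i0 i _ h2
    rw [pderiv_monomial, hv0, add_tsub_cancel_right, X, monomial_mul, add_comm, h1] at h3
    have hc : ((α i0 + 1 : ℕ) : L) ≠ 0 := by
      rw [Nat.cast_ne_zero]; omega
    have h4 := V.smul_mem (((α i0 + 1 : ℕ) : L)⁻¹) h3
    rw [smul_monomial, smul_eq_mul, one_mul, one_mul, inv_mul_cancel₀ hc] at h4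
    exact h4

theorem t_full : S_full := by
  intro L _ _ n j hn V P hP hP0 hPV hV Q hQ
  have i0 : Fin n := ⟨0, hn⟩
  have h0 : X i0 ^ j ∈ V := step1 V i0 hV j P hP hP0 hPV (fun β _ => by omega)
  rw [Q.as_sum]
  apply V.sum_mem
  intro α hα
  have hα' : coeff α Q ≠ 0 := mem_support_iff.1 hα
  have hd := deg_of_mem hQ hα'
  have hle : α i0 ≤ j := by
    rw [← hd, deg_eq]
    exact Finset.single_le_sum (f := fun j => α j) (fun _ _ => Nat.zero_le _) (Finset.mem_univ i0)
  have h1 := step2 V i0 hV h0 (j - α i0) α hd (by omega)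
  have h2 := V.smul_mem (coeff α Q) h1
  rwa [smul_monomial, smul_eq_mul, mul_one] at h2

end Pool.Agent.T2h8.RM.full_
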