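import Pool.Agent.T2h8.RM.Stm

/-! The socle functional. -/

set_option autoImplicit false
set_option linter.unusedSectionVars false

open MvPolynomial

namespace Pool.Agent.T2h8.RM

namespace Lam35

section

variable {A A' K : Type} [CommRing A] [CommRing A'] [Field K] {n m : ℕ}

theorem allm_apply (i : Fin n) : allm n m i = m := rfl

/-- the exponent `(m, …, m)` -/
noncomputable def a0 (n m : ℕ) : Mon n (n * m) := ⟨allm n m, by
  rw [Finsupp.degree_eq_sum]
  simp [allm_apply]⟩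

theorem exj (γ : Mon n (n * m)) (h : γ ≠ a0 n m) : ∃ j, m + 1 ≤ γ.1 j := by
  by_contra hcon
  push Not at hcon
  have h1 : ∀ i ∈ Finset.univ, γ.1 i ≤ m := fun i _ => Nat.lt_succ_iff.1 (hcon i)
  have h2 : ∑ i, γ.1 i = ∑ _i : Fin n, m := by
    have h3 := γ.2
    rw [Finsupp.degree_eq_sum] at h3
    rw [h3]
    simp
  have h3 := (Finset.sum_eq_sum_iff_of_le h1).1 h2
  apply h
  apply Subtype.ext
  ext i
  rw [h3 i (Finset.mem_univ i)]
  rfl

open Classical in
/-- the basis of the forms of degree `n m` -/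
noncomputable def Wd (k : K →+* A) (B : Matrix (Fin n) (Fin n) K) (j : Mon n (n * m) → Fin n)
    (u : Fin n → MvPolynomial (Fin n) A) (γ : Mon n (n * m)) : MvPolynomial (Fin n) A :=
  if γ = a0 n m then (jac u).det else
    monomial (γ.1 - Finsupp.single (j γ) (m + 1)) 1 * ∑ i, C (k (B⁻¹ (j γ) i)) * u i

/-- the matrix of the coefficients -/
noncomputable def Mx (k : K →+* A) (B : Matrix (Fin n) (Fin n) K) (j : Mon n (n * m) → Fin n)
    (u : Fin n → MvPolynomial (Fin n) A) : Matrix (Mon n (n * m)) (Mon n (n * m)) A :=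
  Matrix.of fun γ δ => coeff δ.1 (Wd k B j u γ)

theorem map_jac_det (φ : A →+* A') (u : Fin n → MvPolynomial (Fin n) A) :
    map φ (jac u).det = (jac fun i => map φ (u i)).det := by
  rw [RingHom.map_det]
  congr 1
  ext i j
  simp [jac, pderiv_map]

theorem map_Wd (φ : A →+* A') (k : K →+* A) (B : Matrix (Fin n) (Fin n) K)
    (j : Mon n (n * m) → Fin n) (u : Fin n → MvPolynomial (Fin n) A) (γ : Mon n (n * m)) :
    map φ (Wd k B j u γ) = Wd (φ.comp k) B j (fun i => map φ (u i)) γ := by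
  unfold Wd
  split_ifs
  · exact map_jac_det φ u
  · rw [map_mul, map_monomial, map_one, map_sum]
    congr 1
    refine Finset.sum_congr rfl fun i _ => ?_
    rw [map_mul, map_C]
    rfl

theorem map_Mx (φ : A →+* A') (k : K →+* A) (B : Matrix (Fin n) (Fin n) K)
    (j : Mon n (n * m) → Fin n) (u : Fin n → MvPolynomial (Fin n) A) :
    (Mx k B j u).map φ = Mx (φ.comp k) B j (fun i => map φ (u i)) := by
  ext γ δ
  simp only [Mx, Matrix.map_apply, Matrix.of_apply]
  rw [← map_Wd, coeff_map]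

/-- the functional over a ring -/
noncomputable def lamS (k : K →+* A) (B : Matrix (Fin n) (Fin n) K)
    (j : Mon n (n * m) → Fin n) (u : Fin n → MvPolynomial (Fin n) A) :
    MvPolynomial (Fin n) A →ₗ[A] A where
  toFun q := ∑ δ : Mon n (n * m), coeff δ.1 q * (Mx k B j u).adjugate δ (a0 n m)
  map_add' p q := by
    rw [← Finset.sum_add_distrib]
    exact Finset.sum_congr rfl fun δ _ => by rw [coeff_add, add_mul]
  map_smul' c q := by
    rw [RingHom.id_apply, smul_eq_mul, Finset.mul_sum]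
    exact Finset.sum_congr rfl fun δ _ => by rw [coeff_smul, smul_eq_mul, mul_assoc]

theorem lamS_apply (k : K →+* A) (B : Matrix (Fin n) (Fin n) K)
    (j : Mon n (n * m) → Fin n) (u : Fin n → MvPolynomial (Fin n) A)
    (q : MvPolynomial (Fin n) A) : lamS k B j u q =
      ∑ δ : Mon n (n * m), coeff δ.1 q * (Mx k B j u).adjugate δ (a0 n m) := rfl

theorem lamS_map (φ : A →+* A') (k : K →+* A) (B : Matrix (Fin n) (Fin n) K)
    (j : Mon n (n * m) → Fin n) (u : Fin n → MvPolynomial (Fin n) A)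
    (q : MvPolynomial (Fin n) A) : φ (lamS k B j u q) =
      lamS (φ.comp k) B j (fun i => map φ (u i)) (map φ q) := by
  rw [lamS_apply, lamS_apply, map_sum, ← map_Mx]
  refine Finset.sum_congr rfl fun δ _ => ?_
  rw [map_mul, coeff_map]
  congr 1
  have h := RingHom.map_adjugate φ (Mx k B j u)
  rw [RingHom.mapMatrix_apply, RingHom.mapMatrix_apply] at h
  rw [← h, Matrix.map_apply]

theorem lamS_sum (k : K →+* A) (B : Matrix (Fin n) (Fin n) K)
    (j : Mon n (n * m) → Fin n) (u : Fin n → MvPolynomial (Fin n) A) (c : Mon n (n * m) → A) :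
    lamS k B j u (∑ γ, c γ • Wd k B j u γ) = (Mx k B j u).det * c (a0 n m) := by
  classical
  rw [lamS_apply]
  have h1 : ∀ δ : Mon n (n * m), coeff δ.1 (∑ γ, c γ • Wd k B j u γ) =
      ∑ γ, c γ * Mx k B j u γ δ := by
    intro δ
    rw [coeff_sum]
    exact Finset.sum_congr rfl fun γ _ => by rw [coeff_smul, smul_eq_mul]; rfl
  rw [Finset.sum_congr rfl fun δ _ => by rw [h1 δ]]
  simp only [Finset.sum_mul]
  rw [Finset.sum_comm]
  have h2 : ∀ γ : Mon n (n * m), ∑ δ, c γ * Mx k B j u γ δ * (Mx k B j u).adjugate δ (a0 n m) =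
      if γ = a0 n m then (Mx k B j u).det * c γ else 0 := by
    intro γ
    have h3 : ∑ δ, Mx k B j u γ δ * (Mx k B j u).adjugate δ (a0 n m) =
        (Mx k B j u * (Mx k B j u).adjugate) γ (a0 n m) := (Matrix.mul_apply).symm
    simp only [mul_assoc]
    rw [← Finset.mul_sum, h3, Matrix.mul_adjugate, Matrix.smul_apply, Matrix.one_apply]
    split_ifs with h
    · rw [smul_eq_mul, mul_one, mul_comm]
    · rw [smul_zero, mul_zero]
  rw [Finset.sum_congr rfl fun γ _ => h2 γ, Finset.sum_ite_eq']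
  simp

theorem form_hom (c : Idx n (m + 1) → A) (i : Fin n) : (form c i).IsHomogeneous (m + 1) := by
  unfold form
  exact IsHomogeneous.sum _ _ _ fun α _ => isHomogeneous_monomial _ α.2

theorem tf_hom [Algebra K A] {u : Fin n → MvPolynomial (Fin n) A}
    (hu : ∀ i, (u i).IsHomogeneous (m + 1)) (i : Fin n) :
    (tf K m u i).IsHomogeneous (m + 1) := by
  unfold tf
  refine (hu i).sub ?_
  have h1 : (divg u).IsHomogeneous m := by
    unfold divg
    exact IsHomogeneous.sum _ _ _ fun i _ => (hu i).pderiv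
  have h2 := ((isHomogeneous_C (Fin n) (algebraMap K A ((m + n : K)⁻¹))).mul h1).mul
    (isHomogeneous_X A i)
  rwa [zero_add] at h2

theorem det_hom {u : Fin n → MvPolynomial (Fin n) A}
    (hu : ∀ i, (u i).IsHomogeneous (m + 1)) : (jac u).det.IsHomogeneous (n * m) := by
  rw [Matrix.det_apply]
  refine IsHomogeneous.sum _ _ _ fun σ _ => ?_
  have h1 : (∏ i, jac u (σ i) i).IsHomogeneous (n * m) := by
    have h2 := IsHomogeneous.prod Finset.univ (fun i => jac u (σ i) i) (fun _ => m)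
      (fun i _ => (hu (σ i)).pderiv)
    simpa using h2
  rw [Units.smul_def]
  exact zsmul_mem (K := homogeneousSubmodule (Fin n) A (n * m)) h1 _

theorem Wd_hom (k : K →+* A) (B : Matrix (Fin n) (Fin n) K) {j : Mon n (n * m) → Fin n}
    (hj : ∀ γ, γ ≠ a0 n m → m + 1 ≤ γ.1 (j γ)) {u : Fin n → MvPolynomial (Fin n) A}
    (hu : ∀ i, (u i).IsHomogeneous (m + 1)) (γ : Mon n (n * m)) :
    (Wd k B j u γ).IsHomogeneous (n * m) := by
  unfold Wd
  split_ifs with h
  · exact det_hom hu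
  · have h1 : (γ.1 - Finsupp.single (j γ) (m + 1)).degree + (m + 1) = n * m := by
      have h2 : γ.1 - Finsupp.single (j γ) (m + 1) + Finsupp.single (j γ) (m + 1) = γ.1 :=
        tsub_add_cancel_of_le (Finsupp.single_le_iff.2 (hj γ h))
      have h3 := congrArg Finsupp.degree h2
      rw [map_add, Finsupp.degree_single, γ.2] at h3
      exact h3
    have h4 : (∑ i, C (k (B⁻¹ (j γ) i)) * u i).IsHomogeneous (m + 1) := by
      refine IsHomogeneous.sum _ _ _ fun i _ => ?_
      have h2 := (isHomogeneous_C (Fin n) (k (B⁻¹ (j γ) i))).mul (hu i)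
      rwa [zero_add] at h2
    have h5 := (isHomogeneous_monomial (1 : A)
      (rfl : (γ.1 - Finsupp.single (j γ) (m + 1)).degree = _)).mul h4
    rwa [h1] at h5

end

section field

variable {K L : Type} [Field K] [Field L] {n m : ℕ}

theorem Wd_mem_idl (k : K →+* L) (B : Matrix (Fin n) (Fin n) K) {j : Mon n (n * m) → Fin n}
    (hj : ∀ γ, γ ≠ a0 n m → m + 1 ≤ γ.1 (j γ)) (u : Fin n → MvPolynomial (Fin n) L)
    {γ : Mon n (n * m)} (h : γ ≠ a0 n m) : Wd k B j u γ ∈ idl m u := by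
  unfold Wd
  rw [if_neg h, Finset.mul_sum]
  refine Submodule.sum_mem _ fun i _ => Submodule.subset_span
    ⟨i, monomial (γ.1 - Finsupp.single (j γ) (m + 1)) 1 * C (k (B⁻¹ (j γ) i)), ?_, by ring⟩
  have h1 : (γ.1 - Finsupp.single (j γ) (m + 1)).degree = n * m - (m + 1) := by
    have h2 : γ.1 - Finsupp.single (j γ) (m + 1) + Finsupp.single (j γ) (m + 1) = γ.1 :=
      tsub_add_cancel_of_le (Finsupp.single_le_iff.2 (hj γ h))
    have h3 := congrArg Finsupp.degree h2
    rw [map_add, Finsupp.degree_single, γ.2] at h3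
    omega
  have h5 := (isHomogeneous_monomial (1 : L) h1).mul
    (isHomogeneous_C (Fin n) (k (B⁻¹ (j γ) i)))
  rwa [add_zero] at h5

theorem Wd_a0 (k : K →+* L) (B : Matrix (Fin n) (Fin n) K) (j : Mon n (n * m) → Fin n)
    (u : Fin n → MvPolynomial (Fin n) L) : Wd k B j u (a0 n m) = (jac u).det := by
  unfold Wd
  rw [if_pos rfl]

theorem Wd_li {k : K →+* L} {B : Matrix (Fin n) (Fin n) K} {j : Mon n (n * m) → Fin n}
    {u : Fin n → MvPolynomial (Fin n) L} (hdet : (Mx k B j u).det ≠ 0) :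
    LinearIndependent L (Wd k B j u) := by
  rw [Fintype.linearIndependent_iff]
  intro g hg
  have h1 : Matrix.vecMul g (Mx k B j u) = 0 := by
    ext δ
    have h2 := congrArg (coeff δ.1) hg
    rw [coeff_sum, coeff_zero] at h2
    rw [Pi.zero_apply, ← h2]
    unfold Matrix.vecMul dotProduct
    exact Finset.sum_congr rfl fun γ _ => by rw [coeff_smul, smul_eq_mul]; rfl
  exact congrFun (Matrix.eq_zero_of_vecMul_eq_zero hdet h1)

/-- every form of degree `n m` is a linear combination -/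
theorem exists_comb {k : K →+* L} {B : Matrix (Fin n) (Fin n) K} {j : Mon n (n * m) → Fin n}
    (hj : ∀ γ, γ ≠ a0 n m → m + 1 ≤ γ.1 (j γ)) {u : Fin n → MvPolynomial (Fin n) L}
    (hu : ∀ i, (u i).IsHomogeneous (m + 1)) (hdet : (Mx k B j u).det ≠ 0)
    (q : MvPolynomial (Fin n) L) (hq : q.IsHomogeneous (n * m)) :
    ∃ c : Mon n (n * m) → L, q = ∑ γ, c γ • Wd k B j u γ := by
  obtain ⟨v, hv⟩ : ∃ v : Mon n (n * m) → L, v = fun δ => coeff δ.1 q := ⟨_, rfl⟩
  refine ⟨Matrix.vecMul v (Mx k B j u)⁻¹, ?_⟩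
  have hW : (∑ γ, Matrix.vecMul v (Mx k B j u)⁻¹ γ • Wd k B j u γ).IsHomogeneous (n * m) := by
    refine IsHomogeneous.sum _ _ _ fun γ _ => ?_
    exact Submodule.smul_mem (homogeneousSubmodule (Fin n) L (n * m)) _ (Wd_hom k B hj hu γ)
  ext α
  by_cases hα : α.degree = n * m
  · have h1 : Matrix.vecMul (Matrix.vecMul v (Mx k B j u)⁻¹) (Mx k B j u) ⟨α, hα⟩ = v ⟨α, hα⟩ := by
      rw [Matrix.vecMul_vecMul, Matrix.nonsing_inv_mul _ (isUnit_iff_ne_zero.2 hdet),
        Matrix.vecMul_one]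
    have h2 : v ⟨α, hα⟩ = coeff α q := by rw [hv]
    rw [coeff_sum, ← h2, ← h1]
    refine Finset.sum_congr rfl fun γ _ => ?_
    rw [coeff_smul, smul_eq_mul]
    rfl
  · rw [hq.coeff_eq_zero hα, hW.coeff_eq_zero hα]

/-- the functional over a field -/
noncomputable def lamL (k : K →+* L) (B : Matrix (Fin n) (Fin n) K)
    (j : Mon n (n * m) → Fin n) (u : Fin n → MvPolynomial (Fin n) L) :
    MvPolynomial (Fin n) L →ₗ[L] L := ((Mx k B j u).det)⁻¹ • lamS k B j u

theorem lamL_comb {k : K →+* L} {B : Matrix (Fin n) (Fin n) K} {j : Mon n (n * m) → Fin n}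
    {u : Fin n → MvPolynomial (Fin n) L} (hdet : (Mx k B j u).det ≠ 0)
    (c : Mon n (n * m) → L) : lamL k B j u (∑ γ, c γ • Wd k B j u γ) = c (a0 n m) := by
  unfold lamL
  rw [LinearMap.smul_apply, lamS_sum, smul_eq_mul, inv_mul_cancel_left₀ hdet]

theorem lamL_Wd {k : K →+* L} {B : Matrix (Fin n) (Fin n) K} {j : Mon n (n * m) → Fin n}
    {u : Fin n → MvPolynomial (Fin n) L} (hdet : (Mx k B j u).det ≠ 0) (γ : Mon n (n * m)) :
    lamL k B j u (Wd k B j u γ) = if γ = a0 n m then 1 else 0 := by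
  classical
  have h1 := lamL_comb hdet (fun δ => if δ = γ then 1 else 0)
  have h2 : ∑ δ, (if δ = γ then (1 : L) else 0) • Wd k B j u δ = Wd k B j u γ := by
    simp
  rw [h2] at h1
  rw [h1]
  simp [eq_comm]

theorem mem_idl_iff {k : K →+* L} {B : Matrix (Fin n) (Fin n) K} {j : Mon n (n * m) → Fin n}
    (hj : ∀ γ, γ ≠ a0 n m → m + 1 ≤ γ.1 (j γ)) {u : Fin n → MvPolynomial (Fin n) L}
    (hdet : (Mx k B j u).det ≠ 0) (hfin : Module.Finite L (idl m u))
    (hrank : Module.finrank L (idl m u) + 1 ≤ Fintype.card (Mon n (n * m))) :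
    idl m u ≤ Submodule.span L (Set.range fun γ : {γ : Mon n (n * m) // γ ≠ a0 n m} =>
      Wd k B j u γ.1) := by
  classical
  obtain ⟨w, hw⟩ : ∃ w : {γ : Mon n (n * m) // γ ≠ a0 n m} → idl m u,
      w = fun γ => ⟨Wd k B j u γ.1, Wd_mem_idl k B hj u γ.2⟩ := ⟨_, rfl⟩
  have hli : LinearIndependent L w := by
    have h1 : LinearIndependent L (fun γ : {γ : Mon n (n * m) // γ ≠ a0 n m} =>
        Wd k B j u γ.1) := (Wd_li hdet).comp _ Subtype.val_injective
    have h2 : (fun γ : {γ : Mon n (n * m) // γ ≠ a0 n m} => Wd k B j u γ.1) =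
        (idl m u).subtype ∘ w := by
      rw [hw]
      rfl
    rw [h2] at h1
    exact LinearIndependent.of_comp _ h1
  have hcard : Fintype.card {γ : Mon n (n * m) // γ ≠ a0 n m} + 1 =
      Fintype.card (Mon n (n * m)) := by
    have h1 := Fintype.card_subtype_compl (fun γ : Mon n (n * m) => γ = a0 n m)
    have h2 : Fintype.card {γ : Mon n (n * m) // γ = a0 n m} = 1 := Fintype.card_subtype_eq _
    have h3 : 0 < Fintype.card (Mon n (n * m)) := Fintype.card_pos_iff.2 ⟨a0 n m⟩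
    rw [h2] at h1
    have h4 : Fintype.card {γ : Mon n (n * m) // γ ≠ a0 n m} =
      Fintype.card (Mon n (n * m)) - 1 := h1
    omega
  have h1 := hli.fintype_card_le_finrank
  have h2 : Fintype.card {γ : Mon n (n * m) // γ ≠ a0 n m} = Module.finrank L (idl m u) := by
    omega
  have hne : Nonempty {γ : Mon n (n * m) // γ ≠ a0 n m} ∨
      IsEmpty {γ : Mon n (n * m) // γ ≠ a0 n m} := (isEmpty_or_nonempty _).symm
  intro q hq
  have h3 : (⟨q, hq⟩ : idl m u) ∈ Submodule.span L (Set.range w) := by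
    rcases hne with hne | hne
    · rw [hli.span_eq_top_of_card_eq_finrank h2]
      trivial
    · rw [Fintype.card_eq_zero] at h2
      have h4 := Module.finrank_zero_iff.1 h2.symm
      have h5 : (⟨q, hq⟩ : idl m u) = 0 := Subsingleton.elim _ _
      rw [h5]
      exact Submodule.zero_mem _
  have h4 := Submodule.mem_map_of_mem (f := (idl m u).subtype) h3
  rw [Submodule.map_span, ← Set.range_comp] at h4
  rw [hw] at h4
  exact h4

theorem lamL_spec {k : K →+* L} {B : Matrix (Fin n) (Fin n) K} {j : Mon n (n * m) → Fin n}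
    (hj : ∀ γ, γ ≠ a0 n m → m + 1 ≤ γ.1 (j γ)) {u : Fin n → MvPolynomial (Fin n) L}
    (hu : ∀ i, (u i).IsHomogeneous (m + 1))
    (hdet : (Mx k B j u).det ≠ 0) (hfin : Module.Finite L (idl m u))
    (hrank : Module.finrank L (idl m u) + 1 ≤ Fintype.card (Mon n (n * m))) :
    (∀ q, q.IsHomogeneous (n * m) → q - C (lamL k B j u q) * (jac u).det ∈ idl m u) ∧
    (∀ q ∈ idl m u, lamL k B j u q = 0) ∧ lamL k B j u (jac u).det = 1 := by
  classical
  refine ⟨fun q hq => ?_, fun q hq => ?_, ?_⟩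
  · obtain ⟨c, hc⟩ := exists_comb hj hu hdet q hq
    have h1 : lamL k B j u q = c (a0 n m) := by
      rw [hc]
      exact lamL_comb hdet c
    rw [h1, ← Wd_a0 k B j u, ← smul_eq_C_mul]
    have h2 : q = c (a0 n m) • Wd k B j u (a0 n m) +
        ∑ γ ∈ Finset.univ.erase (a0 n m), c γ • Wd k B j u γ := by
      exact hc.trans (Finset.add_sum_erase Finset.univ (fun γ => c γ • Wd k B j u γ)
        (Finset.mem_univ (a0 n m))).symm
    have h3 : q - c (a0 n m) • Wd k B j u (a0 n m) =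
        ∑ γ ∈ Finset.univ.erase (a0 n m), c γ • Wd k B j u γ := by
      rw [sub_eq_iff_eq_add, add_comm]
      exact h2
    rw [h3]
    refine Submodule.sum_mem _ fun γ hγ => Submodule.smul_mem _ _ ?_
    exact Wd_mem_idl k B hj u (Finset.ne_of_mem_erase hγ)
  · have h1 := mem_idl_iff hj hdet hfin hrank hq
    have h2 : Submodule.span L (Set.range fun γ : {γ : Mon n (n * m) // γ ≠ a0 n m} =>
        Wd k B j u γ.1) ≤ LinearMap.ker (lamL k B j u) := by
      rw [Submodule.span_le]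
      rintro _ ⟨γ, rfl⟩
      change lamL k B j u (Wd k B j u γ.1) = 0
      rw [lamL_Wd hdet, if_neg γ.2]
    exact h2 h1
  · rw [← Wd_a0 k B j u, lamL_Wd hdet, if_pos rfl]

theorem exists_lift [Algebra K L] (F : IntermediateField K L) (q : MvPolynomial (Fin n) L)
    (hq : ∀ α, coeff α q ∈ F) :
    ∃ q0 : MvPolynomial (Fin n) F, map (algebraMap F L) q0 = q := by
  refine ⟨∑ α ∈ q.support, monomial α ⟨coeff α q, hq α⟩, ?_⟩
  rw [map_sum]
  conv_rhs => rw [← support_sum_monomial_coeff q]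
  exact Finset.sum_congr rfl fun α _ => map_monomial _ _ _

theorem lamL_mem [Algebra K L] (F : IntermediateField K L) (k : K →+* L)
    (hk : k = algebraMap K L) (B : Matrix (Fin n) (Fin n) K) (j : Mon n (n * m) → Fin n)
    (u : Fin n → MvPolynomial (Fin n) L) (hu : ∀ i α, coeff α (u i) ∈ F)
    (q : MvPolynomial (Fin n) L) (hq : ∀ α, coeff α q ∈ F) : lamL k B j u q ∈ F := by
  obtain ⟨q0, hq0⟩ := exists_lift F q hq
  have hf : ∀ i, ∃ g : MvPolynomial (Fin n) F, map (algebraMap F L) g = u i := fun i =>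
    exists_lift F (u i) (hu i)
  choose g hg using hf
  have hk' : (algebraMap F L).comp (algebraMap K F) = k := by
    rw [hk]
    rfl
  have hg' : (fun i => map (algebraMap F L) (g i)) = u := funext hg
  have h1 : lamS k B j u q ∈ F := by
    have h2 := lamS_map (algebraMap F L) (algebraMap K F) B j g q0
    rw [hk', hg', hq0] at h2
    rw [← h2]
    exact (lamS (algebraMap K F) B j g q0).2
  have h2 : (Mx k B j u).det ∈ F := by
    have h3 := map_Mx (algebraMap F L) (algebraMap K F) B j g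
    rw [hk', hg'] at h3
    rw [← h3, ← RingHom.mapMatrix_apply, ← RingHom.map_det]
    exact ((Mx (algebraMap K F) B j g).det).2
  exact F.mul_mem (F.inv_mem h2) h1

theorem lam_unique (l₁ l₂ : MvPolynomial (Fin n) L →ₗ[L] L) (D : MvPolynomial (Fin n) L)
    (I : Submodule L (MvPolynomial (Fin n) L)) (q : MvPolynomial (Fin n) L)
    (h1 : q - C (l₁ q) * D ∈ I) (h2 : ∀ q ∈ I, l₂ q = 0) (h3 : l₂ D = 1) : l₂ q = l₁ q := by
  have h4 := h2 _ h1
  rw [← smul_eq_C_mul, map_sub, map_smul, smul_eq_mul, h3, mul_one, sub_eq_zero] at h4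
  exact h4

theorem lamL_S {S : Type} [CommRing S] (ι : S →+* L) (k : K →+* S) (B : Matrix (Fin n) (Fin n) K)
    (j : Mon n (n * m) → Fin n) (v : Fin n → MvPolynomial (Fin n) S)
    (u : Fin n → MvPolynomial (Fin n) L) (hv : ∀ i, map ι (v i) = u i)
    (hdet : (Mx (ι.comp k) B j u).det ≠ 0) (q : MvPolynomial (Fin n) S) :
    ι (lamS k B j v q) = ι (Mx k B j v).det * lamL (ι.comp k) B j u (map ι q) := by
  have h2 : (fun i => map ι (v i)) = u := funext hv
  have h3 : ι (Mx k B j v).det = (Mx (ι.comp k) B j u).det := by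
    rw [RingHom.map_det, RingHom.mapMatrix_apply, map_Mx, h2]
  rw [lamS_map, h2, h3]
  unfold lamL
  rw [LinearMap.smul_apply, smul_eq_mul, mul_inv_cancel_left₀ hdet]

end field

section special

variable {K : Type} [Field K] [CharZero K] {n m : ℕ}

theorem Mx_pt (h_pt : S_pt) {B : Matrix (Fin n) (Fin n) K} (hB : B.det ≠ 0)
    {j : Mon n (n * m) → Fin n} (hj : ∀ γ, γ ≠ a0 n m → m + 1 ≤ γ.1 (j γ)) :
    Mx (RingHom.id K) B j (form (pt m B)) =
      Matrix.diagonal fun γ : Mon n (n * m) =>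
        if γ = a0 n m then (m + 1 : K) ^ n * B.det else 1 := by
  classical
  obtain ⟨h1, -, h3, -, -⟩ := h_pt K n m B
  ext γ δ
  have hW : Wd (RingHom.id K) B j (form (pt m B)) γ =
      monomial γ.1 (if γ = a0 n m then (m + 1 : K) ^ n * B.det else 1) := by
    unfold Wd
    by_cases hγ : γ = a0 n m
    · rw [if_pos hγ, if_pos hγ, h3, hγ]
      rfl
    · rw [if_neg hγ, if_neg hγ]
      have h4 : ∑ i, C (RingHom.id K (B⁻¹ (j γ) i)) * form (pt m B) i =
          (X (j γ) : MvPolynomial (Fin n) K) ^ (m + 1) := by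
        have h5 : ∀ i, C (RingHom.id K (B⁻¹ (j γ) i)) * form (pt m B) i =
            ∑ l, C (B⁻¹ (j γ) i * B i l) * (X l : MvPolynomial (Fin n) K) ^ (m + 1) := by
          intro i
          rw [h1 i, Finset.mul_sum]
          exact Finset.sum_congr rfl fun l _ => by rw [C_mul, mul_assoc]; rfl
        rw [Finset.sum_congr rfl fun i _ => h5 i, Finset.sum_comm]
        have h6 : ∀ l, ∑ i, C (B⁻¹ (j γ) i * B i l) * (X l : MvPolynomial (Fin n) K) ^ (m + 1) =
            if j γ = l then X l ^ (m + 1) else 0 := by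
          intro l
          rw [← Finset.sum_mul, ← map_sum, ← Matrix.mul_apply,
            Matrix.nonsing_inv_mul _ (isUnit_iff_ne_zero.2 hB), Matrix.one_apply]
          split_ifs
          · rw [C_1, one_mul]
          · rw [C_0, zero_mul]
        rw [Finset.sum_congr rfl fun l _ => h6 l, Finset.sum_ite_eq]
        simp
      rw [h4, X_pow_eq_monomial, monomial_mul, mul_one,
        tsub_add_cancel_of_le (Finsupp.single_le_iff.2 (hj γ hγ))]
  change coeff δ.1 (Wd (RingHom.id K) B j (form (pt m B)) γ) = _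
  rw [hW, coeff_monomial, Matrix.diagonal_apply]
  by_cases h : γ = δ
  · rw [if_pos h, if_pos (congrArg Subtype.val h)]
  · rw [if_neg h, if_neg (fun h' => h (Subtype.ext h'))]

theorem f0_hom (i : Fin n) : (f0 K n m i).IsHomogeneous (m + 1) :=
  tf_hom (fun i => form_hom _ i) i

/-- choice of the variable -/
theorem exists_j (hn : 3 ≤ n) : ∃ j : Mon n (n * m) → Fin n,
    ∀ γ, γ ≠ a0 n m → m + 1 ≤ γ.1 (j γ) := by
  have h : ∀ γ : Mon n (n * m), ∃ i : Fin n, γ ≠ a0 n m → m + 1 ≤ γ.1 i := by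
    intro γ
    by_cases hγ : γ = a0 n m
    · exact ⟨⟨0, by omega⟩, fun h => absurd hγ h⟩
    · obtain ⟨i, hi⟩ := exj γ hγ
      exact ⟨i, fun _ => hi⟩
  choose j hj using h
  exact ⟨j, hj⟩

/-- the embedding of `K` into `L` -/
noncomputable def kL (K : Type) [Field K] (n m : ℕ) : K →+* LL K n m :=
  (algebraMap (SS K n m) (LL K n m)).comp C

theorem kL_eq : kL K n m = algebraMap K (LL K n m) := by
  ext a
  exact (IsScalarTower.algebraMap_apply K (SS K n m) (LL K n m) a).symm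

theorem Mx_S (h_pt : S_pt) (B : Matrix (Fin n) (Fin n) K) (j : Mon n (n * m) → Fin n) :
    (Mx C B j (tf K m (genS K n m))).map (algebraMap (SS K n m) (LL K n m)) =
      Mx (kL K n m) B j (f0 K n m) := by
  rw [map_Mx]
  congr 1
  funext i
  exact (h_pt K n m B).2.2.2.2 i

theorem Mx_ev (h_pt : S_pt) {B : Matrix (Fin n) (Fin n) K} (hB0 : ∀ i, B i i = 0)
    (j : Mon n (n * m) → Fin n) :
    (Mx C B j (tf K m (genS K n m))).map (eval (pt m B)) =
      Mx (RingHom.id K) B j (form (pt m B)) := by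
  rw [map_Mx]
  congr 1
  · ext a
    simp
  · funext i
    exact (h_pt K n m B).2.2.2.1 hB0 i

theorem det_ev (h_pt : S_pt) {B : Matrix (Fin n) (Fin n) K} (hB0 : ∀ i, B i i = 0)
    (hB : B.det ≠ 0) {j : Mon n (n * m) → Fin n}
    (hj : ∀ γ, γ ≠ a0 n m → m + 1 ≤ γ.1 (j γ)) :
    eval (pt m B) (Mx C B j (tf K m (genS K n m))).det = (m + 1 : K) ^ n * B.det := by
  rw [RingHom.map_det, RingHom.mapMatrix_apply, Mx_ev h_pt hB0, Mx_pt h_pt hB hj,
    Matrix.det_diagonal, Finset.prod_ite_eq']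
  simp

theorem t_ne {B : Matrix (Fin n) (Fin n) K} (hB : B.det ≠ 0) :
    (m + 1 : K) ^ n * B.det ≠ 0 := by
  have : (m + 1 : K) ≠ 0 := by exact_mod_cast Nat.succ_ne_zero m
  exact mul_ne_zero (pow_ne_zero _ this) hB

theorem det_L (h_pt : S_pt) {B : Matrix (Fin n) (Fin n) K} (hB0 : ∀ i, B i i = 0)
    (hB : B.det ≠ 0) {j : Mon n (n * m) → Fin n}
    (hj : ∀ γ, γ ≠ a0 n m → m + 1 ≤ γ.1 (j γ)) :
    (Mx (kL K n m) B j (f0 K n m)).det ≠ 0 := by
  rw [← Mx_S h_pt, ← RingHom.mapMatrix_apply, ← RingHom.map_det]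
  intro h
  rw [IsFractionRing.to_map_eq_zero_iff] at h
  have h1 := det_ev h_pt hB0 hB hj
  rw [h, map_zero] at h1
  exact t_ne hB h1.symm

theorem exists_B (hn : 3 ≤ n) : ∃ B : Matrix (Fin n) (Fin n) K, (∀ i, B i i = 0) ∧ B.det ≠ 0 := by
  obtain ⟨k, rfl⟩ : ∃ k, n = k + 2 := ⟨n - 2, by omega⟩
  refine ⟨Equiv.Perm.permMatrix K (finRotate (k + 2)), fun i => ?_, ?_⟩
  · rw [Equiv.Perm.permMatrix, PEquiv.toMatrix_apply, if_neg]
    rw [Equiv.toPEquiv_apply, Option.mem_def, Option.some_inj, finRotate_apply]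
    simp
  · rw [Matrix.det_permutation]
    exact_mod_cast (Units.ne_zero (Equiv.Perm.sign (finRotate (k + 2))))

end special

end Lam35

open Pool.Agent.T2h8.RM.Lam35 in
theorem t_lam (h_rank : S_rank) (_h_spec : S_spec) (h_pt : S_pt) (_h_dec : S_dec) : S_lam := by
  classical
  intro K _ _ n m hn hm
  obtain ⟨hfin, hrank⟩ := h_rank K n m hn hm
  obtain ⟨B₀, hB₀0, hB₀⟩ := exists_B (K := K) hn
  obtain ⟨j, hj⟩ := exists_j (m := m) hn
  have hd₀ := det_L h_pt hB₀0 hB₀ hj
  obtain ⟨p1, p2, p3⟩ := lamL_spec hj (fun i => f0_hom i) hd₀ hfin hrank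
  refine ⟨lamL (kL K n m) B₀ j (f0 K n m), ⟨p1, p2, p3, ?_⟩, ?_⟩
  · intro q _ hq
    exact lamL_mem (L0 K n m) (kL K n m) kL_eq B₀ j (f0 K n m)
      (fun i α => IntermediateField.subset_adjoin _ _ ⟨i, α, rfl⟩) q hq
  · intro B hB0 hB
    have hd := det_L h_pt hB0 hB hj
    obtain ⟨r1, r2, r3⟩ := lamL_spec hj (fun i => f0_hom i) hd hfin hrank
    have huniq : ∀ q : MvPolynomial (Fin n) (LL K n m), q.IsHomogeneous (n * m) →
        lamL (kL K n m) B₀ j (f0 K n m) q = lamL (kL K n m) B j (f0 K n m) q :=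
      fun q hq => lam_unique _ _ _ _ q (r1 q hq) p2 p3
    refine ⟨lamS C B j (tf K m (genS K n m)), (Mx C B j (tf K m (genS K n m))).det, 1, ?_,
      one_ne_zero, fun q hq => ⟨?_, ?_⟩⟩
    · rw [det_ev h_pt hB0 hB hj]
      exact t_ne hB
    · rw [huniq _ (hq.map _)]
      exact lamL_S (algebraMap (SS K n m) (LL K n m)) C B j (tf K m (genS K n m)) (f0 K n m)
        (h_pt K n m B).2.2.2.2 hd q
    · have h1 := lamS_map (eval (pt m B)) C B j (tf K m (genS K n m)) q
      refine h1.trans ?_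
      rw [lamS_apply, ← map_Mx, Mx_ev h_pt hB0, Mx_pt h_pt hB hj, Matrix.adjugate_diagonal]
      rw [Finset.sum_eq_single (a0 n m)]
      · rw [Matrix.diagonal_apply_eq, Finset.prod_congr rfl
          (fun γ hγ => if_neg (Finset.ne_of_mem_erase hγ)), Finset.prod_const_one, mul_one, one_mul]
        rfl
      · intro δ _ hδ
        rw [Matrix.diagonal_apply_ne _ hδ, mul_zero]
      · intro h
        exact absurd (Finset.mem_univ _) h

end Pool.Agent.T2h8.RM
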