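import Mathlib
import Pool.Agent.T2h8.RM.Stm

set_option autoImplicit false

open MvPolynomial

namespace Pool.Agent.T2h8.RM.rank_

section gen

variable {A : Type*} [CommRing A] {n d : ℕ}

lemma coeff_form (c : Idx n d → A) (i : Fin n) (α : Mon n d) : coeff α.1 (form c i) = c (i, α) := by
  classical
  unfold form
  rw [coeff_sum, Finset.sum_eq_single α]
  · rw [coeff_monomial, if_pos rfl]
  · intro β _ hβ
    rw [coeff_monomial, if_neg (fun h => hβ (Subtype.ext h))]
  · intro h
    exact absurd (Finset.mem_univ _) h

lemma form_hom (c : Idx n d → A) (i : Fin n) : (form c i).IsHomogeneous d := by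
  unfold form
  exact IsHomogeneous.sum _ _ _ fun α _ => isHomogeneous_monomial _ α.2

lemma sum_coeff {P : MvPolynomial (Fin n) A} (h : P.IsHomogeneous d) :
    ∑ α : Mon n d, monomial α.1 (coeff α.1 P) = P := by
  classical
  ext γ
  rw [coeff_sum]
  by_cases hγ : γ.degree = d
  · rw [Finset.sum_eq_single (⟨γ, hγ⟩ : Mon n d)]
    · rw [coeff_monomial, if_pos rfl]
    · intro β _ hβ
      rw [coeff_monomial, if_neg]
      intro h'
      exact hβ (Subtype.ext h')
    · intro h'
      exact absurd (Finset.mem_univ _) h'
  · rw [Finset.sum_eq_zero, h.coeff_eq_zero hγ]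
    intro β _
    rw [coeff_monomial, if_neg]
    rintro rfl
    exact hγ β.2

lemma form_coeff {h : Fin n → MvPolynomial (Fin n) A} (hh : ∀ i, (h i).IsHomogeneous d) (i : Fin n) :
    form (fun p : Idx n d => coeff p.2.1 (h p.1)) i = h i := sum_coeff (hh i)

end gen

section lin

variable {L : Type*} [Field L] {n e : ℕ}

/-- the products -/
noncomputable def vv (e : ℕ) (u : Fin n → MvPolynomial (Fin n) L) (p : Idx n e) :
    MvPolynomial (Fin n) L := monomial p.2.1 1 * u p.1

lemma lc_apply (u : Fin n → MvPolynomial (Fin n) L) (c : Idx n e → L) :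
    Fintype.linearCombination L (vv e u) c = ∑ i, form c i * u i := by
  rw [Fintype.linearCombination_apply, Fintype.sum_prod_type]
  refine Finset.sum_congr rfl fun i _ => ?_
  unfold form vv
  rw [Finset.sum_mul]
  refine Finset.sum_congr rfl fun α _ => ?_
  rw [← smul_mul_assoc, smul_monomial, smul_eq_mul, mul_one]

lemma idl_eq (m : ℕ) (u : Fin n → MvPolynomial (Fin n) L) :
    idl m u = LinearMap.range (Fintype.linearCombination L (vv (n * m - (m + 1)) u)) := by
  apply le_antisymm
  · unfold idl
    rw [Submodule.span_le]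
    rintro q ⟨i, h, hh, rfl⟩
    classical
    refine ⟨fun p => if p.1 = i then coeff p.2.1 h else 0, ?_⟩
    rw [lc_apply, Finset.sum_eq_single i]
    · congr 1
      unfold form
      simp only [if_true]
      exact sum_coeff hh
    · intro j _ hj
      unfold form
      simp only [if_neg hj, monomial_zero, Finset.sum_const_zero, zero_mul]
    · intro h'
      exact absurd (Finset.mem_univ _) h'
  · rintro _ ⟨c, rfl⟩
    rw [lc_apply]
    exact Submodule.sum_mem _ fun i _ => Submodule.subset_span ⟨i, _, form_hom c i, rfl⟩

end lin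

lemma f0_hom {K : Type} [Field K] [CharZero K] (n m : ℕ) (i : Fin n) :
    (f0 K n m i).IsHomogeneous (m + 1) := by
  have h1 : ∀ j, (gen K n m j).IsHomogeneous (m + 1) := fun j => form_hom _ j
  unfold f0 tf
  refine IsHomogeneous.sub (h1 i) ?_
  have h2 : (divg (gen K n m)).IsHomogeneous m := by
    unfold divg
    exact IsHomogeneous.sum _ _ _ fun j _ => by simpa using (h1 j).pderiv (i := j)
  have h3 := ((isHomogeneous_C (Fin n) (algebraMap K (LL K n m) ((m + n : K)⁻¹))).mul h2).mul
    (isHomogeneous_X (LL K n m) i)
  simpa using h3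

theorem exB (K : Type) [Field K] (n : ℕ) (hn : 2 ≤ n) :
    ∃ B : Matrix (Fin n) (Fin n) K, (∀ i, B i i = 0) ∧ B.det ≠ 0 := by
  classical
  refine ⟨(1 : Matrix (Fin n) (Fin n) K).submatrix (finRotate n) id, fun i => ?_, ?_⟩
  · rw [Matrix.submatrix_apply, Matrix.one_apply_ne]
    have h := support_finRotate_of_le hn
    have h2 : i ∈ (finRotate n).support := by rw [h]; exact Finset.mem_univ _
    exact Equiv.Perm.mem_support.1 h2
  · rw [Matrix.det_permute]
    rw [Matrix.det_one, mul_one]
    rcases Int.units_eq_one_or (Equiv.Perm.sign (finRotate n)) with h | h <;> rw [h] <;> simp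

theorem t_rank (h_spec : S_spec) (h_pt : S_pt) (h_syz : S_syz) (h_dec : S_dec) : S_rank := by
  intro K _ _ n m hn hm
  classical
  set e := n * m - (m + 1) with he
  have hnm : 2 * (m + 1) ≤ n * m := by nlinarith
  have he2 : m + 1 ≤ e := by omega
  have he3 : e + (m + 1) = n * m := by omega
  rw [idl_eq]
  refine ⟨Module.Finite.range _, ?_⟩
  obtain ⟨B, hB0, hBd⟩ := exB K n (by omega)
  obtain ⟨hp1, -, -, hp4, hp5⟩ := h_pt K n m B
  -- the map over K
  set φK : (Idx n e → K) →ₗ[K] (Mon n (n * m) → K) :=
    (LinearMap.pi fun α : Mon n (n * m) => lcoeff K α.1) ∘ₗ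
      Fintype.linearCombination K (vv e (form (pt m B))) with hφK
  have hφ : ∀ c α, φK c α = coeff α.1 (∑ i, form c i * form (pt m B) i) := by
    intro c α
    rw [hφK, LinearMap.comp_apply, LinearMap.pi_apply, lc_apply]
    rfl
  have hhomK : ∀ c : Idx n e → K, (∑ i, form c i * form (pt m B) i).IsHomogeneous (n * m) := by
    intro c
    refine IsHomogeneous.sum _ _ _ fun i _ => ?_
    have := (form_hom c i).mul (form_hom (pt m B) i)
    rwa [he3] at this
  have hker : ∀ c, φK c = 0 → ∑ i, form c i * form (pt m B) i = 0 := by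
    intro c hc
    rw [← sum_coeff (hhomK c)]
    refine Finset.sum_eq_zero fun α _ => ?_
    rw [← hφ, hc]
    simp
  have hallm : (allm n m).degree = n * m := by
    rw [Finsupp.degree_eq_sum]
    simp [allm]
  have hrng : LinearMap.range φK < ⊤ := by
    rw [lt_top_iff_ne_top]
    intro htop
    have h1 : (Pi.single (⟨allm n m, hallm⟩ : Mon n (n * m)) (1 : K)) ∈ LinearMap.range φK := by
      rw [htop]; trivial
    obtain ⟨c, hc⟩ := h1
    have h2 := congrFun hc ⟨allm n m, hallm⟩
    rw [hφ, Pi.single_eq_same, coeff_sum] at h2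
    rw [Finset.sum_eq_zero fun i _ => (h_dec K n m (by omega) (by omega) B hBd).2 _ i] at h2
    exact zero_ne_one h2
  have hN : Module.finrank K (LinearMap.range φK) < Fintype.card (Mon n (n * m)) := by
    have := Submodule.finrank_lt hrng.ne
    rwa [Module.finrank_fintype_fun_eq_card] at this
  have hrk := LinearMap.finrank_range_add_finrank_ker φK
  rw [Module.finrank_fintype_fun_eq_card] at hrk
  -- the map over L
  set ψ := Fintype.linearCombination (LL K n m) (vv e (f0 K n m)) with hψ
  have hrkL := LinearMap.finrank_range_add_finrank_ker ψ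
  rw [Module.finrank_fintype_fun_eq_card] at hrkL
  suffices hle : Module.finrank K (LinearMap.ker φK) ≤ Module.finrank (LL K n m) (LinearMap.ker ψ) by
    omega
  -- a basis of the kernel over K
  set r := Module.finrank K (LinearMap.ker φK) with hr
  let b := Module.finBasis K (LinearMap.ker φK)
  let h : Fin r → Fin n → MvPolynomial (Fin n) K := fun a i => form (b a : Idx n e → K) i
  have hex : ∀ a, ∃ k : Fin n → Fin n → MvPolynomial (Fin n) K, (∀ i j, k i j = - k j i) ∧
      (∀ i j, (k i j).IsHomogeneous (e - (m + 1))) ∧ ∀ i, h a i = ∑ j, k i j * form (pt m B) j := by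
    intro a
    exact h_syz K n m e B hBd (h a) (fun i => form_hom _ i) (hker _ (b a).2)
  choose k hk1 hk2 hk3 using hex
  have hind : LinearIndependent K (fun a => fun i => h a i) := by
    rw [Fintype.linearIndependent_iff]
    intro g hg a
    have hb := Fintype.linearIndependent_iff.1 b.linearIndependent
    refine hb g ?_ a
    apply Subtype.ext
    funext p
    obtain ⟨i, α⟩ := p
    have h1 := congrArg (fun F => coeff α.1 (F i)) hg
    simp only [Finset.sum_apply, Pi.smul_apply, coeff_sum, coeff_smul, Pi.zero_apply, coeff_zero] at h1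
    have h2 : ∀ a, coeff α.1 (h a i) = (b a : Idx n e → K) (i, α) := fun a => coeff_form _ i α
    simp only [h2] at h1
    simp only [Submodule.coe_sum, Submodule.coe_smul, Finset.sum_apply, Pi.smul_apply]
    simpa using h1
  have hsp := h_spec K (Idx n (m + 1)) n r n
    (fun a i => ∑ j, map C (k a i j) * tf K m (genS K n m) j) (pt m B) (by
      have h1 : (fun a => fun i => map (eval (pt m B))
          (∑ j, map C (k a i j) * tf K m (genS K n m) j)) = fun a => fun i => h a i := by
        funext a i
        rw [hk3, map_sum]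
        refine Finset.sum_congr rfl fun j _ => ?_
        rw [map_mul, hp4 hB0 j, map_map]
        congr 1
        have h2 : (eval (pt m B)).comp (C : K →+* SS K n m) = RingHom.id K := by
          ext x
          simp
        rw [h2, map_id]
      rw [h1]
      exact hind)
  -- the kernel vectors over L
  set t : Fin r → Fin n → MvPolynomial (Fin n) (LL K n m) := fun a i =>
    ∑ j, map ((algebraMap (SS K n m) (LL K n m)).comp C) (k a i j) * f0 K n m j with ht
  have ht1 : ∀ a i, map (algebraMap (SS K n m) (LL K n m))
      (∑ j, map C (k a i j) * tf K m (genS K n m) j) = t a i := by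
    intro a i
    rw [ht, map_sum]
    refine Finset.sum_congr rfl fun j _ => ?_
    rw [map_mul, hp5, map_map]
  have hsp' : LinearIndependent (LL K n m) (fun a => fun i => t a i) := by
    have h1 : (fun a => fun i => t a i) = fun a => fun i => map (algebraMap (SS K n m) (LL K n m))
      (∑ j, map C (k a i j) * tf K m (genS K n m) j) := by
      funext a i
      exact (ht1 a i).symm
    rw [h1]
    exact hsp
  have hthom : ∀ a i, (t a i).IsHomogeneous e := by
    intro a i
    refine IsHomogeneous.sum _ _ _ fun j _ => ?_
    have h1 := ((hk2 a i j).map ((algebraMap (SS K n m) (LL K n m)).comp C)).mul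
      (f0_hom (K := K) n m j)
    have h2 : e - (m + 1) + (m + 1) = e := by omega
    rwa [h2] at h1
  have htker : ∀ a, ∑ i, t a i * f0 K n m i = 0 := by
    intro a
    have h1 : ∑ i, t a i * f0 K n m i = ∑ i, ∑ j,
        map ((algebraMap (SS K n m) (LL K n m)).comp C) (k a i j) * (f0 K n m j * f0 K n m i) := by
      refine Finset.sum_congr rfl fun i _ => ?_
      rw [ht, Finset.sum_mul]
      exact Finset.sum_congr rfl fun j _ => by ring
    have h2 : ∑ i, t a i * f0 K n m i = - ∑ i, t a i * f0 K n m i := by
      conv_lhs => rw [h1, Finset.sum_comm]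
      rw [h1, ← Finset.sum_neg_distrib]
      refine Finset.sum_congr rfl fun i _ => ?_
      rw [← Finset.sum_neg_distrib]
      refine Finset.sum_congr rfl fun j _ => ?_
      rw [hk1 a j i, map_neg]
      ring
    have h3 : (2 : MvPolynomial (Fin n) (LL K n m)) * ∑ i, t a i * f0 K n m i = 0 := by
      rw [two_mul]
      nth_rewrite 1 [h2]
      ring
    rcases mul_eq_zero.1 h3 with h4 | h4
    · exfalso
      have : CharZero (LL K n m) := charZero_of_injective_algebraMap (algebraMap K (LL K n m)).injective
      exact two_ne_zero h4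
    · exact h4
  let w : Fin r → LinearMap.ker ψ := fun a => ⟨fun p => coeff p.2.1 (t a p.1), by
    rw [LinearMap.mem_ker, hψ, lc_apply]
    rw [← htker a]
    exact Finset.sum_congr rfl fun i _ => by rw [form_coeff (hthom a) i]⟩
  have hw : LinearIndependent (LL K n m) w := by
    rw [Fintype.linearIndependent_iff]
    intro g hg a
    refine Fintype.linearIndependent_iff.1 hsp' g ?_ a
    funext i
    have h1 : ∀ a, t a i = ∑ α : Mon n e, monomial α.1 ((w a : Idx n e → LL K n m) (i, α)) := fun a =>
      (sum_coeff (hthom a i)).symm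
    simp only [Finset.sum_apply, Pi.smul_apply, Pi.zero_apply]
    have h2 : ∑ a, g a • t a i = ∑ α : Mon n e, monomial α.1 (∑ a, g a * (w a : Idx n e → LL K n m) (i, α)) := by
      have h3 : ∀ a, g a • t a i = ∑ α : Mon n e, monomial α.1 (g a * (w a : Idx n e → LL K n m) (i, α)) := by
        intro a
        rw [h1 a, Finset.smul_sum]
        exact Finset.sum_congr rfl fun α _ => by rw [smul_monomial, smul_eq_mul]
      simp only [h3]
      rw [Finset.sum_comm]
      exact Finset.sum_congr rfl fun α _ => by rw [map_sum]
    rw [h2]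
    refine Finset.sum_eq_zero fun α _ => ?_
    have h4 := congrArg (fun F : LinearMap.ker ψ => (F : Idx n e → LL K n m) (i, α)) hg
    simp only [Submodule.coe_sum, Submodule.coe_smul, Finset.sum_apply, Pi.smul_apply, smul_eq_mul] at h4
    rw [h4]
    simp
  have := hw.fintype_card_le_finrank
  simpa using this

end Pool.Agent.T2h8.RM.rank_
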