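import Pool.Agent.T2h8.RM.Stm

/-! # span: the equivariant matrices span all matrices -/

set_option autoImplicit false

open MvPolynomial

namespace Pool.Agent.T2h8.RM.span_

open Pool.Agent.T2h8.RM

variable {K : Type} [Field K] {n m : ℕ}

theorem eqM_one : EqM (1 : Matrix (Fin n) (Fin n) (LL K n m)) := by
  refine ⟨fun i j => ?_, fun g => ?_⟩
  · rw [Matrix.one_apply]
    split_ifs
    · exact one_mem _
    · exact zero_mem _
  · rw [Matrix.map_one _ (map_zero _) (map_one _), mul_one, ← Matrix.map_mul]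
    have : g.1 * (g⁻¹).1 = 1 := by
      rw [← Units.val_mul, mul_inv_cancel, Units.val_one]
    rw [this, Matrix.map_one _ (map_zero _) (map_one _)]

theorem eqM_mul {A A' : Matrix (Fin n) (Fin n) (LL K n m)} (h : EqM A) (h' : EqM A') :
    EqM (A * A') := by
  refine ⟨fun i j => ?_, fun g => ?_⟩
  · rw [Matrix.mul_apply]
    exact sum_mem fun k _ => mul_mem (h.1 i k) (h'.1 k j)
  · have e : (g⁻¹).1.map (algebraMap K (LL K n m)) * g.1.map (algebraMap K (LL K n m)) = 1 := by
      rw [← Matrix.map_mul]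
      have : (g⁻¹).1 * g.1 = 1 := by
        rw [← Units.val_mul, inv_mul_cancel, Units.val_one]
      rw [this, Matrix.map_one _ (map_zero _) (map_one _)]
    rw [Matrix.map_mul, h.2 g, h'.2 g]
    calc g.1.map (algebraMap K (LL K n m)) * A * (g⁻¹).1.map (algebraMap K (LL K n m)) *
          (g.1.map (algebraMap K (LL K n m)) * A' * (g⁻¹).1.map (algebraMap K (LL K n m)))
        = g.1.map (algebraMap K (LL K n m)) * A * ((g⁻¹).1.map (algebraMap K (LL K n m)) *
          g.1.map (algebraMap K (LL K n m))) * A' * (g⁻¹).1.map (algebraMap K (LL K n m)) := by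
          simp only [Matrix.mul_assoc]
      _ = _ := by
          rw [e, mul_one]
          simp only [Matrix.mul_assoc]

theorem t_span (h_lam : S_lam) (h_AE : S_AE) (h_AS : S_AS) (h_goodB : S_goodB)
    (h_genK : S_genK) (h_genL : S_genL) : S_span := by
  intro K _ _ n m hn hm
  obtain ⟨B, hB0, hBdet, hBij, hhc, haa, hinj⟩ := h_goodB K n hn
  obtain ⟨lam, hlam, hsp⟩ := h_lam K n m hn hm
  obtain ⟨P, Q, δ, ε, c, c', hδ, hε, hc, hc', hP, hQ, hPe, hQe⟩ :=
    h_AS K n m hn hm lam B hB0 hBdet (hsp B hB0 hBdet)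
  obtain ⟨hA1, hA2⟩ := h_AE K n m hn hm lam hlam
  have h1 : Algebra.adjoin K {P.map (eval (pt m B)), Q.map (eval (pt m B))} = ⊤ := by
    rw [hPe, hQe]
    refine h_genK K n B (hh B) (fun b => ∏ k ∈ Finset.univ.erase b, aa B k) c c' hBdet hBij hhc hc
      hc' ?_
    intro i j hij
    apply hinj
    have hp : ∀ b, (∏ k ∈ Finset.univ.erase b, aa B k) / hh B b =
        (∏ k, aa B k) / (aa B b * hh B b) := by
      intro b
      rw [← Finset.mul_prod_erase _ _ (Finset.mem_univ b), mul_div_mul_left _ _ (haa b)]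
    have hpi : ∏ k, aa B k ≠ 0 := Finset.prod_ne_zero_iff.2 fun k _ => haa k
    simp only [hp] at hij
    show aa B i * hh B i = aa B j * hh B j
    have hi : aa B i * hh B i ≠ 0 := mul_ne_zero (haa i) (hhc i)
    have hj : aa B j * hh B j ≠ 0 := mul_ne_zero (haa j) (hhc j)
    rw [div_eq_div_iff hi hj] at hij
    exact (mul_left_cancel₀ hpi hij).symm
  have h2 := h_genL K (Idx n (m + 1)) n P Q (pt m B) h1
  let V : Submodule (LL K n m) (Matrix (Fin n) (Fin n) (LL K n m)) :=
    Submodule.span (LL K n m) {A : Matrix (Fin n) (Fin n) (LL K n m) | EqM A}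
  let W : Subalgebra (LL K n m) (Matrix (Fin n) (Fin n) (LL K n m)) :=
    V.toSubalgebra (Submodule.subset_span eqM_one) (by
      intro x y hx hy
      have h3 : x * y ∈ V * V := Submodule.mul_mem_mul hx hy
      have h4 : V * V ≤ V := by
        show Submodule.span _ _ * Submodule.span _ _ ≤ _
        rw [Submodule.span_mul_span]
        apply Submodule.span_mono
        rintro _ ⟨a, ha, b, hb, rfl⟩
        exact eqM_mul ha hb
      exact h4 h3)
  have h3 : Algebra.adjoin (LL K n m)
      {P.map (algebraMap (SS K n m) (LL K n m)), Q.map (algebraMap (SS K n m) (LL K n m))} ≤ W := by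
    rw [Algebra.adjoin_le_iff]
    intro x hx
    show x ∈ V
    rcases hx with hx | hx
    · rw [hx, hP]
      exact Submodule.smul_mem _ _ (Submodule.subset_span hA1)
    · rw [Set.mem_singleton_iff.1 hx, hQ]
      exact Submodule.smul_mem _ _ (Submodule.subset_span hA2)
  rw [eq_top_iff]
  intro x _
  have h4 : x ∈ Algebra.adjoin (LL K n m)
      {P.map (algebraMap (SS K n m) (LL K n m)), Q.map (algebraMap (SS K n m) (LL K n m))} := by
    rw [h2]
    trivial
  exact h3 h4

end Pool.Agent.T2h8.RM.span_
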