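import Pool.Agent.T2h8.RM.T_dec

set_option autoImplicit false

/-!
# Task syz
-/

open MvPolynomial

namespace Pool.Agent.T2h8.RM

namespace Syz

variable {K : Type} [Field K] {n M : ℕ}

theorem coeff_mul_X_pow' (p : MvPolynomial (Fin n) K) (j : Fin n) (M : ℕ) (t : Fin n →₀ ℕ) :
    coeff t (p * X j ^ M) =
      if Finsupp.single j M ≤ t then coeff (t - Finsupp.single j M) p else 0 := by
  rw [X_pow_eq_monomial, coeff_mul_monomial']
  simp only [mul_one]

/-- division by the power of another variable -/
theorem div_mul (g : MvPolynomial (Fin n) K) {a j : Fin n} (haj : a ≠ j) (M : ℕ) :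
    (g * X j ^ M).divMonomial (Finsupp.single a M) = g.divMonomial (Finsupp.single a M) * X j ^ M := by
  ext t
  rw [coeff_divMonomial, coeff_mul_X_pow', coeff_mul_X_pow', coeff_divMonomial]
  have h1 : Finsupp.single j M ≤ Finsupp.single a M + t ↔ Finsupp.single j M ≤ t := by
    rw [Finsupp.single_le_iff, Finsupp.single_le_iff, Finsupp.add_apply,
      Finsupp.single_eq_of_ne haj.symm, zero_add]
  by_cases h : Finsupp.single j M ≤ t
  · rw [if_pos h, if_pos (h1.2 h)]
    congr 1
    exact add_tsub_assoc_of_le h _
  · rw [if_neg h, if_neg (fun h2 => h (h1.1 h2))]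

theorem core (s : Finset (Fin n)) : ∀ h : Fin n → MvPolynomial (Fin n) K,
    ∑ j ∈ s, h j * X j ^ M = 0 →
    ∃ k : Fin n → Fin n → MvPolynomial (Fin n) K, (∀ i j, k i j = - k j i) ∧
      ∀ i ∈ s, h i = ∑ j ∈ s, k i j * X j ^ M := by
  classical
  induction s using Finset.induction_on with
  | empty =>
    intro h _
    exact ⟨fun _ _ => 0, fun _ _ => by simp, fun i hi => absurd hi (Finset.notMem_empty i)⟩
  | insert a s ha ih =>
    intro h hs
    rw [Finset.sum_insert ha] at hs
    -- the coefficient of the new variable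
    set q : Fin n → MvPolynomial (Fin n) K := fun j => - (h j).divMonomial (Finsupp.single a M)
      with hq
    have hha : h a = ∑ j ∈ s, q j * X j ^ M := by
      have h1 : h a * X a ^ M = ∑ j ∈ s, (- h j) * X j ^ M := by
        have := eq_neg_of_add_eq_zero_left hs
        rw [this, ← Finset.sum_neg_distrib]
        refine Finset.sum_congr rfl fun j _ => ?_
        ring
      have h2 : (h a * X a ^ M).divMonomial (Finsupp.single a M) = h a := by
        rw [X_pow_eq_monomial, divMonomial_mul_monomial]
      rw [← h2, h1]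
      ext t
      rw [coeff_divMonomial, coeff_sum, coeff_sum]
      refine Finset.sum_congr rfl fun j hj => ?_
      have haj : a ≠ j := fun h3 => ha (h3 ▸ hj)
      rw [← coeff_divMonomial, div_mul _ haj]
      congr 2
      rw [hq]
      ext u
      simp [coeff_divMonomial]
    obtain ⟨k', hk1, hk2⟩ := ih (fun j => h j + q j * X a ^ M) (by
      have h3 : ∑ j ∈ s, (h j + q j * X a ^ M) * X j ^ M =
          ∑ j ∈ s, h j * X j ^ M + h a * X a ^ M := by
        rw [hha, Finset.sum_mul, ← Finset.sum_add_distrib]
        refine Finset.sum_congr rfl fun j _ => ?_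
        ring
      rw [h3, add_comm]
      exact hs)
    refine ⟨fun i j => if i = a then (if j = a then 0 else q j) else
      if j = a then - q i else k' i j, fun i j => ?_, fun i hi => ?_⟩
    · dsimp only
      by_cases hi : i = a
      · by_cases hj : j = a
        · simp [hi, hj]
        · simp [hi, hj]
      · by_cases hj : j = a
        · simp [hi, hj]
        · simp only [hi, hj, if_false]
          exact hk1 i j
    · dsimp only
      rw [Finset.sum_insert ha]
      by_cases hia : i = a
      · subst hia
        simp only [if_true, zero_mul, zero_add]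
        rw [hha]
        refine Finset.sum_congr rfl fun j hj => ?_
        have : j ≠ i := fun h3 => ha (h3 ▸ hj)
        rw [if_neg this]
      · have his : i ∈ s := Finset.mem_of_mem_insert_of_ne hi hia
        simp only [hia, if_false, if_true]
        have h4 : ∑ j ∈ s, (if j = a then - q i else k' i j) * X j ^ M =
            ∑ j ∈ s, k' i j * X j ^ M := by
          refine Finset.sum_congr rfl fun j hj => ?_
          have : j ≠ a := fun h3 => ha (h3 ▸ hj)
          rw [if_neg this]
        rw [h4, ← hk2 i his]
        ring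

theorem homog (e : ℕ) (h : Fin n → MvPolynomial (Fin n) K) (hh : ∀ i, (h i).IsHomogeneous e)
    (h0 : ∑ j, h j * X j ^ M = 0) :
    ∃ k : Fin n → Fin n → MvPolynomial (Fin n) K, (∀ i j, k i j = - k j i) ∧
      (∀ i j, (k i j).IsHomogeneous (e - M)) ∧ ∀ i, h i = ∑ j, k i j * X j ^ M := by
  classical
  obtain ⟨k, hk1, hk2⟩ := core (M := M) Finset.univ h h0
  have hdeg : ∀ (t : Fin n →₀ ℕ) (j : Fin n), Finsupp.single j M ≤ t →
      (t - Finsupp.single j M).degree + M = t.degree := by
    intro t j hj
    have h1 := congrArg Finsupp.degree (tsub_add_cancel_of_le hj)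
    rwa [map_add, Finsupp.degree_single] at h1
  have hz : ∀ (i : Fin n) (t : Fin n →₀ ℕ), t.degree ≠ e → coeff t (h i) = 0 := by
    intro i t ht
    by_contra hne
    apply ht
    have := hh i hne
    rwa [Finsupp.degree_eq_weight_one]
  by_cases hM : M ≤ e
  · refine ⟨fun i j => homogeneousComponent (e - M) (k i j), fun i j => ?_,
      fun i j => homogeneousComponent_isHomogeneous _ _, fun i => ?_⟩
    · dsimp only
      rw [hk1 i j, map_neg]
    · ext t
      rw [coeff_sum]
      by_cases ht : t.degree = e
      · rw [hk2 i (Finset.mem_univ i), coeff_sum]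
        refine Finset.sum_congr rfl fun j _ => ?_
        rw [coeff_mul_X_pow', coeff_mul_X_pow']
        split_ifs with hj
        · rw [coeff_homogeneousComponent, if_pos]
          have := hdeg t j hj
          omega
        · rfl
      · rw [hz i t ht]
        symm
        refine Finset.sum_eq_zero fun j _ => ?_
        rw [coeff_mul_X_pow']
        split_ifs with hj
        · rw [coeff_homogeneousComponent, if_neg]
          have := hdeg t j hj
          omega
        · rfl
  · refine ⟨fun _ _ => 0, fun _ _ => by simp, fun _ _ => isHomogeneous_zero _ _ _, fun i => ?_⟩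
    simp only [zero_mul, Finset.sum_const_zero]
    ext t
    rw [coeff_zero]
    by_cases ht : t.degree = e
    · rw [hk2 i (Finset.mem_univ i), coeff_sum]
      refine Finset.sum_eq_zero fun j _ => ?_
      rw [coeff_mul_X_pow', if_neg]
      intro hj
      have := hdeg t j hj
      omega
    · exact hz i t ht

end Syz

theorem t_syz : S_syz := by
  intro K _ _ n m e B hB h hh h0
  have h1 : ∑ j, (∑ i, h i * C (B i j)) * X j ^ (m + 1) = 0 := by
    rw [← h0]
    simp only [Dec.form_pt, Finset.sum_mul, Finset.mul_sum]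
    rw [Finset.sum_comm]
    refine Finset.sum_congr rfl fun i _ => Finset.sum_congr rfl fun j _ => ?_
    rw [mul_assoc]
  obtain ⟨k, hk1, hk2, hk3⟩ := Syz.homog (M := m + 1) e (fun j => ∑ i, h i * C (B i j))
    (fun j => IsHomogeneous.sum _ _ _ fun i _ => by
      have := (hh i).mul (isHomogeneous_C (Fin n) (B i j))
      rwa [add_zero] at this) h1
  have hBB : B * B⁻¹ = 1 := Matrix.mul_nonsing_inv B (isUnit_iff_ne_zero.2 hB)
  have h2 : ∀ i, h i = ∑ j, (∑ p, h p * C (B p j)) * C (B⁻¹ j i) := by
    intro i
    simp only [Finset.sum_mul]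
    rw [Finset.sum_comm]
    have h3 : ∀ p : Fin n, ∑ j, h p * C (B p j) * C (B⁻¹ j i) =
        h p * C ((1 : Matrix (Fin n) (Fin n) K) p i) := by
      intro p
      rw [← hBB, Matrix.mul_apply, map_sum, Finset.mul_sum]
      refine Finset.sum_congr rfl fun j _ => ?_
      rw [map_mul, mul_assoc]
    rw [Finset.sum_congr rfl (fun p _ => h3 p), Finset.sum_eq_single i]
    · rw [Matrix.one_apply_eq, map_one, mul_one]
    · intro b _ hb
      rw [Matrix.one_apply_ne hb, map_zero, mul_zero]
    · intro h4
      exact absurd (Finset.mem_univ _) h4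
  refine ⟨fun i p => ∑ j, ∑ l, C (B⁻¹ j i) * k j l * C (B⁻¹ l p), fun i p => ?_, fun i p => ?_,
    fun i => ?_⟩
  · dsimp only
    rw [Finset.sum_comm, ← Finset.sum_neg_distrib]
    refine Finset.sum_congr rfl fun j _ => ?_
    rw [← Finset.sum_neg_distrib]
    refine Finset.sum_congr rfl fun l _ => ?_
    rw [hk1 l j]
    ring
  · refine IsHomogeneous.sum _ _ _ fun j _ => IsHomogeneous.sum _ _ _ fun l _ => ?_
    have := ((isHomogeneous_C (Fin n) (B⁻¹ j i)).mul (hk2 j l)).mul
      (isHomogeneous_C (Fin n) (B⁻¹ l p))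
    rwa [zero_add, add_zero] at this
  · rw [h2 i]
    have h5 : ∀ j, ∑ p, h p * C (B p j) = ∑ l, k j l * X l ^ (m + 1) := hk3
    have h6 : ∑ p, (∑ j, ∑ l, C (B⁻¹ j i) * k j l * C (B⁻¹ l p)) * form (pt m B) p =
        ∑ j, ∑ l, ∑ p, C (B⁻¹ j i) * k j l * C (B⁻¹ l p) * form (pt m B) p := by
      simp only [Finset.sum_mul]
      rw [Finset.sum_comm]
      exact Finset.sum_congr rfl fun j _ => Finset.sum_comm
    rw [h6]
    refine Finset.sum_congr rfl fun j _ => ?_
    rw [h5 j, Finset.sum_mul]
    refine Finset.sum_congr rfl fun l _ => ?_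
    rw [Dec.pow_eq B hB l, Finset.mul_sum, Finset.sum_mul]
    refine Finset.sum_congr rfl fun p _ => ?_
    ring

end Pool.Agent.T2h8.RM
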