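import Mathlib
import Pool.Agent.T2h8.RM.Stm
import Pool.Agent.T2h8.RM.SbsL

set_option autoImplicit false

open MvPolynomial

namespace Pool.Agent.T2h8.RM.t_

open SbsL_

lemma prod_zpow_sum {F ι : Type*} [Field F] (d : F) (hd : d ≠ 0) (s : Finset ι) (b : ι → ℤ) :
    ∏ j ∈ s, d ^ b j = d ^ ∑ j ∈ s, b j := by
  classical
  induction s using Finset.induction_on with
  | empty => simp
  | insert j s hj ih => rw [Finset.prod_insert hj, Finset.sum_insert hj, ih, zpow_add₀ hd]

lemma expand {A : Type*} [CommRing A] {n m : ℕ} (P : MvPolynomial (Fin n) A)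
    (hP : P.IsHomogeneous m) : P = ∑ β : Mon n m, coeff β.1 P • monomial β.1 (1 : A) := by
  classical
  ext α
  rw [coeff_sum]
  simp only [coeff_smul, coeff_monomial, smul_eq_mul, mul_ite, mul_one, mul_zero]
  by_cases h : α.degree = m
  · rw [Finset.sum_eq_single (⟨α, h⟩ : Mon n m)]
    · simp
    · intro β _ hβ
      rw [if_neg]
      intro h2; exact hβ (Subtype.ext h2)
    · simp
  · rw [hP.coeff_eq_zero h]
    symm
    apply Finset.sum_eq_zero
    intro β _
    rw [if_neg]
    rintro h2; exact h (h2 ▸ β.2)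

lemma weight_dvd {n m : ℕ} (hn : 4 ≤ n) (a : Fin n → ℤ) (h : ∀ i j, (m : ℤ) ∣ a i - a j)
    (α : Mon n m) : (m : ℤ) ∣ ∑ j, (α.1 j : ℤ) * a j := by
  have i0 : Fin n := ⟨0, by omega⟩
  have h1 : ∑ j, (α.1 j : ℤ) * a j = ∑ j, (α.1 j : ℤ) * (a j - a i0) + m * a i0 := by
    have h2 : ((∑ j, α.1 j : ℕ) : ℤ) = m := by
      have := α.2
      rw [Finsupp.degree_eq_sum] at this
      exact_mod_cast this
    rw [← h2]
    push_cast
    rw [Finset.sum_mul, ← Finset.sum_add_distrib]
    refine Finset.sum_congr rfl fun j _ => by ring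
  rw [h1]
  refine dvd_add (Finset.dvd_sum fun j _ => (h j i0).mul_left _) (dvd_mul_right _ _)

theorem t_t (h_f0 : S_f0) (h_chain : S_chain) : S_t := by
  classical
  intro K _ _ n m hn hm a M hF ha1 hadiv
  obtain ⟨hdet, hML, hg⟩ := hF
  obtain ⟨hf0h, hFhh, hdiv, hgf⟩ := h_f0 K n m (by omega)
  have hm0 : (m : ℤ) ≠ 0 := by omega
  -- the exponents
  have hs : ∀ α : Mon n m, ∃ s : ℤ, ∑ j, (α.1 j : ℤ) * a j = m * s := fun α =>
    weight_dvd hn a hadiv α
  choose s hs using hs
  -- M and its inverse over L0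
  obtain ⟨M', hM'⟩ := exists_mapM (L0 K n m) M hML
  have hdetL : M.det ∈ L0 K n m := by
    rw [hM', ← RingHom.mapMatrix_apply, ← RingHom.map_det]
    exact (M'.det).2
  have hdu : IsUnit M.det := isUnit_iff_ne_zero.2 hdet
  have hdet' : M'.det ≠ 0 := by
    intro h
    apply hdet
    rw [hM', ← RingHom.mapMatrix_apply, ← RingHom.map_det, h, map_zero]
  have hMiL : ∀ i j, M⁻¹ i j ∈ L0 K n m := by
    intro i j
    have h1 : M * (M'⁻¹).map (algebraMap (L0 K n m) (LL K n m)) = 1 := by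
      conv_lhs => rw [hM']
      rw [← Matrix.map_mul, Matrix.mul_nonsing_inv _ (isUnit_iff_ne_zero.2 hdet'),
        Matrix.map_one _ (map_zero _) (map_one _)]
    rw [Matrix.inv_eq_right_inv h1, Matrix.map_apply]
    exact (M'⁻¹ i j).2
  -- the matrices
  let W0 : Matrix (Mon n m) (Mon n m) (LL K n m) :=
    Matrix.of fun α β => coeff α.1 (sbs M (monomial β.1 1))
  let W1 : Matrix (Mon n m) (Mon n m) (LL K n m) :=
    Matrix.of fun α β => coeff α.1 (sbs M⁻¹ (monomial β.1 1))
  have hmon : ∀ (β : Mon n m) (α : Fin n →₀ ℕ),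
      coeff α (monomial β.1 (1 : LL K n m)) ∈ L0 K n m := by
    intro β α
    rw [coeff_monomial]
    split_ifs
    · exact one_mem _
    · exact zero_mem _
  have hW0L : ∀ α β, W0 α β ∈ L0 K n m := fun α β => sbs_coeff_mem _ M hML _ (hmon β) _
  have hW1L : ∀ α β, W1 α β ∈ L0 K n m := fun α β => sbs_coeff_mem _ M⁻¹ hMiL _ (hmon β) _
  have hW01 : W0 * W1 = 1 := by
    ext α γ
    rw [Matrix.mul_apply]
    have h1 : sbs M (sbs M⁻¹ (monomial γ.1 (1 : LL K n m))) = monomial γ.1 1 := by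
      rw [sbs_sbs, Matrix.nonsing_inv_mul _ hdu, sbs_one]
    have h2 : (sbs M⁻¹ (monomial γ.1 (1 : LL K n m))).IsHomogeneous m :=
      sbs_homog _ (isHomogeneous_monomial _ γ.2)
    rw [expand _ h2, map_sum] at h1
    have h3 := congrArg (coeff α.1) h1
    rw [coeff_sum] at h3
    simp only [map_smul, coeff_smul, smul_eq_mul] at h3
    calc ∑ β, W0 α β * W1 β γ = ∑ β : Mon n m, coeff β.1 (sbs M⁻¹ (monomial γ.1 (1 : LL K n m))) *
          coeff α.1 (sbs M (monomial β.1 (1 : LL K n m))) :=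
            Finset.sum_congr rfl fun β _ => mul_comm _ _
      _ = coeff α.1 (monomial γ.1 (1 : LL K n m)) := h3
      _ = (1 : Matrix (Mon n m) (Mon n m) (LL K n m)) α γ := by
        rw [coeff_monomial, Matrix.one_apply]
        by_cases h : α = γ
        · subst h; simp
        · rw [if_neg h, if_neg]
          intro h4; exact h (Subtype.ext h4.symm)
  -- the coefficients of ψ
  have hψ : ∀ α : Mon n m, coeff α.1 (sbs M (Fh K n m)) =
      ∑ β, W0 α β * coeff β.1 (Fh K n m) := by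
    intro α
    conv_lhs => rw [expand _ hFhh, map_sum, coeff_sum]
    refine Finset.sum_congr rfl fun β _ => ?_
    rw [map_smul, coeff_smul, smul_eq_mul, mul_comm]; rfl
  -- action on M
  have hgM : ∀ g : GL (Fin n) K, M.map (sg (m := m) g) =
      g.1.map (algebraMap K (LL K n m)) * (M * Matrix.diagonal
        (fun j => algebraMap K (LL K n m) (g.1.det ^ a j))) := by
    intro g
    ext i j
    rw [Matrix.map_apply, hg, ← mul_assoc, Matrix.mul_diagonal, Matrix.mul_apply, mul_comm]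
    rfl
  have hgdet0 : ∀ g : GL (Fin n) K, g.1.det ≠ 0 := fun g => by
    have := (Matrix.isUnit_iff_isUnit_det _).1 g.isUnit
    exact this.ne_zero
  have hgdet : ∀ g : GL (Fin n) K, sg g M.det =
      algebraMap K (LL K n m) (g.1.det ^ (m : ℤ)) * M.det := by
    intro g
    have h1 : sg g M.det = (M.map (sg (m := m) g)).det := by
      have := (sg (m := m) g).toRingHom.map_det M
      exact this
    rw [h1, hgM, Matrix.det_mul, Matrix.det_mul, Matrix.det_diagonal]
    have h2 : (g.1.map (algebraMap K (LL K n m))).det = algebraMap K (LL K n m) g.1.det := by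
      rw [RingHom.map_det]; rfl
    rw [h2, ← map_prod, prod_zpow_sum _ (hgdet0 g), ← ha1, zpow_add₀ (hgdet0 g), zpow_one, map_mul]
    ring
  have hgψ : ∀ (g : GL (Fin n) K) (α : Mon n m), sg g (coeff α.1 (sbs M (Fh K n m))) =
      algebraMap K (LL K n m) (g.1.det ^ ((m : ℤ) * s α)) * coeff α.1 (sbs M (Fh K n m)) := by
    intro g α
    have h1 : sg g (coeff α.1 (sbs M (Fh K n m))) =
        coeff α.1 (map (sg (m := m) g).toRingHom (sbs M (Fh K n m))) := by
      rw [coeff_map]; rfl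
    have h2 : M.map (sg (m := m) g).toRingHom = M.map (sg (m := m) g) := rfl
    have h3 : sbs (g.1.map (algebraMap K (LL K n m)))
        (map (sg (m := m) g).toRingHom (Fh K n m)) = Fh K n m := (hgf g).2.1
    rw [h1, ← sbs_map, h2, hgM, ← sbs_sbs, h3, ← sbs_sbs, sbs_diag]
    congr 1
    rw [← hs α, ← prod_zpow_sum _ (hgdet0 g), map_prod]
    refine Finset.prod_congr rfl fun j _ => ?_
    rw [← map_pow, ← zpow_natCast, ← zpow_mul, mul_comm]
  refine ⟨fun α => M.det ^ (-s α) * coeff α.1 (sbs M (Fh K n m)),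
    Matrix.of fun α β => M.det ^ (-s α) * W0 α β,
    Matrix.of fun α β => W1 α β * M.det ^ (s β), ?_, ?_, ?_, ?_⟩
  · intro α
    show ∀ g : GL (Fin n) K, _
    intro g
    rw [map_mul, map_zpow₀, hgdet, hgψ, mul_zpow, ← map_zpow₀, ← zpow_mul]
    have h1 : algebraMap K (LL K n m) (g.1.det ^ ((m : ℤ) * -s α)) *
        algebraMap K (LL K n m) (g.1.det ^ ((m : ℤ) * s α)) = 1 := by
      rw [← map_mul, ← zpow_add₀ (hgdet0 g)]
      simp
    calc _ = (algebraMap K (LL K n m) (g.1.det ^ ((m : ℤ) * -s α)) *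
        algebraMap K (LL K n m) (g.1.det ^ ((m : ℤ) * s α))) *
          (M.det ^ (-s α) * coeff α.1 (sbs M (Fh K n m))) := by ring
      _ = _ := by rw [h1, one_mul]
  · intro α β
    exact ⟨mul_mem (zpow_mem hdetL _) (hW0L α β), mul_mem (hW1L α β) (zpow_mem hdetL _)⟩
  · ext α γ
    rw [Matrix.mul_apply]
    simp only [Matrix.of_apply]
    have h1 : ∑ β, M.det ^ (-s α) * W0 α β * (W1 β γ * M.det ^ s γ) =
        M.det ^ (-s α) * (W0 * W1) α γ * M.det ^ s γ := by
      rw [Matrix.mul_apply, Finset.mul_sum, Finset.sum_mul]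
      refine Finset.sum_congr rfl fun β _ => by ring
    rw [h1, hW01]
    by_cases h : α = γ
    · subst h
      rw [Matrix.one_apply_eq, mul_one, ← zpow_add₀ hdet]; simp
    · rw [Matrix.one_apply_ne h]; simp
  · intro α
    show M.det ^ (-s α) * coeff α.1 (sbs M (Fh K n m)) = _
    rw [hψ, Finset.mul_sum]
    refine Finset.sum_congr rfl fun β _ => ?_
    rw [Matrix.of_apply, mul_assoc]

end Pool.Agent.T2h8.RM.t_
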