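import Mathlib
import Pool.Agent.T2h8.RM.Stm

/-! Project RM: statement S_x. -/

set_option autoImplicit false

open MvPolynomial

namespace Pool.Agent.T2h8.RM
namespace XX

/-- the generic determinant -/
noncomputable def dt (L : Type) [Field L] (n : ℕ) : MvPolynomial (Fin n × Fin n) L :=
  (Matrix.mvPolynomialX (Fin n) (Fin n) L).det

lemma dt_ne (L : Type) [Field L] (n : ℕ) : dt L n ≠ 0 := Matrix.det_mvPolynomialX_ne_zero (Fin n) L

lemma aeval_dt (L : Type) [Field L] (n : ℕ) (F : Type) [Field F] [Algebra L F]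
    (g : Matrix (Fin n) (Fin n) F) :
    aeval (fun p : Fin n × Fin n => g p.1 p.2) (dt L n) = g.det := by
  unfold dt
  rw [AlgHom.map_det, Matrix.mvPolynomialX_mapMatrix_aeval]

lemma clear {L : Type} [Field L] {n : ℕ} (a : Fin n → ℤ) (M : Matrix (Fin n) (Fin n) L)
    (P : MvPolynomial (Fin n × Fin n) L) :
    ∃ (N : ℕ) (R : MvPolynomial (Fin n × Fin n) L), ∀ (F : Type) [Field F] [Algebra L F]
      (g : Matrix (Fin n) (Fin n) F), g.det ≠ 0 →
      aeval (fun p : Fin n × Fin n => g p.1 p.2) R = g.det ^ N *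
        aeval (fun p : Fin n × Fin n =>
          g.det ^ a p.2 * (g * M.map (algebraMap L F)) p.1 p.2) P := by
  induction P using MvPolynomial.induction_on with
  | C c => exact ⟨0, C c, fun F _ _ g _ => by simp⟩
  | add P Q hP hQ =>
    obtain ⟨N₁, R₁, h₁⟩ := hP
    obtain ⟨N₂, R₂, h₂⟩ := hQ
    refine ⟨N₁ + N₂, R₁ * dt L n ^ N₂ + R₂ * dt L n ^ N₁, ?_⟩
    intro F _ _ g hg
    rw [map_add, map_mul, map_mul, map_pow, map_pow, aeval_dt, h₁ F g hg, h₂ F g hg, map_add]
    ring
  | mul_X P p hP =>
    obtain ⟨N, R, h⟩ := hP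
    refine ⟨N + (a p.2).natAbs, R * dt L n ^ (a p.2 + |a p.2|).toNat *
      (∑ k, X (p.1, k) * C (M k p.2)), ?_⟩
    intro F _ _ g hg
    rw [map_mul, map_mul, map_pow, aeval_dt, h F g hg, map_mul, aeval_X]
    have h1 : aeval (fun p : Fin n × Fin n => g p.1 p.2)
        (∑ k, X (p.1, k) * C (M k p.2) : MvPolynomial (Fin n × Fin n) L) =
        (g * M.map (algebraMap L F)) p.1 p.2 := by
      rw [map_sum, Matrix.mul_apply]
      refine Finset.sum_congr rfl fun k _ => ?_
      rw [map_mul, aeval_X, algHom_C]
      rfl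
    have h2 : g.det ^ (a p.2 + |a p.2|).toNat = g.det ^ (a p.2).natAbs * g.det ^ a p.2 := by
      rw [← zpow_natCast, ← zpow_natCast, ← zpow_add₀ hg]
      congr 1
      have : 0 ≤ a p.2 + |a p.2| := by
        have := neg_abs_le (a p.2)
        omega
      rw [Int.toNat_of_nonneg this, Int.natCast_natAbs]
      ring
    rw [h1, h2, pow_add]
    ring

/-- a polynomial over an extension of an infinite field which vanishes at all invertible matrices
over the small field is zero -/
lemma vanish {K L : Type} [Field K] [Infinite K] [Field L] [Algebra K L] {n : ℕ}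
    (R : MvPolynomial (Fin n × Fin n) L)
    (h : ∀ g : Matrix (Fin n) (Fin n) K, g.det ≠ 0 →
      aeval (fun p : Fin n × Fin n => algebraMap K L (g p.1 p.2)) R = 0) : R = 0 := by
  have h1 : R * dt L n = 0 := by
    refine MvPolynomial.funext_set (fun _ => Set.range (algebraMap K L))
      (fun _ => Set.infinite_range_of_injective (algebraMap K L).injective) ?_
    intro x hx
    rw [map_zero]
    choose y hy using fun i => hx i (Set.mem_univ i)
    have hx' : x = fun p : Fin n × Fin n => (Matrix.of (fun i j => algebraMap K L (y (i, j)))) p.1 p.2 := by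
      funext p
      exact (hy p).symm
    have hd : eval x (dt L n) = algebraMap K L (Matrix.of (fun i j => y (i, j))).det := by
      rw [RingHom.map_det, hx', ← coe_aeval_eq_eval]
      exact aeval_dt L n L _
    rw [map_mul, hd]
    by_cases h0 : (Matrix.of (fun i j : Fin n => y (i, j))).det = 0
    · rw [h0, map_zero, mul_zero]
    · have := h _ h0
      rw [show eval x R = 0 from ?_, zero_mul]
      rw [← this, hx', ← coe_aeval_eq_eval]
      rfl
  exact (mul_eq_zero.1 h1).resolve_right (dt_ne L n)

end XX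

open XX in
theorem t_x (_h_f0 : S_f0) : S_x := by
  intro K _ _ n m _ hm a M hM hsum
  obtain ⟨hdet, -, hfr⟩ := hM
  have hm0 : 0 < m := by omega
  set E0 := (L0 K n m ⊓ E K n m : IntermediateField K (LL K n m)) with hE0
  rw [algebraicIndependent_iff]
  intro P hP
  set P' : MvPolynomial (Fin n × Fin n) (LL K n m) := map (algebraMap E0 (LL K n m)) P with hP'
  have key : ∀ g : GL (Fin n) K, aeval (fun p : Fin n × Fin n =>
      algebraMap K (LL K n m) (g.1.det ^ a p.2) *
        ∑ k, algebraMap K (LL K n m) (g.1 p.1 k) * M k p.2) P' = 0 := by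
    intro g
    let σ : LL K n m →ₐ[E0] LL K n m :=
      { (sg g).toRingHom with
        commutes' := fun r => (r.2.2 : ∀ g : GL (Fin n) K, sg g (r : LL K n m) = r) g }
    have h1 := comp_aeval_apply (fun p : Fin n × Fin n => M p.1 p.2) σ P
    rw [hP, map_zero] at h1
    rw [hP', aeval_map_algebraMap, h1]
    congr 2
    funext p
    exact (hfr g p.1 p.2).symm
  obtain ⟨N, R, hR⟩ := clear a M P'
  have hR0 : R = 0 := by
    apply vanish (K := K)
    intro g hg
    have hu : IsUnit g.det := isUnit_iff_ne_zero.2 hg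
    have h1 := key (Matrix.GeneralLinearGroup.mk'' g hu)
    have hd : (g.map (algebraMap K (LL K n m))).det = algebraMap K (LL K n m) g.det := by
      rw [RingHom.map_det]; rfl
    have h2 := hR (LL K n m) (g.map (algebraMap K (LL K n m)))
      (by rw [hd]; exact (map_ne_zero _).2 hg)
    have h3 : (fun p : Fin n × Fin n => (g.map (algebraMap K (LL K n m))).det ^ a p.2 *
        (g.map (algebraMap K (LL K n m)) * M.map (algebraMap (LL K n m) (LL K n m))) p.1 p.2) =
        fun p : Fin n × Fin n => algebraMap K (LL K n m)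
          ((Matrix.GeneralLinearGroup.mk'' g hu).1.det ^ a p.2) *
        ∑ k, algebraMap K (LL K n m) ((Matrix.GeneralLinearGroup.mk'' g hu).1 p.1 k) * M k p.2 := by
      funext p
      rw [hd, map_zpow₀, Matrix.mul_apply]
      rfl
    rw [h3, h1, mul_zero] at h2
    exact h2
  -- now over the algebraic closure
  let Ω := AlgebraicClosure (LL K n m)
  have hzero : ∀ h : Matrix (Fin n) (Fin n) Ω, h.det ≠ 0 →
      aeval (fun p : Fin n × Fin n => h p.1 p.2) P' = 0 := by
    intro h hh
    have hMd : (M.map (algebraMap (LL K n m) Ω)).det ≠ 0 := by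
      have : (M.map (algebraMap (LL K n m) Ω)).det = algebraMap (LL K n m) Ω M.det := by
        rw [RingHom.map_det]; rfl
      rw [this]
      exact (map_ne_zero _).2 hdet
    set M' := M.map (algebraMap (LL K n m) Ω) with hM'
    obtain ⟨δ, hδ⟩ := IsAlgClosed.exists_pow_nat_eq (h.det / M'.det) hm0
    have hδ0 : δ ≠ 0 := by
      rintro rfl
      rw [zero_pow hm0.ne'] at hδ
      exact (div_ne_zero hh hMd) hδ.symm
    set g := h * Matrix.diagonal (fun j => δ ^ (-a j)) * M'⁻¹ with hg
    have hgM : g * M' = h * Matrix.diagonal (fun j => δ ^ (-a j)) := by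
      rw [hg, Matrix.mul_assoc, Matrix.nonsing_inv_mul _ (isUnit_iff_ne_zero.2 hMd), Matrix.mul_one]
    have hgd : g.det = δ := by
      have h1 : g.det * M'.det = h.det * ∏ j, δ ^ (-a j) := by
        rw [← Matrix.det_mul, hgM, Matrix.det_mul, Matrix.det_diagonal]
      have h2 : ∏ j, δ ^ (-a j) = δ ^ (1 - (m : ℤ)) := by
        have : ∀ s : Finset (Fin n), ∏ j ∈ s, δ ^ (-a j) = δ ^ (∑ j ∈ s, (-a j)) := by
          intro s
          induction s using Finset.induction_on with
          | empty => simp
          | insert i s his ih =>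
            rw [Finset.prod_insert his, Finset.sum_insert his, ih, zpow_add₀ hδ0]
        rw [this, Finset.sum_neg_distrib]
        congr 1
        omega
      rw [h2] at h1
      have h3 : h.det = δ ^ m * M'.det := by
        rw [hδ, div_mul_cancel₀ _ hMd]
      rw [h3] at h1
      have h4 : g.det * M'.det = δ * M'.det := by
        rw [h1, sub_eq_add_neg, zpow_add₀ hδ0, zpow_neg, zpow_natCast, zpow_one]
        have h8 : δ ^ m * (δ ^ m)⁻¹ = 1 := mul_inv_cancel₀ (pow_ne_zero _ hδ0)
        linear_combination (δ * M'.det) * h8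
      exact mul_right_cancel₀ hMd h4
    have h5 := hR Ω g (by rw [hgd]; exact hδ0)
    rw [hR0, map_zero, ← hM', hgM, hgd] at h5
    have h6 : (fun p : Fin n × Fin n => δ ^ a p.2 *
        (h * Matrix.diagonal (fun j => δ ^ (-a j))) p.1 p.2) =
        fun p : Fin n × Fin n => h p.1 p.2 := by
      funext p
      rw [Matrix.mul_diagonal, mul_comm, mul_assoc, ← zpow_add₀ hδ0]
      simp
    rw [h6] at h5
    exact (mul_eq_zero.1 h5.symm).resolve_left (pow_ne_zero _ hδ0)
  have hP0 : map (algebraMap (LL K n m) Ω) P' = 0 := by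
    apply vanish (K := Ω)
    intro g hg
    have := hzero g hg
    rw [aeval_map_algebraMap]
    simpa using this
  have h7 : P' = 0 := by
    apply map_injective (algebraMap (LL K n m) Ω) (algebraMap (LL K n m) Ω).injective
    rw [hP0, map_zero]
  apply map_injective (algebraMap E0 (LL K n m)) (algebraMap E0 (LL K n m)).injective
  rw [← hP', h7, map_zero]

end Pool.Agent.T2h8.RM
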